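import Pool.Agent.Work.MP_b687c6_pr.Defs

/-! Module ANAL: the sets of Q-matrices are analytic. -/

namespace Pool.Agent.Work.MP_b687c6_pr

open Filter Topology MeasureTheory
open scoped NNReal

section std

variable {S : Type} [DecidableEq S] {p : S → S → ℝ → ℝ}

theorem anal_sum_le_one (hp : IsStandard p) (i : S) {t : ℝ} (ht : 0 ≤ t) (F : Finset S) :
    ∑ j ∈ F, p i j t ≤ 1 :=
  ((hp.summable i t ht).sum_le_tsum F (fun j _ => hp.nonneg i j t ht)).trans (hp.mass i t ht)

theorem anal_le_one (hp : IsStandard p) (i j : S) {t : ℝ} (ht : 0 ≤ t) : p i j t ≤ 1 := by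
  have h := anal_sum_le_one hp i ht {j}
  simpa using h

/-- the off-diagonal part of a row -/
noncomputable def offd (p : S → S → ℝ → ℝ) (i : S) (h : ℝ) (k : S) : ℝ :=
  if k = i then 0 else p i k h

theorem offd_nonneg (hp : IsStandard p) (i : S) {h : ℝ} (hh : 0 ≤ h) (k : S) :
    0 ≤ offd p i h k := by
  unfold offd
  split_ifs
  · exact le_rfl
  · exact hp.nonneg i k h hh

theorem offd_summable (hp : IsStandard p) (i : S) {h : ℝ} (hh : 0 ≤ h) :
    Summable (offd p i h) := by
  refine Summable.of_nonneg_of_le (offd_nonneg hp i hh) ?_ (hp.summable i h hh)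
  intro k
  unfold offd
  split_ifs
  · exact hp.nonneg i k h hh
  · exact le_rfl

theorem offd_tsum (hp : IsStandard p) (i : S) {h : ℝ} (hh : 0 ≤ h) :
    ∑' k, offd p i h k ≤ 1 - p i i h := by
  have h1 := (hp.summable i h hh).tsum_eq_add_tsum_ite i
  have h2 := hp.mass i h hh
  have h3 : (∑' n, if n = i then 0 else p i n h) = ∑' k, offd p i h k := rfl
  rw [h1, h3] at h2
  linarith

theorem offd_mul_summable (hp : IsStandard p) (i : S) {h s : ℝ} (hh : 0 ≤ h) (j : S)
    (hs : 0 ≤ s) : Summable fun k => offd p i h k * p k j s := by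
  refine Summable.of_nonneg_of_le
    (fun k => mul_nonneg (offd_nonneg hp i hh k) (hp.nonneg k j s hs)) ?_
    (offd_summable hp i hh)
  intro k
  exact mul_le_of_le_one_right (offd_nonneg hp i hh k) (anal_le_one hp k j hs)

theorem mul_summable (hp : IsStandard p) (i : S) {h s : ℝ} (hh : 0 ≤ h) (j : S)
    (hs : 0 ≤ s) : Summable fun k => p i k h * p k j s := by
  refine Summable.of_nonneg_of_le
    (fun k => mul_nonneg (hp.nonneg i k h hh) (hp.nonneg k j s hs)) ?_
    (hp.summable i h hh)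
  intro k
  exact mul_le_of_le_one_right (hp.nonneg i k h hh) (anal_le_one hp k j hs)

theorem split_row (hp : IsStandard p) (i j : S) {h s : ℝ} (hh : 0 ≤ h) (hs : 0 ≤ s) :
    p i j (h + s) = p i i h * p i j s + ∑' k, offd p i h k * p k j s := by
  rw [hp.ck i j h s hh hs, (mul_summable hp i hh j hs).tsum_eq_add_tsum_ite i]
  congr 1
  refine tsum_congr fun k => ?_
  unfold offd
  split_ifs <;> simp

theorem offd_mul_nonneg (hp : IsStandard p) (i j : S) {h s : ℝ} (hh : 0 ≤ h) (hs : 0 ≤ s) :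
    0 ≤ ∑' k, offd p i h k * p k j s :=
  tsum_nonneg fun k => mul_nonneg (offd_nonneg hp i hh k) (hp.nonneg k j s hs)

theorem p_zero_self (hp : IsStandard p) (i : S) : p i i 0 = 1 := by
  apply le_antisymm (anal_le_one hp i i le_rfl)
  have hlim := hp.standard i i
  rw [if_pos rfl] at hlim
  have h1 : Tendsto (fun t => p i i t * p i i 0 + (1 - p i i t)) (𝓝[>] 0)
      (𝓝 (1 * p i i 0 + (1 - 1))) :=
    (hlim.mul_const _).add (hlim.const_sub 1)
  have h2 : ∀ᶠ t in 𝓝[>] (0 : ℝ), p i i t ≤ p i i t * p i i 0 + (1 - p i i t) := by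
    filter_upwards [self_mem_nhdsWithin] with t ht
    have ht' : 0 ≤ t := le_of_lt ht
    have h3 := split_row hp i i ht' (le_refl (0 : ℝ))
    rw [add_zero] at h3
    have h4 : ∑' k, offd p i t k * p k i 0 ≤ ∑' k, offd p i t k := by
      refine (offd_mul_summable hp i ht' i le_rfl).tsum_le_tsum (fun k => ?_)
        (offd_summable hp i ht')
      exact mul_le_of_le_one_right (offd_nonneg hp i ht' k) (anal_le_one hp k i le_rfl)
    have h5 := offd_tsum hp i ht'
    linarith
  have h6 := le_of_tendsto_of_tendsto hlim h1 h2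
  linarith

theorem p_zero_ne (hp : IsStandard p) {i j : S} (hij : i ≠ j) : p i j 0 = 0 := by
  have h := anal_sum_le_one hp i (le_refl (0 : ℝ)) {i, j}
  rw [Finset.sum_pair hij, p_zero_self hp] at h
  have := hp.nonneg i j 0 le_rfl
  linarith

theorem row_l1 (hp : IsStandard p) (i : S) {h s : ℝ} (hh : 0 ≤ h) (hs : 0 ≤ s) (G : Finset S) :
    ∑ k ∈ G, |p i k (h + s) - p i k s| ≤ 2 * (1 - p i i h) := by
  have h0 : 0 ≤ 1 - p i i h := by
    have := anal_le_one hp i i hh
    linarith
  have h1 : ∀ k, |p i k (h + s) - p i k s| ≤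
      (1 - p i i h) * p i k s + ∑' l, offd p i h l * p l k s := by
    intro k
    have h2 := offd_mul_nonneg hp i k hh hs
    have h3 := mul_nonneg h0 (hp.nonneg i k s hs)
    rw [split_row hp i k hh hs, abs_le]
    constructor <;> nlinarith
  have h4 : ∑ k ∈ G, ∑' l, offd p i h l * p l k s ≤ 1 - p i i h := by
    rw [← Summable.tsum_finsetSum (fun k _ => offd_mul_summable hp i hh k hs)]
    refine le_trans ?_ (offd_tsum hp i hh)
    refine Summable.tsum_le_tsum (fun l => ?_) ?_ (offd_summable hp i hh)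
    · rw [← Finset.mul_sum]
      exact mul_le_of_le_one_right (offd_nonneg hp i hh l) (anal_sum_le_one hp l hs G)
    · exact summable_sum fun k _ => offd_mul_summable hp i hh k hs
  calc ∑ k ∈ G, |p i k (h + s) - p i k s|
      ≤ ∑ k ∈ G, ((1 - p i i h) * p i k s + ∑' l, offd p i h l * p l k s) :=
        Finset.sum_le_sum fun k _ => h1 k
    _ = (1 - p i i h) * ∑ k ∈ G, p i k s + ∑ k ∈ G, ∑' l, offd p i h l * p l k s := by
        rw [Finset.sum_add_distrib, Finset.mul_sum]
    _ ≤ (1 - p i i h) * 1 + (1 - p i i h) :=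
        add_le_add (mul_le_mul_of_nonneg_left (anal_sum_le_one hp i hs G) h0) h4
    _ = 2 * (1 - p i i h) := by ring

theorem phi_small (hp : IsStandard p) (i : S) {ε : ℝ} (hε : 0 < ε) :
    ∃ δ : ℝ, 0 < δ ∧ ∀ h, 0 ≤ h → h < δ → 1 - p i i h < ε := by
  have hlim := hp.standard i i
  rw [if_pos rfl] at hlim
  have h1 : ∀ᶠ t in 𝓝[>] (0 : ℝ), 1 - ε < p i i t := hlim.eventually (lt_mem_nhds (by linarith))
  rw [(nhdsGT_basis (0 : ℝ)).eventually_iff] at h1
  obtain ⟨δ, hδ, h2⟩ := h1
  refine ⟨δ, hδ, fun h hh hlt => ?_⟩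
  rcases hh.eq_or_lt with rfl | hpos
  · rw [p_zero_self hp]
    linarith
  · have := h2 ⟨hpos, hlt⟩
    linarith

theorem p_cont (hp : IsStandard p) (i j : S) : Continuous fun t : ℝ≥0 => p i j t := by
  rw [Metric.continuous_iff]
  intro t ε hε
  obtain ⟨δ, hδ, h1⟩ := phi_small hp i (half_pos hε)
  refine ⟨δ, hδ, fun t' ht' => ?_⟩
  have key : ∀ a b : ℝ≥0, a ≤ b → (b : ℝ) - a < δ → |p i j b - p i j a| < ε := by
    intro a b hab hlt
    have hab' : (a : ℝ) ≤ b := hab
    have h2 := row_l1 hp i (sub_nonneg.2 hab') a.coe_nonneg {j}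
    rw [sub_add_cancel, Finset.sum_singleton] at h2
    have h3 := h1 _ (sub_nonneg.2 hab') hlt
    linarith
  rw [Real.dist_eq]
  rw [NNReal.dist_eq] at ht'
  rcases le_total t t' with h | h
  · exact key t t' h (lt_of_le_of_lt (le_abs_self _) ht')
  · rw [abs_sub_comm]
    rw [abs_sub_comm] at ht'
    exact key t' t h (lt_of_le_of_lt (le_abs_self _) ht')

theorem p_tight (hp : IsStandard p) (i : S) (T : ℝ) {ε : ℝ} (hε : 0 < ε) :
    ∃ F : Finset S, ∀ s, 0 ≤ s → s ≤ T → ∀ G : Finset S, Disjoint G F →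
      ∑ k ∈ G, p i k s ≤ ε := by
  classical
  obtain ⟨δ, hδ, h1⟩ := phi_small hp i (show 0 < ε / 4 by linarith)
  have h2 : ∀ m : ℕ, ∃ F : Finset S, ∀ G : Finset S, Disjoint G F →
      ∑ k ∈ G, p i k (m * (δ / 2)) < ε / 2 := by
    intro m
    have h3 := (hp.summable i (m * (δ / 2)) (by positivity)).vanishing
      (Iio_mem_nhds (show (0 : ℝ) < ε / 2 by linarith))
    obtain ⟨F, hF⟩ := h3
    exact ⟨F, fun G hG => hF G hG⟩
  choose F hF using h2
  refine ⟨(Finset.range (⌈T / (δ / 2)⌉₊ + 1)).biUnion F, fun s hs hsT G hG => ?_⟩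
  set m := ⌊s / (δ / 2)⌋₊ with hm
  have hδ2 : 0 < δ / 2 := by linarith
  have hm1 : (m : ℝ) * (δ / 2) ≤ s := by
    have := Nat.floor_le (div_nonneg hs hδ2.le)
    rwa [← hm, le_div_iff₀ hδ2] at this
  have hm2 : s < (m + 1 : ℝ) * (δ / 2) := by
    have := Nat.lt_floor_add_one (s / (δ / 2))
    rwa [← hm, div_lt_iff₀ hδ2] at this
  have hmM : m ∈ Finset.range (⌈T / (δ / 2)⌉₊ + 1) := by
    rw [Finset.mem_range]
    have h3 : m ≤ ⌈T / (δ / 2)⌉₊ := by
      have h4 : (m : ℝ) ≤ ⌈T / (δ / 2)⌉₊ := by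
        refine le_trans (Nat.floor_le (div_nonneg hs hδ2.le)) (le_trans ?_ (Nat.le_ceil _))
        gcongr
      exact_mod_cast h4
    omega
  have hdis : Disjoint G (F m) :=
    hG.mono_right (Finset.subset_biUnion_of_mem F hmM)
  have h3 := hF m G hdis
  have hu : 0 ≤ s - m * (δ / 2) := by linarith
  have h4 := row_l1 hp i hu (show (0 : ℝ) ≤ m * (δ / 2) by positivity) G
  rw [sub_add_cancel] at h4
  have h5 := h1 (s - m * (δ / 2)) hu (by linarith)
  have h6 : ∑ k ∈ G, p i k s ≤ ∑ k ∈ G, p i k (m * (δ / 2)) +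
      ∑ k ∈ G, |p i k s - p i k (m * (δ / 2))| := by
    rw [← Finset.sum_add_distrib]
    refine Finset.sum_le_sum fun k _ => ?_
    have := le_abs_self (p i k s - p i k (m * (δ / 2)))
    linarith
  linarith

end std

/-! ### The Borel set of codes -/

section codes

variable {S : Type} [DecidableEq S]

/-- the semigroup coded by `w` -/
noncomputable def toP (w : S → S → C(ℝ≥0, ℝ)) : S → S → ℝ → ℝ := fun i j t => w i j t.toNNReal

/-- `w` codes a standard semigroup -/
structure IsCode (w : S → S → C(ℝ≥0, ℝ)) : Prop where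
  nonneg : ∀ i j t, 0 ≤ w i j t
  mass : ∀ i t (F : Finset S), ∑ j ∈ F, w i j t ≤ 1
  ck_le : ∀ i j s t (F : Finset S), ∑ k ∈ F, w i k s * w k j t ≤ w i j (s + t)
  ck_ge : ∀ i j (n N : ℕ), ∃ F : Finset S, ∀ s t : ℝ≥0, s ≤ N → t ≤ N →
    w i j (s + t) ≤ ∑ k ∈ F, w i k s * w k j t + 1 / ((n : ℝ) + 1)
  zero : ∀ i j, w i j 0 = if i = j then 1 else 0

theorem IsCode.isStandard {w : S → S → C(ℝ≥0, ℝ)} (hw : IsCode w) : IsStandard (toP w) := by
  constructor
  · intro i j t _
    exact hw.nonneg i j _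
  · intro i t _
    exact summable_of_sum_le (fun j => hw.nonneg i j _) (hw.mass i _)
  · intro i t _
    exact (summable_of_sum_le (fun j => hw.nonneg i j _) (hw.mass i _)).tsum_le_of_sum_le
      (hw.mass i _)
  · intro i j s t hs ht
    symm
    apply HasSum.tsum_eq
    apply hasSum_of_isLUB_of_nonneg
    · intro k
      exact mul_nonneg (hw.nonneg i k _) (hw.nonneg k j _)
    · have hst : toP w i j (s + t) = w i j (s.toNNReal + t.toNNReal) := by
        unfold toP
        rw [Real.toNNReal_add hs ht]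
      rw [hst]
      constructor
      · rintro _ ⟨F, rfl⟩
        exact hw.ck_le i j _ _ F
      · intro b hb
        refine le_of_forall_pos_le_add fun ε hε => ?_
        obtain ⟨n, hn⟩ := exists_nat_one_div_lt hε
        obtain ⟨N, hN⟩ := exists_nat_ge (max s.toNNReal t.toNNReal)
        obtain ⟨F, hF⟩ := hw.ck_ge i j n N
        have h1 := hF s.toNNReal t.toNNReal ((le_max_left _ _).trans hN)
          ((le_max_right _ _).trans hN)
        have h2 : ∑ k ∈ F, w i k s.toNNReal * w k j t.toNNReal ≤ b := hb ⟨F, rfl⟩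
        linarith
  · intro i j
    have h1 : Continuous fun t : ℝ => toP w i j t :=
      (w i j).continuous.comp continuous_real_toNNReal
    have h2 := (h1.tendsto 0).mono_left (nhdsWithin_le_nhds (s := Set.Ioi (0 : ℝ)))
    have h3 : toP w i j 0 = if i = j then 1 else 0 := by
      unfold toP
      rw [Real.toNNReal_zero, hw.zero]
    rw [h3] at h2
    exact h2

theorem IsCode.isHonest {w : S → S → C(ℝ≥0, ℝ)} (hw : IsCode w)
    (hh : ∀ i (n N : ℕ), ∃ F : Finset S, ∀ t : ℝ≥0, t ≤ N →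
      1 - 1 / ((n : ℝ) + 1) ≤ ∑ j ∈ F, w i j t) : IsHonest (toP w) := by
  intro i t _
  apply HasSum.tsum_eq
  apply hasSum_of_isLUB_of_nonneg
  · intro k
    exact hw.nonneg i k _
  · constructor
    · rintro _ ⟨F, rfl⟩
      exact hw.mass i _ F
    · intro b hb
      refine le_of_forall_pos_le_add fun ε hε => ?_
      obtain ⟨n, hn⟩ := exists_nat_one_div_lt hε
      obtain ⟨N, hN⟩ := exists_nat_ge t.toNNReal
      obtain ⟨F, hF⟩ := hh i n N
      have h1 := hF t.toNNReal hN
      have h2 : ∑ k ∈ F, w i k t.toNNReal ≤ b := hb ⟨F, rfl⟩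
      linarith

/-- the code of a standard semigroup -/
noncomputable def codeOf (p : S → S → ℝ → ℝ) (hp : IsStandard p) : S → S → C(ℝ≥0, ℝ) :=
  fun i j => ⟨fun t => p i j t, p_cont hp i j⟩

theorem codeOf_isCode (p : S → S → ℝ → ℝ) (hp : IsStandard p) : IsCode (codeOf p hp) := by
  constructor
  · intro i j t
    exact hp.nonneg i j t t.coe_nonneg
  · intro i t F
    exact anal_sum_le_one hp i t.coe_nonneg F
  · intro i j s t F
    change ∑ k ∈ F, p i k s * p k j t ≤ p i j ((s + t : ℝ≥0) : ℝ)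
    rw [NNReal.coe_add, hp.ck i j s t s.coe_nonneg t.coe_nonneg]
    exact (mul_summable hp i s.coe_nonneg j t.coe_nonneg).sum_le_tsum F
      (fun k _ => mul_nonneg (hp.nonneg i k s s.coe_nonneg) (hp.nonneg k j t t.coe_nonneg))
  · intro i j n N
    obtain ⟨F, hF⟩ := p_tight hp i N (show (0 : ℝ) < 1 / ((n : ℝ) + 1) by positivity)
    refine ⟨F, fun s t hs _ => ?_⟩
    change p i j ((s + t : ℝ≥0) : ℝ) ≤ ∑ k ∈ F, p i k s * p k j t + 1 / ((n : ℝ) + 1)
    rw [NNReal.coe_add, hp.ck i j s t s.coe_nonneg t.coe_nonneg]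
    refine (mul_summable hp i s.coe_nonneg j t.coe_nonneg).tsum_le_of_sum_le fun G => ?_
    have h1 := hF s s.coe_nonneg (by exact_mod_cast hs) (G \ F) Finset.sdiff_disjoint
    have h2 : ∑ k ∈ G \ F, p i k s * p k j t ≤ ∑ k ∈ G \ F, p i k s := by
      refine Finset.sum_le_sum fun k _ => ?_
      exact mul_le_of_le_one_right (hp.nonneg i k s s.coe_nonneg) (anal_le_one hp k j t.coe_nonneg)
    have h3 : ∑ k ∈ G, p i k s * p k j t ≤ ∑ k ∈ G ∪ F, p i k s * p k j t :=
      Finset.sum_le_sum_of_subset_of_nonneg Finset.subset_union_left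
        (fun k _ _ => mul_nonneg (hp.nonneg i k s s.coe_nonneg) (hp.nonneg k j t t.coe_nonneg))
    have h4 : ∑ k ∈ G ∪ F, p i k s * p k j t =
        ∑ k ∈ G \ F, p i k s * p k j t + ∑ k ∈ F, p i k s * p k j t := by
      rw [← Finset.sdiff_union_self_eq_union, Finset.sum_union Finset.sdiff_disjoint]
    linarith
  · intro i j
    change p i j ((0 : ℝ≥0) : ℝ) = _
    rw [NNReal.coe_zero]
    split_ifs with h
    · subst h
      exact p_zero_self hp i
    · exact p_zero_ne hp h

theorem codeOf_honest (p : S → S → ℝ → ℝ) (hp : IsStandard p) (hh : IsHonest p) (i : S)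
    (n N : ℕ) : ∃ F : Finset S, ∀ t : ℝ≥0, t ≤ N →
      1 - 1 / ((n : ℝ) + 1) ≤ ∑ j ∈ F, codeOf p hp i j t := by
  obtain ⟨F, hF⟩ := p_tight hp i N (show (0 : ℝ) < 1 / ((n : ℝ) + 1) by positivity)
  refine ⟨F, fun t ht => ?_⟩
  change _ ≤ ∑ j ∈ F, p i j t
  have h1 : ∑' j, p i j t ≤ ∑ j ∈ F, p i j t + 1 / ((n : ℝ) + 1) := by
    refine (hp.summable i t t.coe_nonneg).tsum_le_of_sum_le fun G => ?_
    have h1 := hF t t.coe_nonneg (by exact_mod_cast ht) (G \ F) Finset.sdiff_disjoint
    have h3 : ∑ k ∈ G, p i k t ≤ ∑ k ∈ G ∪ F, p i k t :=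
      Finset.sum_le_sum_of_subset_of_nonneg Finset.subset_union_left
        (fun k _ _ => hp.nonneg i k t t.coe_nonneg)
    have h4 : ∑ k ∈ G ∪ F, p i k t = ∑ k ∈ G \ F, p i k t + ∑ k ∈ F, p i k t := by
      rw [← Finset.sdiff_union_self_eq_union, Finset.sum_union Finset.sdiff_disjoint]
    linarith
  rw [hh i t t.coe_nonneg] at h1
  linarith

/-- one-sided conditions equivalent to `HasQ` -/
def QCond (w : S → S → C(ℝ≥0, ℝ)) (Q : S → S → EReal) : Prop :=
  ∀ i j, (∀ r : ℚ, Q i j ≤ ((r : ℝ) : EReal) ∨ ∃ m : ℕ, ∀ t : ℝ, 0 < t → t < 1 / ((m : ℝ) + 1) →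
      (r : ℝ) * t ≤ w i j t.toNNReal - if i = j then 1 else 0) ∧
    (∀ r : ℚ, ((r : ℝ) : EReal) ≤ Q i j ∨ ∃ m : ℕ, ∀ t : ℝ, 0 < t → t < 1 / ((m : ℝ) + 1) →
      (w i j t.toNNReal - if i = j then 1 else 0) ≤ (r : ℝ) * t)

theorem ev_iff (P : ℝ → Prop) : (∀ᶠ t in 𝓝[>] (0 : ℝ), P t) ↔
    ∃ m : ℕ, ∀ t : ℝ, 0 < t → t < 1 / ((m : ℝ) + 1) → P t := by
  rw [(nhdsGT_basis (0 : ℝ)).eventually_iff]
  constructor
  · rintro ⟨δ, hδ, h⟩
    obtain ⟨m, hm⟩ := exists_nat_one_div_lt hδ
    exact ⟨m, fun t h0 h1 => h ⟨h0, h1.trans hm⟩⟩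
  · rintro ⟨m, h⟩
    exact ⟨1 / ((m : ℝ) + 1), by positivity, fun t ht => h t ht.1 ht.2⟩

theorem hasQ_iff (w : S → S → C(ℝ≥0, ℝ)) (Q : S → S → EReal) :
    HasQ (toP w) Q ↔ QCond w Q := by
  unfold HasQ QCond
  refine forall_congr' fun i => forall_congr' fun j => ?_
  rw [tendsto_order]
  constructor
  · rintro ⟨h1, h2⟩
    constructor
    · intro r
      by_cases hr : Q i j ≤ ((r : ℝ) : EReal)
      · exact Or.inl hr
      · right
        rw [not_le] at hr
        rw [← ev_iff]
        filter_upwards [h1 _ hr, self_mem_nhdsWithin] with t ht ht0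
        have ht0' : (0 : ℝ) < t := ht0
        rw [EReal.coe_lt_coe_iff, lt_div_iff₀ ht0'] at ht
        exact ht.le
    · intro r
      by_cases hr : ((r : ℝ) : EReal) ≤ Q i j
      · exact Or.inl hr
      · right
        rw [not_le] at hr
        rw [← ev_iff]
        filter_upwards [h2 _ hr, self_mem_nhdsWithin] with t ht ht0
        have ht0' : (0 : ℝ) < t := ht0
        rw [EReal.coe_lt_coe_iff, div_lt_iff₀ ht0'] at ht
        exact ht.le
  · rintro ⟨h1, h2⟩
    constructor
    · intro a ha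
      obtain ⟨r, hr1, hr2⟩ := EReal.exists_rat_btwn_of_lt ha
      have h3 := (h1 r).resolve_left (not_le.2 hr2)
      rw [← ev_iff] at h3
      filter_upwards [h3, self_mem_nhdsWithin] with t ht ht0
      have ht0' : (0 : ℝ) < t := ht0
      refine lt_of_lt_of_le hr1 ?_
      rw [EReal.coe_le_coe_iff, le_div_iff₀ ht0']
      exact ht
    · intro a ha
      obtain ⟨r, hr1, hr2⟩ := EReal.exists_rat_btwn_of_lt ha
      have h3 := (h2 r).resolve_left (not_le.2 hr1)
      rw [← ev_iff] at h3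
      filter_upwards [h3, self_mem_nhdsWithin] with t ht ht0
      have ht0' : (0 : ℝ) < t := ht0
      refine lt_of_le_of_lt ?_ hr2
      rw [EReal.coe_le_coe_iff, div_le_iff₀ ht0']
      exact ht

theorem hasQ_codeOf (p : S → S → ℝ → ℝ) (hp : IsStandard p) (Q : S → S → EReal)
    (h : HasQ p Q) : HasQ (toP (codeOf p hp)) Q := by
  intro i j
  refine (h i j).congr' ?_
  filter_upwards [self_mem_nhdsWithin] with t ht
  have ht0 : (0 : ℝ) < t := ht
  have h1 : toP (codeOf p hp) i j t = p i j t := by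
    change p i j (t.toNNReal : ℝ) = p i j t
    rw [Real.coe_toNNReal t ht0.le]
  rw [h1]

end codes

/-! ### Measurability -/

section meas

variable (S : Type) [Countable S] [DecidableEq S]

abbrev ZZ (S : Type) := (S → S → C(ℝ≥0, ℝ)) × (S → S → EReal)

theorem cont_w {S : Type} (i j : S) (t : ℝ≥0) : Continuous fun z : ZZ S => z.1 i j t :=
  (continuous_eval_const t).comp
    ((continuous_apply j).comp ((continuous_apply i).comp continuous_fst))

theorem cont_Q {S : Type} (i j : S) : Continuous fun z : ZZ S => z.2 i j :=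
  (continuous_apply j).comp ((continuous_apply i).comp continuous_snd)

variable [MeasurableSpace (ZZ S)] [BorelSpace (ZZ S)]

theorem meas_adm : MeasurableSet {z : ZZ S | Admissible z.2} := by
  unfold Admissible
  simp only [Set.ofPred_forall, Set.ofPred_and]
  refine MeasurableSet.iInter fun i => MeasurableSet.inter ?_ ?_
  · exact (isClosed_le (cont_Q i i) continuous_const).measurableSet
  · refine MeasurableSet.iInter fun j => MeasurableSet.iInter fun _ => MeasurableSet.inter ?_ ?_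
    · exact (isClosed_le continuous_const (cont_Q i j)).measurableSet
    · exact (isOpen_lt (cont_Q i j) continuous_const).measurableSet

theorem meas_code : MeasurableSet {z : ZZ S | IsCode z.1} := by
  have h : {z : ZZ S | IsCode z.1} =
      {z | ∀ i j t, 0 ≤ z.1 i j t} ∩ ({z | ∀ i t (F : Finset S), ∑ j ∈ F, z.1 i j t ≤ 1} ∩
      ({z | ∀ i j s t (F : Finset S), ∑ k ∈ F, z.1 i k s * z.1 k j t ≤ z.1 i j (s + t)} ∩
      ({z | ∀ i j (n N : ℕ), ∃ F : Finset S, ∀ s t : ℝ≥0, s ≤ N → t ≤ N →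
        z.1 i j (s + t) ≤ ∑ k ∈ F, z.1 i k s * z.1 k j t + 1 / ((n : ℝ) + 1)} ∩
      {z | ∀ i j, z.1 i j 0 = if i = j then 1 else 0}))) := by
    ext z
    constructor
    · rintro ⟨h1, h2, h3, h4, h5⟩
      exact ⟨h1, h2, h3, h4, h5⟩
    · rintro ⟨h1, h2, h3, h4, h5⟩
      exact ⟨h1, h2, h3, h4, h5⟩
  rw [h]
  refine MeasurableSet.inter ?_ (MeasurableSet.inter ?_ (MeasurableSet.inter ?_
    (MeasurableSet.inter ?_ ?_)))
  · simp only [Set.ofPred_forall]
    exact (isClosed_iInter fun i => isClosed_iInter fun j => isClosed_iInter fun t =>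
      isClosed_le continuous_const (cont_w i j t)).measurableSet
  · simp only [Set.ofPred_forall]
    exact (isClosed_iInter fun i => isClosed_iInter fun t => isClosed_iInter fun F =>
      isClosed_le (continuous_finsetSum _ fun j _ => cont_w i j t)
        continuous_const).measurableSet
  · simp only [Set.ofPred_forall]
    exact (isClosed_iInter fun i => isClosed_iInter fun j => isClosed_iInter fun s =>
      isClosed_iInter fun t => isClosed_iInter fun F =>
      isClosed_le (continuous_finsetSum _ fun k _ => (cont_w i k s).mul (cont_w k j t))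
        (cont_w i j (s + t))).measurableSet
  · simp only [Set.ofPred_forall, Set.ofPred_exists]
    refine MeasurableSet.iInter fun i => MeasurableSet.iInter fun j =>
      MeasurableSet.iInter fun n => MeasurableSet.iInter fun N => MeasurableSet.iUnion fun F => ?_
    exact (isClosed_iInter fun s => isClosed_iInter fun t => isClosed_iInter fun _ =>
      isClosed_iInter fun _ => isClosed_le (cont_w i j (s + t))
        ((continuous_finsetSum _ fun k _ => (cont_w i k s).mul (cont_w k j t)).add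
          continuous_const)).measurableSet
  · simp only [Set.ofPred_forall]
    refine MeasurableSet.iInter fun i => MeasurableSet.iInter fun j => ?_
    exact (isClosed_eq (cont_w i j 0) continuous_const).measurableSet

theorem meas_hon : MeasurableSet {z : ZZ S | ∀ i (n N : ℕ), ∃ F : Finset S, ∀ t : ℝ≥0, t ≤ N →
      1 - 1 / ((n : ℝ) + 1) ≤ ∑ j ∈ F, z.1 i j t} := by
  simp only [Set.ofPred_forall, Set.ofPred_exists]
  refine MeasurableSet.iInter fun i => MeasurableSet.iInter fun n =>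
    MeasurableSet.iInter fun N => MeasurableSet.iUnion fun F => ?_
  exact (isClosed_iInter fun t => isClosed_iInter fun _ => isClosed_le continuous_const
    (continuous_finsetSum _ fun j _ => cont_w i j t)).measurableSet

theorem meas_Q : MeasurableSet {z : ZZ S | QCond z.1 z.2} := by
  unfold QCond
  simp only [Set.ofPred_forall, Set.ofPred_and, Set.ofPred_or, Set.ofPred_exists]
  refine MeasurableSet.iInter fun i => MeasurableSet.iInter fun j => MeasurableSet.inter ?_ ?_
  · refine MeasurableSet.iInter fun r => MeasurableSet.union ?_ ?_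
    · exact (isClosed_le (cont_Q i j) continuous_const).measurableSet
    · refine MeasurableSet.iUnion fun m => ?_
      exact (isClosed_iInter fun t => isClosed_iInter fun _ => isClosed_iInter fun _ =>
        isClosed_le continuous_const ((cont_w i j _).sub continuous_const)).measurableSet
  · refine MeasurableSet.iInter fun r => MeasurableSet.union ?_ ?_
    · exact (isClosed_le continuous_const (cont_Q i j)).measurableSet
    · refine MeasurableSet.iUnion fun m => ?_
      exact (isClosed_iInter fun t => isClosed_iInter fun _ => isClosed_iInter fun _ =>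
        isClosed_le ((cont_w i j _).sub continuous_const) continuous_const).measurableSet

end meas

theorem analytic_QMat (S : Type) [Countable S] [DecidableEq S] : AnalyticSet (QMat S) := by
  let _ : MeasurableSpace (ZZ S) := borel _
  have _ : BorelSpace (ZZ S) := ⟨rfl⟩
  have h1 : MeasurableSet ({z : ZZ S | Admissible z.2} ∩ ({z : ZZ S | IsCode z.1} ∩
      {z : ZZ S | QCond z.1 z.2})) := (meas_adm S).inter ((meas_code S).inter (meas_Q S))
  have h2 : QMat S = Prod.snd '' ({z : ZZ S | Admissible z.2} ∩ ({z : ZZ S | IsCode z.1} ∩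
      {z : ZZ S | QCond z.1 z.2})) := by
    ext Q
    constructor
    · rintro ⟨hA, p, hp, hQ⟩
      refine ⟨(codeOf p hp, Q), ⟨hA, codeOf_isCode p hp, ?_⟩, rfl⟩
      exact (hasQ_iff _ _).1 (hasQ_codeOf p hp Q hQ)
    · rintro ⟨z, ⟨hA, hC, hQ⟩, rfl⟩
      exact ⟨hA, toP z.1, hC.isStandard, (hasQ_iff _ _).2 hQ⟩
  rw [h2]
  exact h1.analyticSet.image_of_continuous continuous_snd

theorem analytic_QMatHonest (S : Type) [Countable S] [DecidableEq S] :
    AnalyticSet (QMatHonest S) := by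
  let _ : MeasurableSpace (ZZ S) := borel _
  have _ : BorelSpace (ZZ S) := ⟨rfl⟩
  have h1 : MeasurableSet ({z : ZZ S | Admissible z.2} ∩ ({z : ZZ S | IsCode z.1} ∩
      ({z : ZZ S | ∀ i (n N : ℕ), ∃ F : Finset S, ∀ t : ℝ≥0, t ≤ N →
        1 - 1 / ((n : ℝ) + 1) ≤ ∑ j ∈ F, z.1 i j t} ∩
      {z : ZZ S | QCond z.1 z.2}))) :=
    (meas_adm S).inter ((meas_code S).inter ((meas_hon S).inter (meas_Q S)))
  have h2 : QMatHonest S = Prod.snd '' ({z : ZZ S | Admissible z.2} ∩ ({z : ZZ S | IsCode z.1} ∩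
      ({z : ZZ S | ∀ i (n N : ℕ), ∃ F : Finset S, ∀ t : ℝ≥0, t ≤ N →
        1 - 1 / ((n : ℝ) + 1) ≤ ∑ j ∈ F, z.1 i j t} ∩
      {z : ZZ S | QCond z.1 z.2}))) := by
    ext Q
    constructor
    · rintro ⟨hA, p, hp, hh, hQ⟩
      refine ⟨(codeOf p hp, Q), ⟨hA, codeOf_isCode p hp, codeOf_honest p hp hh, ?_⟩, rfl⟩
      exact (hasQ_iff _ _).1 (hasQ_codeOf p hp Q hQ)
    · rintro ⟨z, ⟨hA, hC, hH, hQ⟩, rfl⟩
      exact ⟨hA, toP z.1, hC.isStandard, hC.isHonest hH, (hasQ_iff _ _).2 hQ⟩
  rw [h2]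
  exact h1.analyticSet.image_of_continuous continuous_snd

end Pool.Agent.Work.MP_b687c6_pr
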