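import Pool.Agent.Work.MP_b687c6_pr.Defs2
import Pool.Agent.Work.MP_b687c6_pr.Anal

/-! Module DOOB: every standard semigroup has a derivative matrix at `0+` (Kolmogorov, Doob). -/

namespace Pool.Agent.Work.MP_b687c6_pr

open Filter Topology

variable {S : Type} [DecidableEq S] {p : S → S → ℝ → ℝ}

private theorem diag_mul (hp : IsStandard p) (i : S) {s t : ℝ} (hs : 0 ≤ s) (ht : 0 ≤ t) :
    p i i s * p i i t ≤ p i i (s + t) := by
  have h1 := split_row hp i i hs ht
  have h2 := offd_mul_nonneg hp i i hs ht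
  linarith

private theorem diag_pow (hp : IsStandard p) (i : S) {h : ℝ} (hh : 0 ≤ h) (n : ℕ) :
    p i i h ^ n ≤ p i i (n * h) := by
  induction n with
  | zero => simp [p_zero_self hp]
  | succ n ih =>
    rw [pow_succ]
    have h1 := diag_mul hp i (show (0 : ℝ) ≤ n * h by positivity) hh
    have h2 := mul_le_mul_of_nonneg_right ih (hp.nonneg i i h hh)
    have h3 : ((n + 1 : ℕ) : ℝ) * h = n * h + h := by push_cast; ring
    rw [h3]
    linarith

/-- all diagonal entries are positive for all times -/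
private theorem diag_pos (hp : IsStandard p) (i : S) {t : ℝ} (ht : 0 ≤ t) : 0 < p i i t := by
  obtain ⟨δ, hδ, h1⟩ := phi_small hp i (show (0 : ℝ) < 1 by norm_num)
  obtain ⟨n, hn⟩ := exists_nat_gt (t / δ)
  have hn0 : (0 : ℝ) < n := lt_of_le_of_lt (by positivity) hn
  have h2 : t / n < δ := by
    rw [div_lt_iff₀ hδ] at hn
    rw [div_lt_iff₀ hn0]
    linarith
  have h3 : 0 < p i i (t / n) := by
    have := h1 (t / n) (by positivity) h2
    linarith
  have h4 := diag_pow hp i (show 0 ≤ t / n by positivity) n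
  have h5 : (n : ℝ) * (t / n) = t := by field_simp
  rw [h5] at h4
  exact lt_of_lt_of_le (pow_pos h3 n) h4

/-- the subadditive function `- log p_ii` -/
private noncomputable def ff (p : S → S → ℝ → ℝ) (i : S) (t : ℝ) : ℝ := - Real.log (p i i t)

private theorem ff_nonneg (hp : IsStandard p) (i : S) {t : ℝ} (ht : 0 ≤ t) : 0 ≤ ff p i t := by
  unfold ff
  have := Real.log_nonpos (diag_pos hp i ht).le (anal_le_one hp i i ht)
  linarith

private theorem ff_add (hp : IsStandard p) (i : S) {s t : ℝ} (hs : 0 ≤ s) (ht : 0 ≤ t) :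
    ff p i (s + t) ≤ ff p i s + ff p i t := by
  unfold ff
  have h1 := Real.log_le_log (mul_pos (diag_pos hp i hs) (diag_pos hp i ht))
    (diag_mul hp i hs ht)
  rw [Real.log_mul (diag_pos hp i hs).ne' (diag_pos hp i ht).ne'] at h1
  linarith

private theorem ff_nsmul (hp : IsStandard p) (i : S) {h : ℝ} (hh : 0 ≤ h) (n : ℕ) :
    ff p i (n * h) ≤ n * ff p i h := by
  induction n with
  | zero => simp [ff, p_zero_self hp]
  | succ n ih =>
    have h1 := ff_add hp i (show (0 : ℝ) ≤ n * h by positivity) hh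
    have h3 : ((n + 1 : ℕ) : ℝ) * h = n * h + h := by push_cast; ring
    rw [h3]
    push_cast
    linarith

private theorem ff_small (hp : IsStandard p) (i : S) {ε : ℝ} (hε : 0 < ε) :
    ∃ δ : ℝ, 0 < δ ∧ ∀ h, 0 ≤ h → h < δ → ff p i h < ε := by
  have h1 : Tendsto (fun x : ℝ => - Real.log x) (𝓝 1) (𝓝 (- Real.log 1)) :=
    (Real.continuousAt_log one_ne_zero).tendsto.neg
  rw [Real.log_one, neg_zero] at h1
  have h2 := (tendsto_order.1 h1).2 ε hε
  rw [Metric.eventually_nhds_iff] at h2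
  obtain ⟨η, hη, h3⟩ := h2
  obtain ⟨δ, hδ, h4⟩ := phi_small hp i hη
  refine ⟨δ, hδ, fun h hh hlt => h3 ?_⟩
  rw [Real.dist_eq, abs_sub_comm, abs_of_nonneg]
  · exact h4 h hh hlt
  · have := anal_le_one hp i i hh
    linarith

/-- the limit of `f(t) / t` is the supremum -/
private theorem ff_lim (hp : IsStandard p) (i : S) : ∃ q : EReal, 0 ≤ q ∧
    Tendsto (fun t : ℝ => ((ff p i t / t : ℝ) : EReal)) (𝓝[>] 0) (𝓝 q) := by
  refine ⟨⨆ t : Set.Ioi (0 : ℝ), ((ff p i t / t : ℝ) : EReal), ?_, ?_⟩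
  · refine le_trans ?_ (le_iSup (fun t : Set.Ioi (0 : ℝ) => ((ff p i t / t : ℝ) : EReal))
      ⟨1, Set.mem_Ioi.2 one_pos⟩)
    have := ff_nonneg hp i (show (0 : ℝ) ≤ 1 by norm_num)
    rw [← EReal.coe_zero, EReal.coe_le_coe_iff]
    simpa using this
  · rw [tendsto_order]
    constructor
    · intro a ha
      obtain ⟨⟨t0, ht0⟩, h1⟩ := lt_iSup_iff.1 ha
      have ht0' : (0 : ℝ) < t0 := ht0
      obtain ⟨K, hK1, hK2⟩ := EReal.exists_rat_btwn_of_lt h1
      rw [EReal.coe_lt_coe_iff, lt_div_iff₀ ht0'] at hK2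
      -- `K t0 < f t0`
      obtain ⟨δ, hδ, h2⟩ := ff_small hp i (sub_pos.2 hK2)
      rw [(nhdsGT_basis (0 : ℝ)).eventually_iff]
      refine ⟨min δ t0, lt_min hδ ht0', fun h hh => lt_of_lt_of_le hK1 ?_⟩
      have hh0 : 0 < h := hh.1
      have hhδ : h < δ := lt_of_lt_of_le hh.2 (min_le_left _ _)
      rw [EReal.coe_le_coe_iff, le_div_iff₀ hh0]
      set n := ⌊t0 / h⌋₊ with hn
      have hn1 : (n : ℝ) * h ≤ t0 := by
        have := Nat.floor_le (div_nonneg ht0'.le hh0.le)
        rwa [← hn, le_div_iff₀ hh0] at this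
      have hn2 : t0 < (n + 1 : ℝ) * h := by
        have := Nat.lt_floor_add_one (t0 / h)
        rwa [← hn, div_lt_iff₀ hh0] at this
      have hr0 : 0 ≤ t0 - n * h := by linarith
      have h3 := ff_add hp i (show (0 : ℝ) ≤ n * h by positivity) hr0
      rw [add_sub_cancel] at h3
      have h4 := ff_nsmul hp i hh0.le n
      have h5 := h2 (t0 - n * h) hr0 (by linarith)
      -- `K t0 < n f h`
      have h6 : (K : ℝ) * t0 < n * ff p i h := by linarith
      have hf := ff_nonneg hp i hh0.le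
      rcases le_or_gt (K : ℝ) 0 with hK0 | hK0
      · exact (mul_nonpos_of_nonpos_of_nonneg hK0 hh0.le).trans hf
      · have h7 : (K : ℝ) * (n * h) < n * ff p i h :=
          lt_of_le_of_lt (mul_le_mul_of_nonneg_left hn1 hK0.le) h6
        have hn0 : (0 : ℝ) < n := by
          by_contra hcon
          have : (n : ℝ) = 0 := le_antisymm (not_lt.1 hcon) (Nat.cast_nonneg n)
          rw [this] at h7
          simp at h7
        have h8 : (n : ℝ) * (K * h) < n * ff p i h := by linarith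
        exact (lt_of_mul_lt_mul_left h8 hn0.le).le
    · intro a ha
      filter_upwards [self_mem_nhdsWithin] with t ht
      exact lt_of_le_of_lt (le_iSup (fun t : Set.Ioi (0 : ℝ) => ((ff p i t / t : ℝ) : EReal))
        ⟨t, ht⟩) ha

private theorem diag_lim (hp : IsStandard p) (i : S) : ∃ q : EReal, q ≤ 0 ∧
    Tendsto (fun t : ℝ => (((p i i t - 1) / t : ℝ) : EReal)) (𝓝[>] 0) (𝓝 q) := by
  obtain ⟨q, hq0, hq⟩ := ff_lim hp i
  have key : Tendsto (fun t : ℝ => (((1 - p i i t) / t : ℝ) : EReal)) (𝓝[>] 0) (𝓝 q) := by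
    rw [tendsto_order]
    constructor
    · intro a ha
      obtain ⟨K, hK1, hK2⟩ := EReal.exists_rat_btwn_of_lt ha
      obtain ⟨K', hK3, hK4⟩ := EReal.exists_rat_btwn_of_lt hK2
      have hKK : (K : ℝ) < K' := EReal.coe_lt_coe_iff.1 hK3
      have hlim := hp.standard i i
      rw [if_pos rfl] at hlim
      have h1 : Tendsto (fun t => p i i t * (K' : ℝ)) (𝓝[>] 0) (𝓝 (1 * (K' : ℝ))) :=
        hlim.mul_const _
      rw [one_mul] at h1
      filter_upwards [(tendsto_order.1 hq).1 _ hK4, (tendsto_order.1 h1).1 _ hKK,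
        self_mem_nhdsWithin] with t ht1 ht2 ht0
      have ht0' : (0 : ℝ) < t := ht0
      rw [EReal.coe_lt_coe_iff, lt_div_iff₀ ht0'] at ht1
      refine lt_of_lt_of_le hK1 ?_
      rw [EReal.coe_le_coe_iff, le_div_iff₀ ht0']
      have hpos := diag_pos hp i ht0'.le
      have h2 : p i i t * ff p i t ≤ 1 - p i i t := by
        unfold ff
        have h3 := Real.one_sub_inv_le_log_of_pos hpos
        have h4 := mul_le_mul_of_nonneg_left h3 hpos.le
        have h5 : p i i t * (1 - (p i i t)⁻¹) = p i i t - 1 := by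
          field_simp
        linarith
      have h3 : p i i t * (K' * t) ≤ p i i t * ff p i t :=
        mul_le_mul_of_nonneg_left ht1.le hpos.le
      have h4 : (K : ℝ) * t ≤ p i i t * K' * t := mul_le_mul_of_nonneg_right ht2.le ht0'.le
      linarith
    · intro a ha
      filter_upwards [(tendsto_order.1 hq).2 _ ha, self_mem_nhdsWithin] with t ht ht0
      have ht0' : (0 : ℝ) < t := ht0
      refine lt_of_le_of_lt ?_ ht
      rw [EReal.coe_le_coe_iff]
      apply div_le_div_of_nonneg_right _ ht0'.le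
      unfold ff
      have := Real.log_le_sub_one_of_pos (diag_pos hp i ht0'.le)
      linarith
  refine ⟨-q, ?_, ?_⟩
  · have := EReal.neg_le_neg_iff.2 hq0
    rwa [neg_zero] at this
  · refine ((continuous_neg.tendsto q).comp key).congr fun t => ?_
    rw [Function.comp, ← EReal.coe_neg]
    congr 1
    ring

/-! ### Off the diagonal -/

/-- taboo probabilities: at `k` at time `m h`, without a visit to `j` -/
private noncomputable def tab (p : S → S → ℝ → ℝ) (i j : S) (h : ℝ) : ℕ → S → ℝ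
  | 0, k => if k = i then 1 else 0
  | m + 1, k => if k = j then 0 else ∑' x, tab p i j h m x * p x k h

/-- first entrance to `j` at time `(m + 1) h` -/
private noncomputable def ent (p : S → S → ℝ → ℝ) (i j : S) (h : ℝ) (m : ℕ) : ℝ :=
  ∑' x, tab p i j h m x * p x j h

private theorem vec_mul {v : S → ℝ} (hp : IsStandard p) {h : ℝ} (hh : 0 ≤ h) (hv : ∀ x, 0 ≤ v x)
    (hs : Summable v) (k : S) : Summable fun x => v x * p x k h := by
  refine Summable.of_nonneg_of_le (fun x => mul_nonneg (hv x) (hp.nonneg x k h hh)) ?_ hs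
  intro x
  exact mul_le_of_le_one_right (hv x) (anal_le_one hp x k hh)

private theorem vec_row {v : S → ℝ} (hp : IsStandard p) {h : ℝ} (hh : 0 ≤ h) (hv : ∀ x, 0 ≤ v x)
    (hs : Summable v) (G : Finset S) : ∑ k ∈ G, ∑' x, v x * p x k h ≤ ∑' x, v x := by
  rw [← Summable.tsum_finsetSum (fun k _ => vec_mul hp hh hv hs k)]
  refine Summable.tsum_le_tsum (fun x => ?_) (summable_sum fun k _ => vec_mul hp hh hv hs k) hs
  rw [← Finset.mul_sum]
  exact mul_le_of_le_one_right (hv x) (anal_sum_le_one hp x hh G)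

private theorem tab_nonneg (hp : IsStandard p) (i j : S) {h : ℝ} (hh : 0 ≤ h) (m : ℕ) (k : S) :
    0 ≤ tab p i j h m k := by
  induction m generalizing k with
  | zero =>
    unfold tab
    split_ifs <;> norm_num
  | succ m ih =>
    unfold tab
    split_ifs
    · exact le_rfl
    · exact tsum_nonneg fun x => mul_nonneg (ih x) (hp.nonneg x k h hh)

private theorem tab_summable (hp : IsStandard p) (i j : S) {h : ℝ} (hh : 0 ≤ h) (m : ℕ) :
    Summable (tab p i j h m) := by
  induction m with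
  | zero =>
    have : tab p i j h 0 = fun k => if k = i then 1 else 0 := by
      funext k
      rfl
    rw [this]
    exact summable_of_ne_finset_zero (s := {i}) (by
      intro b hb
      rw [if_neg (by simpa using hb)])
  | succ m ih =>
    have h1 : Summable fun k => ∑' x, tab p i j h m x * p x k h :=
      summable_of_sum_le (fun k => tsum_nonneg fun x => mul_nonneg (tab_nonneg hp i j hh m x)
        (hp.nonneg x k h hh)) (vec_row hp hh (tab_nonneg hp i j hh m) ih)
    refine Summable.of_nonneg_of_le (tab_nonneg hp i j hh (m + 1)) (fun k => ?_) h1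
    change (if k = j then 0 else ∑' x, tab p i j h m x * p x k h) ≤ _
    split_ifs
    · exact tsum_nonneg fun x => mul_nonneg (tab_nonneg hp i j hh m x) (hp.nonneg x k h hh)
    · exact le_rfl

private theorem ent_nonneg (hp : IsStandard p) (i j : S) {h : ℝ} (hh : 0 ≤ h) (m : ℕ) :
    0 ≤ ent p i j h m :=
  tsum_nonneg fun x => mul_nonneg (tab_nonneg hp i j hh m x) (hp.nonneg x j h hh)

/-- first entrance decomposition -/
private theorem first_ent (hp : IsStandard p) (i j : S) {h : ℝ} (hh : 0 ≤ h) (m : ℕ) (k : S) :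
    p i k (m * h) = tab p i j h m k +
      ∑ l ∈ Finset.range m, ent p i j h l * p j k (((m - 1 - l : ℕ) : ℝ) * h) := by
  induction m generalizing k with
  | zero =>
    simp only [Nat.cast_zero, zero_mul, Finset.range_zero, Finset.sum_empty, add_zero]
    change _ = if k = i then (1 : ℝ) else 0
    split_ifs with hk
    · rw [hk]
      exact p_zero_self hp i
    · exact p_zero_ne hp (Ne.symm hk)
  | succ m ih =>
    have h0 : ((m + 1 : ℕ) : ℝ) * h = m * h + h := by push_cast; ring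
    have hm0 : (0 : ℝ) ≤ m * h := by positivity
    have hs1 := vec_mul hp hh (tab_nonneg hp i j hh m) (tab_summable hp i j hh m) k
    have hs2 : ∀ l ∈ Finset.range m, Summable fun x =>
        ent p i j h l * (p j x (((m - 1 - l : ℕ) : ℝ) * h) * p x k h) := by
      intro l _
      exact (mul_summable hp j (by positivity) k hh).mul_left _
    rw [h0, hp.ck i k _ _ hm0 hh]
    have h1 : ∀ x, p i x (m * h) * p x k h = tab p i j h m x * p x k h +
        ∑ l ∈ Finset.range m, ent p i j h l * (p j x (((m - 1 - l : ℕ) : ℝ) * h) * p x k h) := by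
      intro x
      rw [ih x, add_mul, Finset.sum_mul]
      congr 1
      refine Finset.sum_congr rfl fun l _ => ?_
      ring
    rw [tsum_congr h1, hs1.tsum_add (summable_sum hs2), Summable.tsum_finsetSum hs2,
      Finset.sum_range_succ]
    have h2 : ∑ l ∈ Finset.range m, ∑' x,
        ent p i j h l * (p j x (((m - 1 - l : ℕ) : ℝ) * h) * p x k h) =
        ∑ l ∈ Finset.range m, ent p i j h l * p j k (((m + 1 - 1 - l : ℕ) : ℝ) * h) := by
      refine Finset.sum_congr rfl fun l hl => ?_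
      rw [Finset.mem_range] at hl
      rw [tsum_mul_left, ← hp.ck j k _ _ (by positivity) hh]
      congr 2
      have h3 : m + 1 - 1 - l = (m - 1 - l) + 1 := by omega
      rw [h3]
      push_cast
      ring
    have h3 : ∑' x, tab p i j h m x * p x k h = tab p i j h (m + 1) k +
        ent p i j h m * p j k (((m + 1 - 1 - m : ℕ) : ℝ) * h) := by
      have h4 : m + 1 - 1 - m = 0 := by omega
      rw [h4, Nat.cast_zero, zero_mul]
      by_cases hk : k = j
      · rw [hk, p_zero_self hp]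
        have h5 : tab p i j h (m + 1) j = 0 := by
          change (if j = j then (0 : ℝ) else _) = 0
          rw [if_pos rfl]
        rw [h5, zero_add, mul_one]
        rfl
      · rw [p_zero_ne hp (Ne.symm hk), mul_zero, add_zero]
        change _ = if k = j then (0 : ℝ) else ∑' x, tab p i j h m x * p x k h
        rw [if_neg hk]
    rw [h2, h3]
    ring

private theorem tab_j (i j : S) (hij : i ≠ j) (h : ℝ) (m : ℕ) : tab p i j h m j = 0 := by
  cases m with
  | zero =>
    change (if j = i then (1 : ℝ) else 0) = 0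
    rw [if_neg (Ne.symm hij)]
  | succ m =>
    change (if j = j then (0 : ℝ) else _) = 0
    rw [if_pos rfl]

/-- the basic inequality of Kolmogorov -/
private theorem kolm (hp : IsStandard p) (i j : S) (hij : i ≠ j) {ε t0 : ℝ} (hε0 : 0 < ε)
    (hε : ε < 1 / 3) (hi : ∀ t, 0 ≤ t → t ≤ t0 → 1 - p i i t < ε)
    (hj : ∀ t, 0 ≤ t → t ≤ t0 → 1 - p j j t < ε) {h : ℝ} (hh : 0 ≤ h) (n : ℕ)
    (hn : n * h ≤ t0) : n * ((1 - 3 * ε) * (1 - ε)) * p i j h ≤ p i j (n * h) := by
  have hle : ∀ m : ℕ, m ≤ n → (m : ℝ) * h ≤ t0 := by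
    intro m hm
    refine le_trans ?_ hn
    exact mul_le_mul_of_nonneg_right (by exact_mod_cast hm) hh
  have h1 : ∀ m : ℕ, m ≤ n → (1 - ε) * ∑ l ∈ Finset.range m, ent p i j h l ≤ p i j (m * h) := by
    intro m hm
    rw [first_ent hp i j hh m j, tab_j i j hij, zero_add, Finset.mul_sum]
    refine Finset.sum_le_sum fun l _ => ?_
    rw [mul_comm]
    refine mul_le_mul_of_nonneg_left ?_ (ent_nonneg hp i j hh l)
    have := hj (((m - 1 - l : ℕ) : ℝ) * h) (by positivity) (hle _ (by omega))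
    linarith
  have h2 : ∀ m : ℕ, m ≤ n → ∑ l ∈ Finset.range m, ent p i j h l ≤ 2 * ε := by
    intro m hm
    have h3 := h1 m hm
    have h4 := anal_sum_le_one hp i (show (0 : ℝ) ≤ m * h by positivity) {i, j}
    rw [Finset.sum_pair hij] at h4
    have h5 := hi (m * h) (by positivity) (hle m hm)
    have h6 : 0 ≤ ∑ l ∈ Finset.range m, ent p i j h l :=
      Finset.sum_nonneg fun l _ => ent_nonneg hp i j hh l
    nlinarith
  have h3 : ∀ m : ℕ, m ≤ n → 1 - 3 * ε ≤ tab p i j h m i := by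
    intro m hm
    have h4 := first_ent hp i j hh m i
    have h5 : ∑ l ∈ Finset.range m, ent p i j h l * p j i (((m - 1 - l : ℕ) : ℝ) * h) ≤
        ∑ l ∈ Finset.range m, ent p i j h l := by
      refine Finset.sum_le_sum fun l _ => ?_
      exact mul_le_of_le_one_right (ent_nonneg hp i j hh l)
        (anal_le_one hp j i (by positivity))
    have h6 := h2 m hm
    have h7 := hi (m * h) (by positivity) (hle m hm)
    linarith
  have h4 : ∀ m : ℕ, m ≤ n → (1 - 3 * ε) * p i j h ≤ ent p i j h m := by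
    intro m hm
    have h5 : tab p i j h m i * p i j h ≤ ent p i j h m :=
      (vec_mul hp hh (tab_nonneg hp i j hh m) (tab_summable hp i j hh m) j).le_tsum i
        (fun x _ => mul_nonneg (tab_nonneg hp i j hh m x) (hp.nonneg x j h hh))
    have h6 := mul_le_mul_of_nonneg_right (h3 m hm) (hp.nonneg i j h hh)
    linarith
  have h5 : (n : ℝ) * ((1 - 3 * ε) * p i j h) ≤ ∑ l ∈ Finset.range n, ent p i j h l := by
    have h6 := Finset.sum_le_sum (s := Finset.range n) (f := fun _ => (1 - 3 * ε) * p i j h)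
      (g := fun l => ent p i j h l) (fun l hl => h4 l (Finset.mem_range.1 hl).le)
    rwa [Finset.sum_const, Finset.card_range, nsmul_eq_mul] at h6
  have h6 := h1 n le_rfl
  have h7 := mul_le_mul_of_nonneg_left h5 (show 0 ≤ 1 - ε by linarith)
  linarith

private theorem off_step (hp : IsStandard p) (i j : S) (hij : i ≠ j) {ε t0 : ℝ} (hε0 : 0 < ε)
    (hε : ε < 1 / 3) (hi : ∀ t, 0 ≤ t → t ≤ t0 → 1 - p i i t < ε)
    (hj : ∀ t, 0 ≤ t → t ≤ t0 → 1 - p j j t < ε) (t : ℝ) (ht0 : 0 < t) (ht : t ≤ t0) (a : ℝ)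
    (ha : p i j t < a * (t * ((1 - 3 * ε) * (1 - ε)))) :
    ∀ᶠ h in 𝓝[>] (0 : ℝ), p i j h < a * h := by
  set c := (1 - 3 * ε) * (1 - ε) with hc
  have hc0 : 0 < c := mul_pos (by linarith) (by linarith)
  have ha0 : 0 < a := by
    have h1 := hp.nonneg i j t ht0.le
    have h2 : 0 < a * (t * c) := lt_of_le_of_lt h1 ha
    exact pos_of_mul_pos_left h2 (mul_pos ht0 hc0).le
  set η := (a * (t * c) - p i j t) / 4 with hη
  have hη0 : 0 < η := by
    rw [hη]
    linarith
  obtain ⟨δ, hδ, h1⟩ := phi_small hp i hη0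
  rw [(nhdsGT_basis (0 : ℝ)).eventually_iff]
  refine ⟨min (min δ t) (2 * η / (a * c)), lt_min (lt_min hδ ht0) (by positivity), ?_⟩
  intro h hh
  have hh0 : 0 < h := hh.1
  have hhδ : h < δ := lt_of_lt_of_le hh.2 ((min_le_left _ _).trans (min_le_left _ _))
  have hht : h < t := lt_of_lt_of_le hh.2 ((min_le_left _ _).trans (min_le_right _ _))
  have hhη : h < 2 * η / (a * c) := lt_of_lt_of_le hh.2 (min_le_right _ _)
  rw [lt_div_iff₀ (by positivity)] at hhη
  set n := ⌊t / h⌋₊ with hn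
  have hn1 : (n : ℝ) * h ≤ t := by
    have := Nat.floor_le (div_nonneg ht0.le hh0.le)
    rwa [← hn, le_div_iff₀ hh0] at this
  have hn2 : t < (n + 1 : ℝ) * h := by
    have := Nat.lt_floor_add_one (t / h)
    rwa [← hn, div_lt_iff₀ hh0] at this
  have h2 := kolm hp i j hij hε0 hε hi hj hh0.le n (hn1.trans ht)
  rw [← hc] at h2
  have hr0 : 0 ≤ t - n * h := by linarith
  have h3 := row_l1 hp i hr0 (show (0 : ℝ) ≤ n * h by positivity) {j}
  rw [sub_add_cancel, Finset.sum_singleton] at h3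
  have h4 := h1 (t - n * h) hr0 (by linarith)
  have h5 : p i j (n * h) ≤ p i j t + 2 * η := by
    have := (abs_le.1 h3).1
    linarith
  have hn0 : (0 : ℝ) < n := by
    by_contra hcon
    have : (n : ℝ) = 0 := le_antisymm (not_lt.1 hcon) (Nat.cast_nonneg n)
    rw [this] at hn2
    linarith
  have h6 : p i j t + 2 * η < a * c * (n * h) := by
    have h7 : a * c * (t - h) < a * c * (n * h) :=
      mul_lt_mul_of_pos_left (by linarith) (by positivity)
    have h8 : a * c * t = p i j t + 4 * η := by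
      rw [hη]
      ring
    linarith
  have h7 : (n * c) * p i j h < (n * c) * (a * h) := by
    have h8 : a * c * (n * h) = (n * c) * (a * h) := by ring
    linarith
  exact lt_of_mul_lt_mul_left h7 (by positivity)

private theorem small_both (hp : IsStandard p) (i j : S) {ε : ℝ} (hε : 0 < ε) :
    ∃ t0 : ℝ, 0 < t0 ∧ (∀ t, 0 ≤ t → t ≤ t0 → 1 - p i i t < ε) ∧
      ∀ t, 0 ≤ t → t ≤ t0 → 1 - p j j t < ε := by
  obtain ⟨δ1, hδ1, h1⟩ := phi_small hp i hε
  obtain ⟨δ2, hδ2, h2⟩ := phi_small hp j hε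
  refine ⟨min δ1 δ2 / 2, half_pos (lt_min hδ1 hδ2), fun t h3 h4 => ?_, fun t h3 h4 => ?_⟩
  · apply h1 t h3
    have := min_le_left δ1 δ2
    linarith
  · apply h2 t h3
    have := min_le_right δ1 δ2
    linarith

private theorem off_lim (hp : IsStandard p) (i j : S) (hij : i ≠ j) : ∃ L : ℝ, 0 ≤ L ∧
    Tendsto (fun t : ℝ => p i j t / t) (𝓝[>] 0) (𝓝 L) := by
  have hg0 : ∀ᶠ t in 𝓝[>] (0 : ℝ), 0 ≤ p i j t / t := by
    filter_upwards [self_mem_nhdsWithin] with t ht
    have ht' : (0 : ℝ) < t := ht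
    exact div_nonneg (hp.nonneg i j t ht'.le) ht'.le
  -- boundedness
  have hB : ∃ B : ℝ, ∀ᶠ t in 𝓝[>] (0 : ℝ), p i j t / t < B := by
    obtain ⟨t0, ht0, h1, h2⟩ := small_both hp i j (show (0 : ℝ) < 1 / 4 by norm_num)
    refine ⟨(p i j t0 + 1) / (t0 * ((1 - 3 * (1 / 4)) * (1 - 1 / 4))), ?_⟩
    have hpos : (0 : ℝ) < t0 * ((1 - 3 * (1 / 4)) * (1 - 1 / 4)) := by
      apply mul_pos ht0
      norm_num
    have h3 := off_step hp i j hij (by norm_num) (by norm_num) h1 h2 t0 ht0 le_rfl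
      ((p i j t0 + 1) / (t0 * ((1 - 3 * (1 / 4)) * (1 - 1 / 4)))) (by
        rw [div_mul_cancel₀ _ hpos.ne']
        linarith)
    filter_upwards [h3, self_mem_nhdsWithin] with t ht ht'
    have ht'' : (0 : ℝ) < t := ht'
    rwa [div_lt_iff₀ ht'']
  obtain ⟨B, hB⟩ := hB
  set A : Set ℝ := {a | ∀ᶠ t in 𝓝[>] (0 : ℝ), a ≤ p i j t / t} with hA
  have hA0 : (0 : ℝ) ∈ A := hg0
  have hAB : BddAbove A := by
    refine ⟨B, fun a ha => ?_⟩
    have ha' : ∀ᶠ t in 𝓝[>] (0 : ℝ), a ≤ p i j t / t := ha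
    obtain ⟨t, h1, h2⟩ := (ha'.and hB).exists
    exact h1.trans h2.le
  refine ⟨sSup A, le_csSup hAB hA0, ?_⟩
  have hL0 : 0 ≤ sSup A := le_csSup hAB hA0
  rw [tendsto_order]
  constructor
  · intro a ha
    obtain ⟨b, hb, hab⟩ := exists_lt_of_lt_csSup ⟨0, hA0⟩ ha
    filter_upwards [hb] with t ht
    exact lt_of_lt_of_le hab ht
  · intro a ha
    -- choose `ε` with `L < a c`
    have h1 : ∃ ε : ℝ, 0 < ε ∧ ε < 1 / 3 ∧ sSup A < a * ((1 - 3 * ε) * (1 - ε)) := by
      have h2 : Tendsto (fun ε : ℝ => a * ((1 - 3 * ε) * (1 - ε))) (𝓝[>] 0)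
          (𝓝 (a * ((1 - 3 * 0) * (1 - 0)))) := by
        apply Tendsto.mono_left _ nhdsWithin_le_nhds
        exact (by fun_prop : Continuous fun ε : ℝ => a * ((1 - 3 * ε) * (1 - ε))).tendsto 0
      have h3 : a * ((1 - 3 * 0) * (1 - 0)) = a := by ring
      rw [h3] at h2
      have h4 : ∀ᶠ ε in 𝓝[>] (0 : ℝ), ε < 1 / 3 := by
        filter_upwards [Ioo_mem_nhdsGT (show (0 : ℝ) < 1 / 3 by norm_num)] with ε hε
        exact hε.2
      obtain ⟨ε, h5, h6, h7⟩ := (((tendsto_order.1 h2).1 _ ha).and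
        (h4.and self_mem_nhdsWithin)).exists
      exact ⟨ε, h7, h6, h5⟩
    obtain ⟨ε, hε0, hε, h2⟩ := h1
    set c := (1 - 3 * ε) * (1 - ε) with hc
    obtain ⟨t0, ht0, h3, h4⟩ := small_both hp i j hε0
    have h5 : a * c ∉ A := fun hcon => (not_lt.2 (le_csSup hAB hcon)) h2
    have h6 : ∃ᶠ t in 𝓝[>] (0 : ℝ), ¬ a * c ≤ p i j t / t :=
      Filter.not_eventually.1 h5
    obtain ⟨t, h7, h8⟩ := (h6.and_eventually (Ioo_mem_nhdsGT ht0)).exists
    rw [not_le, div_lt_iff₀ h8.1] at h7
    have h9 := off_step hp i j hij hε0 hε h3 h4 t h8.1 h8.2.le a (by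
      rw [← hc]
      linarith)
    filter_upwards [h9, self_mem_nhdsWithin] with t ht ht'
    have ht'' : (0 : ℝ) < t := ht'
    rwa [div_lt_iff₀ ht'']

theorem exists_hasQ {S : Type} [DecidableEq S] [Countable S] (p : S → S → ℝ → ℝ)
    (hp : IsStandard p) : ∃ Q : S → S → EReal, Admissible Q ∧ HasQ p Q := by
  have h : ∀ i j : S, ∃ q : EReal, (i = j → q ≤ 0) ∧ (i ≠ j → 0 ≤ q ∧ q < ⊤) ∧
      Tendsto (fun t : ℝ => (((p i j t - if i = j then 1 else 0) / t : ℝ) : EReal))
        (𝓝[>] 0) (𝓝 q) := by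
    intro i j
    by_cases hij : i = j
    · subst hij
      obtain ⟨q, hq, h⟩ := diag_lim hp i
      refine ⟨q, fun _ => hq, fun h => absurd rfl h, ?_⟩
      simpa using h
    · obtain ⟨L, hL, h⟩ := off_lim hp i j hij
      refine ⟨(L : EReal), fun h => absurd h hij, fun _ => ⟨?_, EReal.coe_lt_top L⟩, ?_⟩
      · exact_mod_cast hL
      · simp only [if_neg hij, sub_zero]
        exact (continuous_coe_real_ereal.tendsto _).comp h
  choose Q h1 h2 h3 using h
  exact ⟨Q, fun i => ⟨h1 i i rfl, fun j hj => h2 i j (Ne.symm hj)⟩, h3⟩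

end Pool.Agent.Work.MP_b687c6_pr
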