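import Pool.Agent.Work.MP_b687c6_pr.Defs

/-! Module IMPOSS: if the tree has no infinite branch then its matrix is not a Q-matrix. -/

namespace Pool.Agent.Work.MP_b687c6_pr

open Filter Topology

section ImpGen

variable {S : Type*} [DecidableEq S] {p : S → S → ℝ → ℝ}

theorem imp_le_one (hp : IsStandard p) (i j : S) {t : ℝ} (ht : 0 ≤ t) : p i j t ≤ 1 :=
  ((hp.summable i t ht).le_tsum j (fun k _ => hp.nonneg i k t ht)).trans (hp.mass i t ht)

theorem imp_summable (hp : IsStandard p) (i j : S) {h v : ℝ} (hh : 0 ≤ h) (hv : 0 ≤ v) :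
    Summable fun k => p i k h * p k j v := by
  refine Summable.of_nonneg_of_le (fun k => mul_nonneg (hp.nonneg i k h hh) (hp.nonneg k j v hv))
    (fun k => ?_) (hp.summable i h hh)
  exact mul_le_of_le_one_right (hp.nonneg i k h hh) (imp_le_one hp k j hv)

theorem imp_lower (hp : IsStandard p) (i l j : S) {h v : ℝ} (hh : 0 ≤ h) (hv : 0 ≤ v) :
    p i l h * p l j v ≤ p i j (h + v) := by
  rw [hp.ck i j h v hh hv]
  exact (imp_summable hp i j hh hv).le_tsum l
    (fun k _ => mul_nonneg (hp.nonneg i k h hh) (hp.nonneg k j v hv))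

theorem imp_upper (hp : IsStandard p) (F : Finset S) (i j : S) {h v : ℝ} (hh : 0 ≤ h)
    (hv : 0 ≤ v) :
    p i j (h + v) ≤ ∑ l ∈ F, p i l h * p l j v + (1 - ∑ l ∈ F, p i l h) := by
  rw [hp.ck i j h v hh hv]
  have h1 := imp_summable hp i j hh hv
  have h2 := hp.summable i h hh
  have h3 : ∑ l ∈ F, (p i l h - p i l h * p l j v) ≤ ∑' l, (p i l h - p i l h * p l j v) := by
    refine (h2.sub h1).sum_le_tsum F (fun k _ => ?_)
    rw [sub_nonneg]
    exact mul_le_of_le_one_right (hp.nonneg i k h hh) (imp_le_one hp k j hv)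
  rw [h2.tsum_sub h1, Finset.sum_sub_distrib] at h3
  have h4 := hp.mass i h hh
  linarith

theorem imp_sum_le_one (hp : IsStandard p) (F : Finset S) (i : S) {h : ℝ} (hh : 0 ≤ h) :
    ∑ l ∈ F, p i l h ≤ 1 :=
  ((hp.summable i h hh).sum_le_tsum F (fun k _ => hp.nonneg i k h hh)).trans (hp.mass i h hh)

theorem imp_zero (hp : IsStandard p) (i j : S) : p i j 0 = if i = j then 1 else 0 := by
  have h1 : Tendsto (p i i) (𝓝[>] 0) (𝓝 1) := by simpa using hp.standard i i
  have h2 : Tendsto (fun t => p i i t * p i j 0) (𝓝[>] 0) (𝓝 (p i j 0)) := by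
    simpa using h1.mul_const (p i j 0)
  have h3 : Tendsto (fun t => p i i t * p i j 0 + (1 - p i i t)) (𝓝[>] 0) (𝓝 (p i j 0)) := by
    simpa using h2.add (h1.const_sub 1)
  have h4 : Tendsto (p i j) (𝓝[>] 0) (𝓝 (p i j 0)) := by
    refine tendsto_of_tendsto_of_tendsto_of_le_of_le' h2 h3 ?_ ?_
    · filter_upwards [self_mem_nhdsWithin] with t ht
      have h5 := imp_lower hp i i j (le_of_lt ht) le_rfl (v := 0)
      simpa using h5
    · filter_upwards [self_mem_nhdsWithin] with t ht
      have h5 := imp_upper hp {i} i j (le_of_lt ht) le_rfl (v := 0)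
      simpa using h5
  exact tendsto_nhds_unique h4 (hp.standard i j)

theorem imp_eps {f : ℝ → ℝ} {c : ℝ} (h : Tendsto f (𝓝[>] 0) (𝓝 c)) {e : ℝ} (he : 0 < e) :
    ∃ d > 0, ∀ t, 0 < t → t < d → |f t - c| < e := by
  have h1 := (Metric.tendsto_nhds.1 h) e he
  rw [eventually_nhdsWithin_iff, Metric.eventually_nhds_iff] at h1
  obtain ⟨d, hd, h2⟩ := h1
  refine ⟨d, hd, fun t ht htd => ?_⟩
  have h3 := h2 (y := t) (by rw [Real.dist_eq, sub_zero, abs_of_pos ht]; exact htd) ht
  rwa [Real.dist_eq] at h3

theorem imp_diag {Q : S → S → EReal} (hQ : HasQ p Q) (i : S) {c : ℝ}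
    (hc : Q i i = (c : EReal)) : Tendsto (fun t => (p i i t - 1) / t) (𝓝[>] 0) (𝓝 c) := by
  have h := hQ i i
  rw [hc] at h
  simp only [if_true] at h
  exact EReal.tendsto_coe.1 h

theorem imp_off {Q : S → S → EReal} (hQ : HasQ p Q) {i j : S} (hij : i ≠ j)
    {c : ℝ} (hc : Q i j = (c : EReal)) : Tendsto (fun t => p i j t / t) (𝓝[>] 0) (𝓝 c) := by
  have h := hQ i j
  rw [hc] at h
  simp only [if_neg hij, sub_zero] at h
  exact EReal.tendsto_coe.1 h

/-- Absorbing states. -/
theorem imp_absorb (hp : IsStandard p) {Q : S → S → EReal} (hQ : HasQ p Q) {i : S}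
    (hi : Q i i = 0) {t : ℝ} (ht : 0 ≤ t) : p i i t = 1 := by
  have h0 : Q i i = ((0 : ℝ) : EReal) := by rw [hi]; rfl
  have h1 := imp_diag hQ i h0
  refine le_antisymm (imp_le_one hp i i ht) ?_
  rcases ht.eq_or_lt with rfl | htpos
  · rw [imp_zero hp]; simp
  refine le_of_forall_pos_le_add fun e he => ?_
  obtain ⟨d, hd, h2⟩ := imp_eps h1 (e := e / t) (by positivity)
  obtain ⟨n, hn⟩ := exists_nat_gt (t / d)
  have hn0 : (0 : ℝ) < n := lt_trans (by positivity) hn
  have hs0 : 0 < t / n := by positivity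
  have hsd : t / n < d := by
    rw [div_lt_iff₀ hn0]
    rw [div_lt_iff₀ hd] at hn
    linarith
  have h3 := h2 (t / n) hs0 hsd
  rw [sub_zero, abs_lt] at h3
  have h4 : 1 + -(e / n) ≤ p i i (t / n) := by
    have h5 := h3.1.le
    rw [le_div_iff₀ hs0] at h5
    have h6 : -(e / t) * (t / n) = -(e / n) := by field_simp
    linarith
  have hpow : ∀ m : ℕ, p i i (t / n) ^ m ≤ p i i (m * (t / n)) := by
    intro m
    induction m with
    | zero => simp [imp_zero hp]
    | succ m ih =>
      have h7 := imp_lower hp i i i (h := m * (t / n)) (v := t / n) (by positivity) hs0.le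
      have h8 : ((m + 1 : ℕ) : ℝ) * (t / n) = m * (t / n) + t / n := by push_cast; ring
      rw [h8, pow_succ]
      exact (mul_le_mul_of_nonneg_right ih (hp.nonneg i i _ hs0.le)).trans h7
  have h9 := hpow n
  have h10 : (n : ℝ) * (t / n) = t := by field_simp
  rw [h10] at h9
  by_cases hle : (1 : ℝ) ≤ e
  · have h12 := hp.nonneg i i t htpos.le
    linarith
  · have hle' : e < 1 := not_le.1 hle
    have hn1 : (1 : ℝ) ≤ n := by
      have : 0 < n := by exact_mod_cast hn0
      exact_mod_cast this
    have h13 : e / n ≤ 1 := by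
      rw [div_le_one hn0]; linarith
    have h11 : (1 : ℝ) + n * (-(e / n)) ≤ (1 + -(e / n)) ^ n :=
      one_add_mul_le_pow (by linarith) n
    have h14 : (1 + -(e / n)) ^ n ≤ p i i (t / n) ^ n :=
      pow_le_pow_left₀ (by linarith) h4 n
    have h15 : (n : ℝ) * (-(e / n)) = -e := by field_simp
    linarith

theorem imp_pass (hp : IsStandard p) {Q : S → S → EReal} (hQ : HasQ p Q) {k a j : S}
    (hka : k ≠ a) (hkj : k ≠ j) {c : ℝ} (h1 : Q k k = ((-c : ℝ) : EReal))
    (h2 : Q k a = (c : EReal)) {u M : ℝ} (hM : 0 ≤ M)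
    (hb : ∀ v, 0 ≤ v → v ≤ u → p a j v ≤ M) : ∀ v, 0 ≤ v → v ≤ u → p k j v ≤ M := by
  intro v hv hvu
  rcases hv.eq_or_lt with rfl | hvpos
  · rw [imp_zero hp, if_neg hkj]; exact hM
  have hd := imp_diag hQ k h1
  have ho := imp_off hQ hka h2
  have he : Tendsto (fun h => (1 - p k k h - p k a h) / h) (𝓝[>] 0) (𝓝 0) := by
    have h3 := (hd.neg).sub ho
    rw [neg_neg, sub_self] at h3
    refine h3.congr fun h => ?_
    ring
  have he0 : ∀ h, 0 ≤ h → 0 ≤ 1 - p k k h - p k a h := by
    intro h hh
    have h4 := imp_sum_le_one hp {k, a} k hh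
    rw [Finset.sum_pair hka] at h4
    linarith
  have key : ∀ h, 0 ≤ h → ∀ m : ℕ, m * h ≤ u →
      p k j (m * h) ≤ M + m * (1 - p k k h - p k a h) := by
    intro h hh m
    induction m with
    | zero => intro _; simp [imp_zero hp, hkj, hM]
    | succ m ih =>
      intro hm
      have hm' : ((m + 1 : ℕ) : ℝ) * h = h + m * h := by push_cast; ring
      rw [hm'] at hm ⊢
      have hmh : 0 ≤ m * h := by positivity
      have h5 := imp_upper hp {k, a} k j hh hmh
      rw [Finset.sum_pair hka, Finset.sum_pair hka] at h5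
      have h6 := ih (by linarith)
      have h7 := hb (m * h) hmh (by linarith)
      have h8 := hp.nonneg k k h hh
      have h9 := hp.nonneg k a h hh
      have h10 := imp_le_one hp k k hh
      have h11 := he0 h hh
      have h12 : p k k h * p k j (m * h) ≤ p k k h * (M + m * (1 - p k k h - p k a h)) :=
        mul_le_mul_of_nonneg_left h6 h8
      have h13 : p k a h * p a j (m * h) ≤ p k a h * M := mul_le_mul_of_nonneg_left h7 h9
      have h14 : p k k h * (m * (1 - p k k h - p k a h)) ≤ m * (1 - p k k h - p k a h) :=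
        mul_le_of_le_one_left (by positivity) h10
      have h15 : (p k k h + p k a h) * M ≤ M := mul_le_of_le_one_left hM (by linarith)
      push_cast
      nlinarith
  refine le_of_forall_pos_le_add fun e hepos => ?_
  obtain ⟨d, hdpos, h16⟩ := imp_eps he (e := e / v) (by positivity)
  obtain ⟨n, hn⟩ := exists_nat_gt (v / d)
  have hn0 : (0 : ℝ) < n := lt_trans (by positivity) hn
  have hs0 : 0 < v / n := by positivity
  have hsd : v / n < d := by
    rw [div_lt_iff₀ hn0]
    rw [div_lt_iff₀ hdpos] at hn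
    linarith
  have h17 := h16 (v / n) hs0 hsd
  rw [sub_zero] at h17
  have h18 := (abs_lt.1 h17).2.le
  rw [div_le_iff₀ hs0] at h18
  have h19 := key (v / n) hs0.le n (by
    have : (n : ℝ) * (v / n) = v := by field_simp
    linarith)
  have h20 : (n : ℝ) * (v / n) = v := by field_simp
  rw [h20] at h19
  have h21 : (n : ℝ) * (1 - p k k (v / n) - p k a (v / n)) ≤ n * (e / v * (v / n)) :=
    mul_le_mul_of_nonneg_left h18 hn0.le
  have h22 : (n : ℝ) * (e / v * (v / n)) = e := by field_simp
  linarith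

end ImpGen

section ImpTree

theorem nxt_ne (k : ℕ × List ℕ) : nxt k ≠ some k := by
  obtain ⟨n, l⟩ := k
  cases l with
  | nil => simp [nxt]
  | cons x s =>
    intro h
    simp [nxt] at h

theorem treeQ_alive_diag {T : Set (List ℕ)} {k : ℕ × List ℕ} (hk : k.2 ∈ T) :
    treeQ T (some k) (some k) = ((-rate k : ℝ) : EReal) := by
  simp [treeQ, hk]

theorem treeQ_alive_nxt {T : Set (List ℕ)} {k : ℕ × List ℕ} (hk : k.2 ∈ T) :
    treeQ T (some k) (nxt k) = ((rate k : ℝ) : EReal) := by
  simp [treeQ, hk, nxt_ne]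

theorem treeQ_dead {T : Set (List ℕ)} {k : ℕ × List ℕ} (hk : k.2 ∉ T) (j : St) :
    treeQ T (some k) j = 0 := by
  simp [treeQ, hk]

/-- `k` leads to `s`: there is a path of at least one jump through alive nodes. -/
inductive Leads (T : Set (List ℕ)) (s : ℕ × List ℕ) : ℕ × List ℕ → Prop
  | one (n x : ℕ) (l : List ℕ) : x :: l ∈ T → s = (n, l) → Leads T s (n, x :: l)
  | step (n x : ℕ) (l : List ℕ) : x :: l ∈ T → Leads T s (n, l) → Leads T s (n, x :: l)

theorem imp_node {T : Set (List ℕ)} {p : St → St → ℝ → ℝ} (hp : IsStandard p)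
    (hQ : HasQ p (treeQ T)) {s : ℕ × List ℕ} {u M : ℝ} (hM : 0 ≤ M)
    (hb : ∀ v, 0 ≤ v → v ≤ u → p none (some s) v ≤ M) (n : ℕ) (l : List ℕ)
    (hnl : ¬ Leads T s (n, l)) (hks : (n, l) ≠ s) :
    ∀ v, 0 ≤ v → v ≤ u → p (some (n, l)) (some s) v ≤ M := by
  have hdead : ∀ l : List ℕ, l ∉ T → (n, l) ≠ s → ∀ v, 0 ≤ v → v ≤ u →
      p (some (n, l)) (some s) v ≤ M := by
    intro l hl hks v hv _
    have h1 := imp_absorb hp hQ (treeQ_dead (k := (n, l)) hl (some (n, l))) hv
    have hne : (some (n, l) : St) ≠ some s := fun h => hks (Option.some.inj h)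
    have h2 := imp_sum_le_one hp {some (n, l), some s} (some (n, l)) hv
    rw [Finset.sum_pair hne] at h2
    linarith
  induction l with
  | nil =>
    by_cases hl : [] ∈ T
    · have hne : (some (n, []) : St) ≠ some s := fun h => hks (Option.some.inj h)
      exact imp_pass hp hQ (k := some (n, [])) (a := none) (by simp) hne
        (treeQ_alive_diag (k := (n, [])) hl) (treeQ_alive_nxt (k := (n, [])) hl) hM hb
    · exact hdead [] hl hks
  | cons x l ih =>
    by_cases hl : x :: l ∈ T
    · have hne : (some (n, x :: l) : St) ≠ some s := fun h => hks (Option.some.inj h)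
      have h1 : (n, l) ≠ s := fun h => hnl (Leads.one n x l hl h.symm)
      have h2 : ¬ Leads T s (n, l) := fun h => hnl (Leads.step n x l hl h)
      exact imp_pass hp hQ (k := some (n, x :: l)) (a := some (n, l))
        (nxt_ne (n, x :: l)).symm hne
        (treeQ_alive_diag (k := (n, x :: l)) hl) (treeQ_alive_nxt (k := (n, x :: l)) hl) hM
        (ih h2 h1)
    · exact hdead _ hl hks

theorem imp_step {T : Set (List ℕ)} {p : St → St → ℝ → ℝ} (hp : IsStandard p)
    (hQ : HasQ p (treeQ T)) (s : ℕ × List ℕ)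
    (hk : ∀ k, Leads T s k → ∀ t, 0 ≤ t → p none (some k) t = 0) :
    ∀ t, 0 ≤ t → p none (some s) t = 0 := by
  intro t ht
  refine le_antisymm ?_ (hp.nonneg _ _ t ht)
  rcases ht.eq_or_lt with rfl | htpos
  · rw [imp_zero hp]; simp
  have h0 : treeQ T none (some s) = ((0 : ℝ) : EReal) := by simp [treeQ]
  have h1 := imp_off hQ (by simp) h0
  refine le_of_forall_pos_le_add fun e he => ?_
  obtain ⟨d, hd, h2⟩ := imp_eps h1 (e := e / t) (by positivity)
  obtain ⟨n, hn⟩ := exists_nat_gt (t / d)
  have hn0 : (0 : ℝ) < n := lt_trans (by positivity) hn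
  have hs0 : 0 < t / n := by positivity
  have hsd : t / n < d := by
    rw [div_lt_iff₀ hn0]
    rw [div_lt_iff₀ hd] at hn
    linarith
  set h := t / n with hh
  have hM : 0 ≤ e / t * h := by positivity
  have hb : ∀ v, 0 ≤ v → v ≤ h → p none (some s) v ≤ e / t * h := by
    intro v hv hvh
    rcases hv.eq_or_lt with rfl | hvpos
    · rw [imp_zero hp]; simpa using hM
    · have h3 := h2 v hvpos (lt_of_le_of_lt hvh hsd)
      rw [sub_zero] at h3
      have h4 := (abs_lt.1 h3).2.le
      rw [div_le_iff₀ hvpos] at h4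
      exact h4.trans (mul_le_mul_of_nonneg_left hvh (by positivity))
  have key : ∀ m : ℕ, p none (some s) (m * h) ≤ m * (e / t * h) := by
    intro m
    induction m with
    | zero => simp [imp_zero hp]
    | succ m ih =>
      have hm' : ((m + 1 : ℕ) : ℝ) * h = m * h + h := by push_cast; ring
      have hmh : 0 ≤ m * h := by positivity
      rw [hm', hp.ck none (some s) (m * h) h hmh hs0.le]
      have hsum1 : Summable fun k : St => if k = some s then p none (some s) (m * h) else 0 :=
        (hasSum_ite_eq (some s) _).summable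
      have hsum2 : Summable fun k : St => p none k (m * h) * (e / t * h) :=
        (hp.summable none (m * h) hmh).mul_right _
      have hterm : ∀ k : St, p none k (m * h) * p k (some s) h
          ≤ (if k = some s then p none (some s) (m * h) else 0)
            + p none k (m * h) * (e / t * h) := by
        intro k
        have hk0 := hp.nonneg none k (m * h) hmh
        rcases k with _ | k
        · have h5 := hb h hs0.le le_rfl
          simp only [reduceCtorEq, if_false, zero_add]
          exact mul_le_mul_of_nonneg_left h5 hk0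
        · by_cases hks : k = s
          · subst hks
            simp only [if_true]
            have h6 := imp_le_one hp (some k) (some k) hs0.le
            have h7 : p none (some k) (m * h) * p (some k) (some k) h
                ≤ p none (some k) (m * h) := mul_le_of_le_one_right hk0 h6
            have h8 : 0 ≤ p none (some k) (m * h) * (e / t * h) := mul_nonneg hk0 hM
            linarith
          · have hne : (some k : St) ≠ some s := fun h => hks (Option.some.inj h)
            rw [if_neg hne, zero_add]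
            by_cases hl : Leads T s k
            · rw [hk k hl (m * h) hmh]; simp
            · obtain ⟨a, l⟩ := k
              exact mul_le_mul_of_nonneg_left
                (imp_node hp hQ hM hb a l hl hks h hs0.le le_rfl) hk0
      have h9 := (imp_summable hp none (some s) hmh hs0.le).tsum_le_tsum hterm
        (hsum1.add hsum2)
      rw [hsum1.tsum_add hsum2, tsum_ite_eq, tsum_mul_right] at h9
      have h10 : (∑' k, p none k (m * h)) * (e / t * h) ≤ 1 * (e / t * h) :=
        mul_le_mul_of_nonneg_right (hp.mass none (m * h) hmh) hM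
      push_cast
      linarith
  have h11 := key n
  have h12 : (n : ℝ) * h = t := by rw [hh]; field_simp
  rw [h12] at h11
  have h13 : (n : ℝ) * (e / t * h) = e := by rw [hh]; field_simp
  linarith

theorem imp_suffix {T : Set (List ℕ)} (hT : IsTree T) (u l : List ℕ) (h : u ++ l ∈ T) :
    l ∈ T := by
  induction u with
  | nil => simpa using h
  | cons x u ih => exact ih (hT x (u ++ l) (by simpa using h))

theorem length_bl (y : ℕ → ℕ) (n : ℕ) : (bl y n).length = n := by
  induction n with
  | zero => rfl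
  | succ n ih => simp [bl, ih]

theorem imp_branch {T : Set (List ℕ)} (hT : IsTree T) (g : ℕ → List ℕ)
    (hg : ∀ n, ∃ x, g (n + 1) = x :: g n) (hgT : ∀ n, g (n + 1) ∈ T) : HasBranch T := by
  have hlen : ∀ n, n ≤ (g n).length := by
    intro n
    induction n with
    | zero => simp
    | succ n ih =>
      obtain ⟨x, hx⟩ := hg n
      rw [hx, List.length_cons]; omega
  refine ⟨fun i => (g (i + 1)).reverse.getD i 0, fun n => ?_⟩
  set y : ℕ → ℕ := fun i => (g (i + 1)).reverse.getD i 0 with hy
  have key : ∀ m, ∃ u, g m = u ++ bl y m := by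
    intro m
    induction m with
    | zero => exact ⟨g 0, by simp [bl]⟩
    | succ m ih =>
      obtain ⟨u, hu⟩ := ih
      obtain ⟨x, hx⟩ := hg m
      rw [hu] at hx
      obtain ⟨u', z, hz⟩ : ∃ u' z, x :: u = u' ++ [z] := by
        rcases List.eq_nil_or_concat (x :: u) with h | ⟨u', z, h⟩
        · simp at h
        · exact ⟨u', z, by simpa using h⟩
      have h1 : g (m + 1) = u' ++ z :: bl y m := by
        rw [hx, ← List.cons_append, hz, List.append_assoc, List.singleton_append]
      have h2 : y m = z := by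
        have h3 : (g (m + 1)).reverse = (bl y m).reverse ++ (z :: u'.reverse) := by
          rw [h1]; simp
        simp only [hy]
        rw [h3, List.getD_eq_getElem?_getD, List.getElem?_append_right (by simp [length_bl])]
        simp [length_bl]
      exact ⟨u', by rw [h1, bl, h2]⟩
  obtain ⟨u, hu⟩ := key n
  obtain ⟨x, hx⟩ := hg n
  refine imp_suffix hT (x :: u) _ ?_
  rw [List.cons_append, ← hu, ← hx]
  exact hgT n

/-- The alive children. -/
def ImpChild (T : Set (List ℕ)) (k s : ℕ × List ℕ) : Prop :=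
  ∃ n x l, k = (n, x :: l) ∧ s = (n, l) ∧ x :: l ∈ T

theorem imp_child_wf {T : Set (List ℕ)} (hT : IsTree T) (hno : ¬ HasBranch T) :
    WellFounded (ImpChild T) := by
  rw [wellFounded_iff_isEmpty_descending_chain]
  refine ⟨fun ⟨f, hf⟩ => hno (imp_branch hT (fun n => (f n).2) ?_ ?_)⟩
  · intro n
    obtain ⟨a, x, l, h1, h2, _⟩ := hf n
    exact ⟨x, by simp [h1, h2]⟩
  · intro n
    obtain ⟨a, x, l, h1, _, h3⟩ := hf n
    simpa [h1] using h3

theorem leads_transGen {T : Set (List ℕ)} {s k : ℕ × List ℕ} (h : Leads T s k) :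
    Relation.TransGen (ImpChild T) k s := by
  induction h with
  | one n x l hl hs => exact Relation.TransGen.single ⟨n, x, l, rfl, hs, hl⟩
  | step n x l hl _ ih => exact Relation.TransGen.head ⟨n, x, l, rfl, rfl, hl⟩ ih

theorem no_semigroup (T : Set (List ℕ)) (hT : IsTree T) (hno : ¬ HasBranch T)
    (p : St → St → ℝ → ℝ) (hp : IsStandard p) (hQ : HasQ p (treeQ T)) : False := by
  have hall : ∀ s : ℕ × List ℕ, ∀ t, 0 ≤ t → p none (some s) t = 0 := by
    have wf := (imp_child_wf hT hno).transGen
    intro s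
    induction s using wf.induction with
    | _ s ih => exact imp_step hp hQ s (fun k hk => ih k (leads_transGen hk))
  have hmul : ∀ s t, 0 ≤ s → 0 ≤ t → p none none (s + t) = p none none s * p none none t := by
    intro s t hs ht
    rw [hp.ck none none s t hs ht]
    refine tsum_eq_single none ?_
    intro k hk
    obtain ⟨k, rfl⟩ := Option.ne_none_iff_exists'.1 hk
    rw [hall k s hs, zero_mul]
  have hpow : ∀ h, 0 ≤ h → ∀ n : ℕ, p none none (n * h) = p none none h ^ n := by
    intro h hh n
    induction n with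
    | zero => simp [imp_zero hp]
    | succ n ih =>
      have hm' : ((n + 1 : ℕ) : ℝ) * h = n * h + h := by push_cast; ring
      rw [hm', hmul _ _ (by positivity) hh, ih, pow_succ]
  have h1 : Tendsto (p none none) (𝓝[>] 0) (𝓝 1) := by simpa using hp.standard none none
  have hseq : Tendsto (fun n : ℕ => 1 / ((n : ℝ) + 1)) atTop (𝓝[>] 0) := by
    rw [tendsto_nhdsWithin_iff]
    refine ⟨tendsto_one_div_add_atTop_nhds_zero_nat, Eventually.of_forall fun n => ?_⟩
    have : (0 : ℝ) < (n : ℝ) + 1 := by positivity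
    exact one_div_pos.2 this
  have h2 : ∀ᶠ n : ℕ in atTop, 0 < p none none (1 / ((n : ℝ) + 1)) :=
    hseq.eventually (h1.eventually (lt_mem_nhds one_pos))
  have hq := hQ none none
  have hbot : treeQ T none none = ⊥ := by simp [treeQ]
  rw [hbot, EReal.tendsto_nhds_bot_iff_real] at hq
  have h3 := hseq.eventually (hq (Real.log (p none none 1)))
  obtain ⟨n, hn2, hn3⟩ := (h2.and h3).exists
  have hnpos : (0 : ℝ) < (n : ℝ) + 1 := by positivity
  have h4 := hpow (1 / ((n : ℝ) + 1)) (by positivity) (n + 1)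
  have h5 : ((n + 1 : ℕ) : ℝ) * (1 / ((n : ℝ) + 1)) = 1 := by push_cast; field_simp
  rw [h5] at h4
  rw [h4, Real.log_pow] at hn3
  simp only [if_true] at hn3
  have h6 := EReal.coe_lt_coe_iff.1 hn3
  have h7 := Real.log_le_sub_one_of_pos hn2
  have h8 : (p none none (1 / ((n : ℝ) + 1)) - 1) / (1 / ((n : ℝ) + 1))
      = ((n + 1 : ℕ) : ℝ) * (p none none (1 / ((n : ℝ) + 1)) - 1) := by
    push_cast; field_simp
  rw [h8] at h6
  have h9 : ((n + 1 : ℕ) : ℝ) * Real.log (p none none (1 / ((n : ℝ) + 1)))
      ≤ ((n + 1 : ℕ) : ℝ) * (p none none (1 / ((n : ℝ) + 1)) - 1) :=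
    mul_le_mul_of_nonneg_left h7 (by positivity)
  linarith

end ImpTree

end Pool.Agent.Work.MP_b687c6_pr
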