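import Pool.Agent.Work.MP_b687c6_pr.Defs

/-! Module RED: analytic subsets of Baire space and trees; an analytic set that is not Borel. -/

namespace Pool.Agent.Work.MP_b687c6_pr

open Filter Topology MeasureTheory

private lemma bl_len (y : ℕ → ℕ) (n : ℕ) : (bl y n).length = n := by
  induction n with
  | zero => rfl
  | succ n ih => simp [bl, ih]

private lemma bl_eq_iff (y z : ℕ → ℕ) (n : ℕ) : bl y n = bl z n ↔ ∀ i < n, y i = z i := by
  induction n with
  | zero => simp [bl]
  | succ n ih =>
    simp only [bl, List.cons.injEq, ih]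
    constructor
    · rintro ⟨h1, h2⟩ i hi
      rcases Nat.lt_succ_iff_lt_or_eq.1 hi with h | h
      · exact h2 i h
      · rw [h]; exact h1
    · intro h
      exact ⟨h n (Nat.lt_succ_self n), fun i hi => h i (hi.trans (Nat.lt_succ_self n))⟩

private lemma loc_clopen {X Y : Type*} [TopologicalSpace X] {f : X → Y}
    (hf : IsLocallyConstant f) (s : Set Y) : IsClopen (f ⁻¹' s) :=
  ⟨⟨by rw [← Set.preimage_compl]; exact hf sᶜ⟩, hf s⟩

private lemma bl_loc (n : ℕ) : IsLocallyConstant (fun x : ℕ → ℕ => bl x n) := by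
  induction n with
  | zero => exact IsLocallyConstant.const []
  | succ n ih =>
    have h1 : IsLocallyConstant (fun x : ℕ → ℕ => x n) :=
      (IsLocallyConstant.iff_continuous _).2 (continuous_apply n)
    exact h1.comp₂ ih (fun a l => a :: l)

/-- Strong form of the tree representation. -/
private lemma strong_tree (A : Set (ℕ → ℕ)) (hA : AnalyticSet A) :
    ∃ W : Set (List ℕ × List ℕ),
      (∀ x a s, (bl x (s.length + 1), a :: s) ∈ W → (bl x s.length, s) ∈ W) ∧
      ∀ x, x ∈ A ↔ ∃ y : ℕ → ℕ, ∀ n, (bl x n, bl y n) ∈ W := by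
  rw [AnalyticSet] at hA
  rcases hA with rfl | ⟨g, hg, hgA⟩
  · exact ⟨∅, by simp, by simp⟩
  · refine ⟨{p | ∃ z, bl z p.2.length = p.2 ∧ bl (g z) p.2.length = p.1}, ?_, ?_⟩
    · rintro x a s ⟨z, h1, h2⟩
      refine ⟨z, ?_, ?_⟩
      · simp only [List.length_cons, bl, List.cons.injEq] at h1
        exact h1.2
      · simp only [List.length_cons, bl, List.cons.injEq] at h2
        exact h2.2
    · intro x
      constructor
      · intro hx
        rw [← hgA] at hx
        obtain ⟨y, rfl⟩ := hx
        refine ⟨y, fun n => ⟨y, ?_, ?_⟩⟩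
        · simp only [bl_len]
        · simp only [bl_len]
      · rintro ⟨y, hy⟩
        choose z hz1 hz2 using hy
        simp only [bl_len] at hz1 hz2
        have hzy : Tendsto z atTop (𝓝 y) := by
          rw [tendsto_pi_nhds]
          intro i
          refine tendsto_const_nhds.congr' ?_
          filter_upwards [eventually_gt_atTop i] with n hn
          exact ((bl_eq_iff _ _ _).1 (hz1 n) i hn).symm
        have hgz : Tendsto (fun n => g (z n)) atTop (𝓝 (g y)) := (hg.tendsto y).comp hzy
        have hgx : Tendsto (fun n => g (z n)) atTop (𝓝 x) := by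
          rw [tendsto_pi_nhds]
          intro i
          refine tendsto_const_nhds.congr' ?_
          filter_upwards [eventually_gt_atTop i] with n hn
          exact ((bl_eq_iff _ _ _).1 (hz2 n) i hn).symm
        rw [← hgA]
        exact ⟨y, tendsto_nhds_unique hgz hgx⟩

theorem tree_of_analytic (A : Set (ℕ → ℕ)) (hA : AnalyticSet A) :
    ∃ T : (ℕ → ℕ) → Set (List ℕ), (∀ x, IsTree (T x)) ∧ (∀ x, x ∈ A ↔ HasBranch (T x)) ∧
      ∀ s, IsClopen {x | s ∈ T x} := by
  obtain ⟨W, hW1, hW2⟩ := strong_tree A hA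
  refine ⟨fun x => {s | (bl x s.length, s) ∈ W}, ?_, ?_, ?_⟩
  · intro x a s h
    exact hW1 x a s h
  · intro x
    rw [hW2]
    constructor
    · rintro ⟨y, hy⟩
      refine ⟨y, fun n => ?_⟩
      have h1 : (bl x (bl y n).length, bl y n) ∈ W := by rw [bl_len]; exact hy n
      exact h1
    · rintro ⟨y, hy⟩
      refine ⟨y, fun n => ?_⟩
      have h1 : (bl x (bl y n).length, bl y n) ∈ W := hy n
      rwa [bl_len] at h1
  · intro s
    exact loc_clopen (bl_loc s.length) {l | (l, s) ∈ W}

theorem exists_analytic_not_borel :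
    ∃ A : Set (ℕ → ℕ), AnalyticSet A ∧ ¬ MeasurableSet A := by
  set k : ℕ → (ℕ → ℕ) × (ℕ → ℕ) → ℕ :=
    fun n p => Encodable.encode ((bl p.1 n, bl p.2 n) : List ℕ × List ℕ) with hk
  have hkl : ∀ n, IsLocallyConstant (k n) := by
    intro n
    have h1 : IsLocallyConstant (fun p : (ℕ → ℕ) × (ℕ → ℕ) => bl p.1 n) :=
      (bl_loc n).comp_continuous continuous_fst
    have h2 : IsLocallyConstant (fun p : (ℕ → ℕ) × (ℕ → ℕ) => bl p.2 n) :=
      (bl_loc n).comp_continuous continuous_snd
    exact h1.comp₂ h2 (fun a b => Encodable.encode ((a, b) : List ℕ × List ℕ))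
  set D : Set (ℕ → ℕ) := {z | ∃ y : ℕ → ℕ, ∀ n, z (k n (z, y)) = 0} with hD
  have hDa : AnalyticSet D := by
    have hC : IsClosed {p : (ℕ → ℕ) × (ℕ → ℕ) | ∀ n, p.1 (k n p) = 0} := by
      have h1 : {p : (ℕ → ℕ) × (ℕ → ℕ) | ∀ n, p.1 (k n p) = 0} =
          ⋂ n, ⋂ m, ({p : (ℕ → ℕ) × (ℕ → ℕ) | k n p = m}ᶜ ∪ {p | p.1 m = 0}) := by
        ext p
        simp only [Set.mem_ofPred_eq, Set.mem_iInter, Set.mem_union, Set.mem_compl_iff]
        constructor
        · intro h n m
          by_cases hm : k n p = m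
          · right; rw [← hm]; exact h n
          · left; exact hm
        · intro h n
          rcases h n (k n p) with h1 | h1
          · exact absurd rfl h1
          · exact h1
      rw [h1]
      refine isClosed_iInter fun n => isClosed_iInter fun m => IsClosed.union ?_ ?_
      · exact (loc_clopen (hkl n) {m}).compl.isClosed
      · exact isClosed_eq ((continuous_apply m).comp continuous_fst) continuous_const
    have h2 := hC.analyticSet.image_of_continuous (f := Prod.fst) continuous_fst
    convert h2 using 1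
    ext z
    simp only [hD, Set.mem_ofPred_eq, Set.mem_image, Prod.exists, exists_and_right,
      exists_eq_right]
  refine ⟨D, hDa, fun hmeas => ?_⟩
  obtain ⟨W, -, hW⟩ := strong_tree Dᶜ hmeas.compl.analyticSet
  classical
  set z : ℕ → ℕ := fun m => if ∃ p ∈ W, Encodable.encode p = m then 0 else 1 with hz
  have hzW : ∀ s t, z (Encodable.encode ((s, t) : List ℕ × List ℕ)) = 0 ↔ (s, t) ∈ W := by
    intro s t
    simp only [hz]
    constructor
    · intro h
      by_contra hn
      rw [if_neg] at h
      · exact one_ne_zero h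
      · rintro ⟨p, hp, hpe⟩
        have := Encodable.encode_injective hpe
        rw [this] at hp
        exact hn hp
    · intro h
      rw [if_pos ⟨_, h, rfl⟩]
  have h1 : z ∈ Dᶜ ↔ z ∈ D := by
    rw [hW z]
    simp only [hD, Set.mem_ofPred_eq, hk, hzW]
  by_cases h : z ∈ D
  · exact (h1.2 h) h
  · exact h (h1.1 h)

end Pool.Agent.Work.MP_b687c6_pr
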