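import Pool.Agent.Work.MP_b687c6_pr.Chain3
import Pool.Agent.Work.MP_b687c6_pr.Imposs
import Pool.Agent.Work.MP_b687c6_pr.Anal
import Pool.Agent.Work.MP_b687c6_pr.Red

/-! Assembly. -/

namespace Pool.Agent.Work.MP_b687c6_pr

open Filter Topology MeasureTheory

section transfer
variable {S S' : Type*} [DecidableEq S] [DecidableEq S']

lemma isStandard_transfer (e : S ≃ S') {p : S → S → ℝ → ℝ} (hp : IsStandard p) :
    IsStandard (fun i j t => p (e.symm i) (e.symm j) t) := by
  refine ⟨fun i j t ht => hp.nonneg _ _ t ht, fun i t ht => ?_, fun i t ht => ?_, ?_, ?_⟩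
  · exact (e.symm.summable_iff (f := fun j => p (e.symm i) j t)).2 (hp.summable _ t ht)
  · rw [e.symm.tsum_eq (fun j => p (e.symm i) j t)]
    exact hp.mass _ t ht
  · intro i j s t hs ht
    rw [hp.ck _ _ s t hs ht,
      e.symm.tsum_eq (fun k => p (e.symm i) k s * p k (e.symm j) t)]
  · intro i j
    have := hp.standard (e.symm i) (e.symm j)
    simpa using this

lemma isHonest_transfer (e : S ≃ S') {p : S → S → ℝ → ℝ} (hp : IsHonest p) :
    IsHonest (fun i j t => p (e.symm i) (e.symm j) t) := by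
  intro i t ht
  rw [e.symm.tsum_eq (fun j => p (e.symm i) j t)]
  exact hp _ t ht

lemma hasQ_transfer (e : S ≃ S') {p : S → S → ℝ → ℝ} {Q : S → S → EReal} (h : HasQ p Q) :
    HasQ (fun i j t => p (e.symm i) (e.symm j) t) (fun i j => Q (e.symm i) (e.symm j)) := by
  intro i j
  have := h (e.symm i) (e.symm j)
  simpa using this

lemma admissible_transfer (e : S ≃ S') {Q : S → S → EReal} (h : Admissible Q) :
    Admissible (fun i j => Q (e.symm i) (e.symm j)) := by
  intro i
  refine ⟨(h _).1, fun j hj => (h _).2 _ ?_⟩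
  exact fun h' => hj (e.symm.injective h')

lemma mem_QMat_transfer (e : S ≃ S') {Q : S → S → EReal} (h : Q ∈ QMat S) :
    (fun i j => Q (e.symm i) (e.symm j)) ∈ QMat S' := by
  obtain ⟨h1, p, h2, h3⟩ := h
  exact ⟨admissible_transfer e h1, _, isStandard_transfer e h2, hasQ_transfer e h3⟩

lemma mem_QMat_transfer_iff (e : S ≃ S') {Q : S → S → EReal} :
    (fun i j => Q (e.symm i) (e.symm j)) ∈ QMat S' ↔ Q ∈ QMat S := by
  refine ⟨fun h => ?_, mem_QMat_transfer e⟩
  have := mem_QMat_transfer e.symm h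
  simpa using this

lemma mem_QMatHonest_transfer (e : S ≃ S') {Q : S → S → EReal} (h : Q ∈ QMatHonest S) :
    (fun i j => Q (e.symm i) (e.symm j)) ∈ QMatHonest S' := by
  obtain ⟨h1, p, h2, h3, h4⟩ := h
  exact ⟨admissible_transfer e h1, _, isStandard_transfer e h2, isHonest_transfer e h3,
    hasQ_transfer e h4⟩

end transfer

lemma admissible_treeQ (T : Set (List ℕ)) : Admissible (treeQ T) := by
  classical
  intro i
  rcases i with _ | k
  · refine ⟨by simp [treeQ], fun j hj => ?_⟩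
    simp [treeQ, hj]
  · have hr := (rate_pos k).le
    refine ⟨?_, fun j hj => ?_⟩
    · simp only [treeQ, if_true]
      split_ifs
      · exact_mod_cast (by linarith : -rate k ≤ 0)
      · exact le_rfl
    · simp only [treeQ, if_neg hj]
      split_ifs
      · exact ⟨by exact_mod_cast hr, EReal.coe_lt_top _⟩
      · simp
      · simp

theorem treeQ_honest (T : Set (List ℕ)) (h : HasBranch T) : treeQ T ∈ QMatHonest St :=
  ⟨admissible_treeQ T, exists_of_branch T h⟩

theorem treeQ_not (T : Set (List ℕ)) (hT : IsTree T) (h : ¬ HasBranch T) :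
    treeQ T ∉ QMat St := by
  rintro ⟨_, p, hp, hQ⟩
  exact no_semigroup T hT h p hp hQ

/-- Simple matrices. -/
def Simple {S : Type*} (Q : S → S → EReal) : Prop :=
  ∃ a, Q a a = ⊥ ∧ (∀ j, j ≠ a → Q a j = 0) ∧
    ∀ i, i ≠ a → ∃ j, j ≠ i ∧ ∃ r : ℕ, Q i i = ((-(r : ℝ) : ℝ) : EReal) ∧
      Q i j = ((r : ℝ) : EReal) ∧ ∀ k, k ≠ i → k ≠ j → Q i k = 0

lemma simple_transfer {S S' : Type*} (e : S ≃ S') {Q : S → S → EReal} (h : Simple Q) :
    Simple (fun i j => Q (e.symm i) (e.symm j)) := by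
  obtain ⟨a, h1, h2, h3⟩ := h
  refine ⟨e a, by simpa using h1, fun j hj => ?_, fun i hi => ?_⟩
  · change Q (e.symm (e a)) (e.symm j) = 0
    rw [e.symm_apply_apply]
    exact h2 _ fun h => hj (by rw [← h]; simp)
  · obtain ⟨j, hj, r, h4, h5, h6⟩ := h3 (e.symm i) fun h => hi (by rw [← h]; simp)
    refine ⟨e j, fun h => hj (by rw [← h]; simp), r, h4, by simpa using h5, fun k hk hkj => ?_⟩
    exact h6 _ (fun h => hk (e.symm.injective h)) fun h => hkj (by rw [← h]; simp)

lemma simple_treeQ (T : Set (List ℕ)) : Simple (treeQ T) := by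
  classical
  refine ⟨none, by simp [treeQ], fun j hj => by simp [treeQ, hj], fun i hi => ?_⟩
  rcases i with _ | k
  · exact absurd rfl hi
  · refine ⟨nxt k, nxt_ne k, ?_⟩
    by_cases hk : k.2 ∈ T
    · refine ⟨2 ^ (k.1 + k.2.length), ?_, ?_, fun j hj hj' => ?_⟩
      · simp only [treeQ, if_true, if_pos hk, rate]
        norm_num
      · simp only [treeQ, if_true, if_pos hk, rate, if_neg (nxt_ne k)]
        norm_num
      · simp only [treeQ, if_pos hk, if_neg hj, if_neg hj']
    · refine ⟨0, ?_, ?_, fun j _ _ => ?_⟩ <;> simp [treeQ, hk]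

lemma continuous_treeQ {X : Type*} [TopologicalSpace X] (T : X → Set (List ℕ))
    (hT : ∀ s, IsClopen {x | s ∈ T x}) : Continuous fun x => treeQ (T x) := by
  classical
  refine continuous_pi fun i => continuous_pi fun j => ?_
  rcases i with _ | k
  · simp only [treeQ]
    exact continuous_const
  · simp only [treeQ]
    refine Continuous.if (fun x hx => ?_) continuous_const continuous_const
    rw [(hT k.2).frontier_eq] at hx
    exact hx.elim

theorem main_tree (e : St ≃ ℕ+) (T : Set (List ℕ)) (hT : IsTree T) :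
    (HasBranch T → (fun i j => treeQ T (e.symm i) (e.symm j)) ∈ QMatHonest ℕ+) ∧
    (¬ HasBranch T → (fun i j => treeQ T (e.symm i) (e.symm j)) ∉ QMat ℕ+) :=
  ⟨fun h => mem_QMatHonest_transfer e (treeQ_honest T h), fun h h' =>
    treeQ_not T hT h ((mem_QMat_transfer_iff e).1 h')⟩

theorem main_reduction (A : Set (ℕ → ℕ)) (hA : AnalyticSet A) :
    ∃ f : (ℕ → ℕ) → (ℕ+ → ℕ+ → EReal), Continuous f ∧ (∀ x, Simple (f x)) ∧
      (∀ x, x ∈ A → f x ∈ QMatHonest ℕ+) ∧ (∀ x, x ∉ A → f x ∉ QMat ℕ+) := by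
  obtain ⟨T, h1, h2, h3⟩ := tree_of_analytic A hA
  obtain ⟨e⟩ : Nonempty (St ≃ ℕ+) := ⟨(Denumerable.eqv St).trans (Denumerable.eqv ℕ+).symm⟩
  refine ⟨fun x i j => treeQ (T x) (e.symm i) (e.symm j), ?_, fun x =>
    simple_transfer e (simple_treeQ _), fun x hx => ?_, fun x hx => ?_⟩
  · have := continuous_treeQ T h3
    refine continuous_pi fun i => continuous_pi fun j => ?_
    exact (continuous_apply (e.symm j)).comp ((continuous_apply (e.symm i)).comp this)
  · exact (main_tree e (T x) (h1 x)).1 ((h2 x).1 hx)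
  · exact (main_tree e (T x) (h1 x)).2 fun h => hx ((h2 x).2 h)

theorem main_not_borel (C : Set (ℕ+ → ℕ+ → EReal))
    (h1 : ∀ Q, Simple Q → Q ∈ QMatHonest ℕ+ → Q ∈ C)
    (h2 : ∀ Q, Simple Q → Q ∈ C → Q ∈ QMat ℕ+) : ¬ MeasurableSet C := by
  intro hC
  obtain ⟨A, hA, hAm⟩ := exists_analytic_not_borel
  obtain ⟨f, hf, hs, hf1, hf2⟩ := main_reduction A hA
  apply hAm
  have : A = f ⁻¹' C := by
    ext x
    constructor
    · intro hx
      exact h1 _ (hs x) (hf1 x hx)
    · intro hx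
      by_contra hxA
      exact hf2 x hxA (h2 _ (hs x) hx)
  rw [this]
  exact hf.measurable hC

end Pool.Agent.Work.MP_b687c6_pr
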