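import Pool.Agent.Work.MP_b687c6_pr.Defs2
import Pool.Agent.Work.MP_b687c6_pr.Anal

/-! Module OPS: a standard semigroup acts on `ℓ¹`. -/

namespace Pool.Agent.Work.MP_b687c6_pr

open Filter Topology

set_option linter.unusedSectionVars false

section Ops

variable {S : Type} [DecidableEq S] {p : S → S → ℝ → ℝ}

/-- rows of the semigroup as elements of `ℓ¹` -/
private noncomputable def orow (hp : IsStandard p) (i : S) (t : ℝ) : E1 S :=
  ⟨fun j => p i j (max t 0), by
    apply memℓp_gen
    simpa using (hp.summable i (max t 0) (le_max_right _ _)).norm⟩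

private theorem orow_apply (hp : IsStandard p) (i j : S) (t : ℝ) :
    orow hp i t j = p i j (max t 0) := rfl

private theorem orow_norm (hp : IsStandard p) (i : S) (t : ℝ) : ‖orow hp i t‖ ≤ 1 := by
  rw [norm_eq_tsum]
  refine le_trans (le_of_eq ?_) (hp.mass i (max t 0) (le_max_right _ _))
  refine tsum_congr fun j => ?_
  rw [orow_apply, abs_of_nonneg (hp.nonneg i j _ (le_max_right _ _))]

private theorem osum (hp : IsStandard p) (x : E1 S) (t : ℝ) :
    Summable fun i => x i • orow hp i t := by
  apply Summable.of_norm_bounded (summable_abs x)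
  intro i
  rw [norm_smul, Real.norm_eq_abs]
  exact mul_le_of_le_one_right (abs_nonneg _) (orow_norm hp i t)

private noncomputable def oP (hp : IsStandard p) (t : ℝ) : E1 S →L[ℝ] E1 S :=
  LinearMap.mkContinuous
    { toFun := fun x => ∑' i, x i • orow hp i t
      map_add' := by
        intro x y
        rw [← (osum hp x t).tsum_add (osum hp y t)]
        refine tsum_congr fun i => ?_
        rw [lp.coeFn_add, Pi.add_apply, add_smul]
      map_smul' := by
        intro c x
        rw [RingHom.id_apply, ← (osum hp x t).tsum_const_smul]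
        refine tsum_congr fun i => ?_
        rw [lp.coeFn_smul, Pi.smul_apply, smul_eq_mul, mul_smul] } 1 (by
    intro x
    simp only [LinearMap.coe_mk, AddHom.coe_mk, one_mul]
    have h1 : ∀ i, ‖x i • orow hp i t‖ ≤ |x i| := by
      intro i
      rw [norm_smul, Real.norm_eq_abs]
      exact mul_le_of_le_one_right (abs_nonneg _) (orow_norm hp i t)
    have hs : Summable fun i => ‖x i • orow hp i t‖ :=
      Summable.of_nonneg_of_le (fun _ => norm_nonneg _) h1 (summable_abs x)
    refine (norm_tsum_le_tsum_norm hs).trans ?_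
    rw [norm_eq_tsum]
    exact hs.tsum_le_tsum h1 (summable_abs x))

private theorem oP_apply (hp : IsStandard p) (t : ℝ) (x : E1 S) :
    oP hp t x = ∑' i, x i • orow hp i t := rfl

private theorem oP_norm (hp : IsStandard p) (t : ℝ) (x : E1 S) : ‖oP hp t x‖ ≤ ‖x‖ := by
  have := (oP hp t).le_of_opNorm_le
    (LinearMap.mkContinuous_norm_le _ (zero_le_one) _) x
  rwa [one_mul] at this

private theorem oP_coord (hp : IsStandard p) (t : ℝ) (x : E1 S) (j : S) :
    oP hp t x j = ∑' i, x i * p i j (max t 0) := by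
  rw [oP_apply, ← coordF_apply, (coordF j).map_tsum (osum hp x t)]
  refine tsum_congr fun i => ?_
  rw [map_smul, coordF_apply, orow_apply, smul_eq_mul]

private theorem oP_ee (hp : IsStandard p) (t : ℝ) (i : S) : oP hp t (ee i) = orow hp i t := by
  rw [oP_apply, tsum_eq_single i]
  · rw [ee_apply, if_pos rfl, one_smul]
  · intro j hj
    rw [ee_apply, if_neg (Ne.symm hj), zero_smul]

private theorem orow_zero (hp : IsStandard p) (i : S) : orow hp i 0 = ee i := by
  ext j
  rw [orow_apply, ee_apply, max_self]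
  split_ifs with h
  · rw [← h]
    exact p_zero_self hp i
  · exact p_zero_ne hp h

private theorem oP_zero (hp : IsStandard p) (x : E1 S) : oP hp 0 x = x := by
  rw [oP_apply]
  simp only [orow_zero]
  exact (hasSum_ee x).tsum_eq

private theorem clm_ext {T₁ T₂ : E1 S →L[ℝ] E1 S} (h : ∀ i, T₁ (ee i) = T₂ (ee i)) (x : E1 S) :
    T₁ x = T₂ x := by
  have h1 := (hasSum_ee x).mapL T₁
  have h2 := (hasSum_ee x).mapL T₂
  simp only [map_smul] at h1 h2
  simp only [h] at h1
  exact h1.unique h2

private theorem oP_add (hp : IsStandard p) {s t : ℝ} (hs : 0 ≤ s) (ht : 0 ≤ t) (x : E1 S) :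
    oP hp (s + t) x = oP hp t (oP hp s x) := by
  have key : ∀ i, oP hp (s + t) (ee i) = ((oP hp t).comp (oP hp s)) (ee i) := by
    intro i
    rw [ContinuousLinearMap.comp_apply, oP_ee, oP_ee]
    ext j
    rw [oP_coord, orow_apply, max_eq_left (add_nonneg hs ht), max_eq_left ht,
      hp.ck i j s t hs ht]
    refine tsum_congr fun k => ?_
    rw [orow_apply, max_eq_left hs]
  exact clm_ext key x

private theorem orow_tendsto (hp : IsStandard p) (i : S) :
    Tendsto (fun t => orow hp i t) (𝓝[>] 0) (𝓝 (ee i)) := by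
  rw [tendsto_iff_norm_sub_tendsto_zero]
  have h1 : Tendsto (fun t => 2 * (1 - p i i t)) (𝓝[>] 0) (𝓝 0) := by
    have h2 := hp.standard i i
    rw [if_pos rfl] at h2
    have h3 := (h2.const_sub 1).const_mul 2
    simpa using h3
  refine squeeze_zero' (Eventually.of_forall fun _ => norm_nonneg _) ?_ h1
  filter_upwards [self_mem_nhdsWithin] with t ht
  have ht' : (0 : ℝ) ≤ t := le_of_lt ht
  rw [norm_eq_tsum, (summable_abs (orow hp i t - ee i)).tsum_eq_add_tsum_ite i]
  have e1 : |(orow hp i t - ee i : E1 S) i| = 1 - p i i t := by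
    rw [lp.coeFn_sub, Pi.sub_apply, orow_apply, ee_apply, if_pos rfl, max_eq_left ht',
      abs_of_nonpos]
    · ring
    · have := anal_le_one hp i i ht'
      linarith
  have e2 : (∑' n, if n = i then 0 else |(orow hp i t - ee i : E1 S) n|) =
      ∑' k, offd p i t k := by
    refine tsum_congr fun k => ?_
    unfold offd
    split_ifs with h
    · rfl
    · rw [lp.coeFn_sub, Pi.sub_apply, orow_apply, ee_apply, if_neg (Ne.symm h), max_eq_left ht',
        sub_zero, abs_of_nonneg (hp.nonneg i k t ht')]
  rw [e1, e2]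
  have := offd_tsum hp i ht'
  linarith

private theorem oP_cont (hp : IsStandard p) (x : E1 S) :
    Tendsto (fun t => oP hp t x) (𝓝[>] 0) (𝓝 x) := by
  have h1 : Tendsto (fun t => ∑' i, x i • orow hp i t) (𝓝[>] 0) (𝓝 (∑' i, x i • (ee i : E1 S))) := by
    apply tendsto_tsum_of_dominated_convergence (summable_abs x)
    · intro i
      exact (orow_tendsto hp i).const_smul (x i)
    · refine Eventually.of_forall fun t i => ?_
      rw [norm_smul, Real.norm_eq_abs]
      exact mul_le_of_le_one_right (abs_nonneg _) (orow_norm hp i t)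
  rw [(hasSum_ee x).tsum_eq] at h1
  exact h1

end Ops

theorem exists_op {S : Type} [DecidableEq S] [Countable S] (p : S → S → ℝ → ℝ)
    (hp : IsStandard p) :
    ∃ P : ℝ → E1 S →L[ℝ] E1 S, Semi P ∧ ∀ i j t, 0 ≤ t → P t (ee i) j = p i j t := by
  refine ⟨oP hp, ⟨fun t _ x => oP_norm hp t x, fun t _ x hx j => ?_, oP_zero hp,
    fun s t hs ht x => oP_add hp hs ht x, oP_cont hp⟩, fun i j t ht => ?_⟩
  · rw [oP_coord]
    exact tsum_nonneg fun i => mul_nonneg (hx i) (hp.nonneg i j _ (le_max_right _ _))
  · rw [oP_ee, orow_apply, max_eq_left ht]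

end Pool.Agent.Work.MP_b687c6_pr
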