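import Pool.Agent.Work.MP_b687c6_pr.Build
import Pool.Agent.Work.MP_b687c6_pr.Ops
import Pool.Agent.Work.MP_b687c6_pr.Doob
import Pool.Agent.Work.MP_b687c6_pr.Final

/-! The necessary and sufficient condition. -/

namespace Pool.Agent.Work.MP_b687c6_pr

open Filter Topology

lemma sub_inj_aux (i j : ℕ) (a b : EReal)
    (h : (if i = j then 1 else 0 : EReal) - a = (if i = j then 1 else 0) - b) : a = b := by
  have h2 : (if i = j then 1 else 0 : EReal) = ((if i = j then 1 else 0 : ℝ) : EReal) := by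
    split_ifs <;> simp
  rw [h2] at h
  generalize (if i = j then 1 else 0 : ℝ) = d at h
  induction a with
  | bot =>
    induction b with
    | bot => rfl
    | coe b =>
      rw [EReal.coe_sub_bot, ← EReal.coe_sub] at h
      exact absurd h.symm (EReal.coe_ne_top _)
    | top =>
      rw [EReal.coe_sub_bot, EReal.sub_top] at h
      exact absurd h (by simp)
  | coe a =>
    induction b with
    | bot =>
      rw [EReal.coe_sub_bot, ← EReal.coe_sub] at h
      exact absurd h (EReal.coe_ne_top _)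
    | coe b =>
      rw [← EReal.coe_sub, ← EReal.coe_sub, EReal.coe_eq_coe_iff] at h
      rw [EReal.coe_eq_coe_iff]
      linarith
    | top =>
      rw [← EReal.coe_sub, EReal.sub_top] at h
      exact absurd h (EReal.coe_ne_bot _)
  | top =>
    induction b with
    | bot =>
      rw [EReal.coe_sub_bot, EReal.sub_top] at h
      exact absurd h (by simp)
    | coe b =>
      rw [← EReal.coe_sub, EReal.sub_top] at h
      exact absurd h.symm (EReal.coe_ne_bot _)
    | top => rfl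

lemma invLimit_unique {R : ℕ → ℕ → ℝ} {Q Q' : ℕ → ℕ → EReal} (h : InvLimit R Q)
    (h' : InvLimit R Q') : Q = Q' := by
  ext i j
  exact sub_inj_aux i j _ _ (tendsto_nhds_unique (h i j) (h' i j))

/-- From a semigroup to the matrix `R`. -/
theorem crit_forward (p : ℕ → ℕ → ℝ → ℝ) (hp : IsStandard p) (Q : ℕ → ℕ → EReal)
    (hQ : HasQ p Q) : ∃ R, GoodR R ∧ InvLimit R Q ∧ (IsHonest p → ∀ i, ∑' j, R i j = 1) := by
  obtain ⟨P, hP, hPp⟩ := exists_op p hp
  obtain ⟨Rl, hRl⟩ := exists_lap hP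
  have hR₁ : IsRes P 1 (Rl 1) := (hRl 1 one_pos).1
  have hQ' : HasQ (fun i j t => P t (ee i) j) Q := by
    intro i j
    refine (hQ i j).congr' ?_
    filter_upwards [self_mem_nhdsWithin] with t ht
    have ht0 : (0 : ℝ) < t := ht
    rw [hPp i j t ht0.le]
  obtain ⟨h1, h2⟩ := lim_good hP hR₁ (fun i j => cont_of_standard (op_standard hP) i j) hQ'
  refine ⟨_, h1, h2, fun hh i => ?_⟩
  have hmass : ∀ t, 0 ≤ t → ∀ x, massF (P t x) = massF x := by
    intro t ht x
    have h3 := massF_ext (massF.comp (P t)) (fun i => ?_) x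
    · exact h3
    · rw [ContinuousLinearMap.comp_apply, massF_apply, ← hh i t ht]
      exact tsum_congr fun j => hPp i j t ht
  have h4 : massF ((1 : ℝ) • Rl 1 (ee i) - ee i) = 0 := by
    have h5 : Tendsto (fun t : ℝ => massF (t⁻¹ • (P t (Rl 1 (ee i)) - Rl 1 (ee i)))) (𝓝[>] 0)
        (𝓝 (massF ((1 : ℝ) • Rl 1 (ee i) - ee i))) :=
      (massF.continuous.tendsto _).comp (hR₁ (ee i))
    refine tendsto_nhds_unique h5 (tendsto_const_nhds.congr' ?_)
    filter_upwards [self_mem_nhdsWithin] with t ht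
    have ht0 : (0 : ℝ) < t := ht
    rw [map_smul, map_sub, hmass t ht0.le, sub_self, smul_zero]
  rw [one_smul, map_sub, massF_ee, massF_apply, sub_eq_zero] at h4
  exact h4

/-- From the matrix `R` to a semigroup. -/
theorem crit_backward (R : ℕ → ℕ → ℝ) (hR : GoodR R) (Q : ℕ → ℕ → EReal) (hQ : InvLimit R Q) :
    Admissible Q ∧ ∃ p : ℕ → ℕ → ℝ → ℝ, IsStandard p ∧ HasQ p Q ∧
      ((∀ i, ∑' j, R i j = 1) → IsHonest p) := by
  obtain ⟨P, G, hP, hG, hGR, hmass⟩ := build R hR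
  have hst := op_standard hP
  obtain ⟨Q', hQ'a, hQ'⟩ := exists_hasQ _ hst
  obtain ⟨_, h2⟩ := lim_good hP hG (fun i j => cont_of_standard hst i j) hQ'
  have h3 : (fun i j => G (ee i) j) = R := by
    ext i j
    exact hGR i j
  rw [h3] at h2
  have h4 : Q = Q' := invLimit_unique hQ h2
  rw [h4]
  refine ⟨hQ'a, _, hst, hQ', fun hs i t ht => ?_⟩
  have := hmass hs t ht (ee i)
  rwa [massF_apply, massF_ee] at this

theorem crit_nat (Q : ℕ → ℕ → EReal) : Q ∈ QMat ℕ ↔ ∃ R, GoodR R ∧ InvLimit R Q := by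
  constructor
  · rintro ⟨_, p, hp, hQ⟩
    obtain ⟨R, h1, h2, _⟩ := crit_forward p hp Q hQ
    exact ⟨R, h1, h2⟩
  · rintro ⟨R, h1, h2⟩
    obtain ⟨h3, p, h4, h5, _⟩ := crit_backward R h1 Q h2
    exact ⟨h3, p, h4, h5⟩

theorem crit_nat_honest (Q : ℕ → ℕ → EReal) :
    Q ∈ QMatHonest ℕ ↔ ∃ R, GoodR R ∧ InvLimit R Q ∧ ∀ i, ∑' j, R i j = 1 := by
  constructor
  · rintro ⟨_, p, hp, hh, hQ⟩
    obtain ⟨R, h1, h2, h3⟩ := crit_forward p hp Q hQ
    exact ⟨R, h1, h2, h3 hh⟩
  · rintro ⟨R, h1, h2, h3⟩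
    obtain ⟨h4, p, h5, h6, h7⟩ := crit_backward R h1 Q h2
    exact ⟨h4, p, h5, h7 h3, h6⟩

theorem crit_pnat (Q : ℕ+ → ℕ+ → EReal) : Q ∈ QMat ℕ+ ↔
    ∃ R, GoodR R ∧ InvLimit R (fun i j => Q i.succPNat j.succPNat) := by
  rw [← crit_nat]
  have h := mem_QMat_transfer_iff (Equiv.pnatEquivNat) (Q := Q)
  exact h.symm

theorem crit_pnat_honest (Q : ℕ+ → ℕ+ → EReal) : Q ∈ QMatHonest ℕ+ ↔
    ∃ R, GoodR R ∧ InvLimit R (fun i j => Q i.succPNat j.succPNat) ∧ ∀ i, ∑' j, R i j = 1 := by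
  rw [← crit_nat_honest]
  constructor
  · intro h
    exact mem_QMatHonest_transfer Equiv.pnatEquivNat h
  · intro h
    have := mem_QMatHonest_transfer Equiv.pnatEquivNat.symm h
    simpa using this

end Pool.Agent.Work.MP_b687c6_pr
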