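import Pool.Agent.Work.MP_b687c6_pr.Defs2

/-! Module ABEL: an Abelian lemma for Laplace transforms. -/

namespace Pool.Agent.Work.MP_b687c6_pr

open Filter Topology MeasureTheory

private theorem mom1 {l : ℝ} (hl : 0 < l) :
    ∫ t in Set.Ioi (0 : ℝ), Real.exp (-(l * t)) * t = 1 / l ^ 2 := by
  have h := Real.integral_rpow_mul_exp_neg_mul_Ioi (a := 2) (r := l) (by norm_num) hl
  have h1 : ∫ t in Set.Ioi (0 : ℝ), Real.exp (-(l * t)) * t =
      ∫ t in Set.Ioi (0 : ℝ), t ^ ((2 : ℝ) - 1) * Real.exp (-(l * t)) := by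
    refine setIntegral_congr_fun measurableSet_Ioi fun t ht => ?_
    have h2 : (2 : ℝ) - 1 = 1 := by norm_num
    simp only [h2, Real.rpow_one]
    ring
  rw [h1, h, Real.Gamma_two, mul_one]
  rw [show (2 : ℝ) = ((2 : ℕ) : ℝ) by norm_num, Real.rpow_natCast]
  rw [one_div, one_div, inv_pow]

private theorem mom2 {l : ℝ} (hl : 0 < l) :
    ∫ t in Set.Ioi (0 : ℝ), Real.exp (-(l * t)) * t ^ 2 = 2 / l ^ 3 := by
  have h := Real.integral_rpow_mul_exp_neg_mul_Ioi (a := 3) (r := l) (by norm_num) hl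
  have h1 : ∫ t in Set.Ioi (0 : ℝ), Real.exp (-(l * t)) * t ^ 2 =
      ∫ t in Set.Ioi (0 : ℝ), t ^ ((3 : ℝ) - 1) * Real.exp (-(l * t)) := by
    refine setIntegral_congr_fun measurableSet_Ioi fun t ht => ?_
    have h2 : (3 : ℝ) - 1 = ((2 : ℕ) : ℝ) := by norm_num
    simp only [h2, Real.rpow_natCast]
    ring
  have h3 : Real.Gamma 3 = 2 := by
    have h4 := Real.Gamma_nat_eq_factorial 2
    rw [show ((2 : ℕ) : ℝ) + 1 = 3 by norm_num] at h4
    rw [h4]
    norm_num [Nat.factorial]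
  rw [h1, h, h3]
  rw [show (3 : ℝ) = ((3 : ℕ) : ℝ) by norm_num, Real.rpow_natCast]
  rw [one_div, inv_pow]
  ring

private theorem int1 {l : ℝ} (hl : 0 < l) :
    IntegrableOn (fun t => Real.exp (-(l * t)) * t) (Set.Ioi (0 : ℝ)) := by
  apply Integrable.of_integral_ne_zero
  rw [mom1 hl]
  positivity

private theorem int2 {l : ℝ} (hl : 0 < l) :
    IntegrableOn (fun t => Real.exp (-(l * t)) * t ^ 2) (Set.Ioi (0 : ℝ)) := by
  apply Integrable.of_integral_ne_zero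
  rw [mom2 hl]
  positivity

private theorem intg (g : ℝ → ℝ) (hc : ContinuousOn g (Set.Ioi 0)) (hg : ∀ t, 0 < t → |g t| ≤ 1)
    {l : ℝ} (hl : 0 < l) :
    IntegrableOn (fun t => Real.exp (-(l * t)) * g t) (Set.Ioi (0 : ℝ)) := by
  have h1 := exp_neg_integrableOn_Ioi 0 hl
  refine Integrable.mono' h1 ?_ ?_
  · refine (ContinuousOn.mul ?_ hc).aestronglyMeasurable measurableSet_Ioi
    exact (by fun_prop : Continuous fun t : ℝ => Real.exp (-(l * t))).continuousOn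
  · rw [ae_restrict_iff' measurableSet_Ioi]
    refine Eventually.of_forall fun t ht => ?_
    rw [Real.norm_eq_abs, abs_mul, abs_of_pos (Real.exp_pos _), neg_mul]
    exact mul_le_of_le_one_right (Real.exp_pos _).le (hg t ht)

private theorem low (g : ℝ → ℝ) (hc : ContinuousOn g (Set.Ioi 0)) (hg : ∀ t, 0 < t → |g t| ≤ 1)
    (c : ℝ) (h : ∀ᶠ t in 𝓝[>] (0 : ℝ), c * t ≤ g t) : ∃ K : ℝ, ∀ l, 0 < l →
    c - K / l ≤ l ^ 2 * ∫ t in Set.Ioi (0 : ℝ), Real.exp (-(l * t)) * g t := by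
  rw [(nhdsGT_basis (0 : ℝ)).eventually_iff] at h
  obtain ⟨δ, hδ, h1⟩ := h
  refine ⟨2 * (1 / δ ^ 2 + |c| / δ), fun l hl => ?_⟩
  set K := 1 / δ ^ 2 + |c| / δ with hK
  have hK0 : 0 ≤ K := by positivity
  have h2 : ∀ t, 0 < t → c * t - K * t ^ 2 ≤ g t := by
    intro t ht
    by_cases htd : t < δ
    · have h3 := h1 ⟨ht, htd⟩
      have h4 : 0 ≤ K * t ^ 2 := by positivity
      linarith
    · rw [not_lt] at htd
      have h3 := (abs_le.1 (hg t ht)).1
      have h4 : 1 ≤ t / δ := by rwa [le_div_iff₀ hδ, one_mul]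
      have h5 : K * t ^ 2 = (t / δ) ^ 2 + |c| * t * (t / δ) := by
        rw [hK]
        field_simp
      have h6 : 1 ≤ (t / δ) ^ 2 := one_le_pow₀ h4
      have h7 : |c| * t ≤ |c| * t * (t / δ) :=
        le_mul_of_one_le_right (by positivity) h4
      have h8 : c * t ≤ |c| * t := mul_le_mul_of_nonneg_right (le_abs_self c) ht.le
      linarith
  have h3 : ∫ t in Set.Ioi (0 : ℝ), (c * (Real.exp (-(l * t)) * t) -
      K * (Real.exp (-(l * t)) * t ^ 2)) ≤
      ∫ t in Set.Ioi (0 : ℝ), Real.exp (-(l * t)) * g t := by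
    refine setIntegral_mono_on (((int1 hl).const_mul c).sub ((int2 hl).const_mul K))
      (intg g hc hg hl) measurableSet_Ioi fun t ht => ?_
    have h4 := mul_le_mul_of_nonneg_left (h2 t ht) (Real.exp_pos (-(l * t))).le
    linarith
  rw [integral_sub ((int1 hl).const_mul c) ((int2 hl).const_mul K), integral_const_mul,
    integral_const_mul, mom1 hl, mom2 hl] at h3
  have h4 := mul_le_mul_of_nonneg_left h3 (sq_nonneg l)
  refine le_trans (le_of_eq ?_) h4
  field_simp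

private theorem lowE (g : ℝ → ℝ) (hc : ContinuousOn g (Set.Ioi 0)) (hg : ∀ t, 0 < t → |g t| ≤ 1)
    (q : EReal) (h : Tendsto (fun t : ℝ => ((g t / t : ℝ) : EReal)) (𝓝[>] 0) (𝓝 q)) (a : EReal)
    (ha : a < q) : ∀ᶠ l : ℝ in atTop,
      a < ((l ^ 2 * ∫ t in Set.Ioi (0 : ℝ), Real.exp (-(l * t)) * g t : ℝ) : EReal) := by
  obtain ⟨c, h1, h2⟩ := EReal.exists_rat_btwn_of_lt ha
  have h3 : ∀ᶠ t in 𝓝[>] (0 : ℝ), (c : ℝ) * t ≤ g t := by
    filter_upwards [(tendsto_order.1 h).1 _ h2, self_mem_nhdsWithin] with t ht ht0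
    have ht0' : (0 : ℝ) < t := ht0
    rw [EReal.coe_lt_coe_iff, lt_div_iff₀ ht0'] at ht
    exact ht.le
  obtain ⟨K, hK⟩ := low g hc hg c h3
  have h4 : Tendsto (fun l : ℝ => (((c : ℝ) - K / l : ℝ) : EReal)) atTop (𝓝 ((c : ℝ) : EReal)) := by
    have h5 : Tendsto (fun l : ℝ => (c : ℝ) - K / l) atTop (𝓝 ((c : ℝ) - 0)) :=
      tendsto_const_nhds.sub (tendsto_const_nhds.div_atTop tendsto_id)
    rw [sub_zero] at h5
    exact (continuous_coe_real_ereal.tendsto _).comp h5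
  filter_upwards [(tendsto_order.1 h4).1 _ h1, eventually_gt_atTop 0] with l hl hl0
  exact lt_of_lt_of_le hl (EReal.coe_le_coe_iff.2 (hK l hl0))

theorem abel_lemma (g : ℝ → ℝ) (hc : ContinuousOn g (Set.Ioi 0)) (hg : ∀ t, 0 < t → |g t| ≤ 1)
    (q : EReal) (h : Tendsto (fun t : ℝ => ((g t / t : ℝ) : EReal)) (𝓝[>] 0) (𝓝 q)) :
    Tendsto (fun l : ℝ =>
      ((l ^ 2 * ∫ t in Set.Ioi (0 : ℝ), Real.exp (-(l * t)) * g t : ℝ) : EReal)) atTop (𝓝 q) := by
  rw [tendsto_order]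
  constructor
  · intro a ha
    exact lowE g hc hg q h a ha
  · intro a ha
    have h1 : Tendsto (fun t : ℝ => (((-g t) / t : ℝ) : EReal)) (𝓝[>] 0) (𝓝 (-q)) := by
      have h2 := (continuous_neg.tendsto q).comp h
      refine h2.congr fun t => ?_
      rw [Function.comp, ← EReal.coe_neg, neg_div]
    have h2 := lowE (fun t => -g t) hc.neg (fun t ht => by rw [abs_neg]; exact hg t ht) (-q) h1 (-a)
      (EReal.neg_lt_neg_iff.2 ha)
    filter_upwards [h2] with l hl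
    have h3 : l ^ 2 * ∫ t in Set.Ioi (0 : ℝ), Real.exp (-(l * t)) * (fun t => -g t) t =
        -(l ^ 2 * ∫ t in Set.Ioi (0 : ℝ), Real.exp (-(l * t)) * g t) := by
      rw [← mul_neg, ← integral_neg]
      simp only [mul_neg]
    rw [h3, EReal.coe_neg] at hl
    exact EReal.neg_lt_neg_iff.1 hl

end Pool.Agent.Work.MP_b687c6_pr
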