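import Pool.Agent.Work.MP_b687c6_pr.Defs2

/-! Module BACK: the operator on `ℓ¹` defined by a good matrix. -/

namespace Pool.Agent.Work.MP_b687c6_pr

open Filter Topology

private lemma key_fin {n : ℕ} (A : Matrix (Fin n) (Fin n) ℝ) (hoff : ∀ i j, i ≠ j → A i j ≤ 0)
    (hrow : ∀ i, 1 ≤ ∑ j, A i j) (x g : Fin n → ℝ) (hg : ∀ i, g i = if 0 < x i then 1 else 0) :
    ∑ i, g i * (x i - Matrix.vecMul x A i) ≤ 0 := by
  have h1 : ∑ i, g i * (x i - Matrix.vecMul x A i) = ∑ j, x j * (g j - ∑ i, A j i * g i) := by
    simp only [Matrix.vecMul, dotProduct, mul_sub, Finset.sum_sub_distrib, Finset.mul_sum]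
    congr 1
    · exact Finset.sum_congr rfl fun i _ => mul_comm _ _
    · rw [Finset.sum_comm]
      refine Finset.sum_congr rfl fun j _ => Finset.sum_congr rfl fun i _ => ?_
      ring
  rw [h1]
  have hg0 : ∀ i, 0 ≤ g i := by intro i; rw [hg]; split_ifs <;> norm_num
  have hg1 : ∀ i, g i ≤ 1 := by intro i; rw [hg]; split_ifs <;> norm_num
  refine Finset.sum_nonpos fun j _ => ?_
  by_cases hx : 0 < x j
  · have hgj : g j = 1 := by rw [hg, if_pos hx]
    have h2 : ∑ i, A j i ≤ ∑ i, A j i * g i := by
      refine Finset.sum_le_sum fun i _ => ?_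
      by_cases hij : j = i
      · subst hij; rw [hgj, mul_one]
      · have := hoff j i hij
        nlinarith [hg1 i]
    have h3 := hrow j
    have h4 : g j - ∑ i, A j i * g i ≤ 0 := by rw [hgj]; linarith
    exact mul_nonpos_of_nonneg_of_nonpos hx.le h4
  · have hgj : g j = 0 := by rw [hg, if_neg hx]
    have h2 : ∑ i, A j i * g i ≤ 0 := by
      refine Finset.sum_nonpos fun i _ => ?_
      by_cases hij : j = i
      · subst hij; rw [hgj, mul_zero]
      · exact mul_nonpos_of_nonpos_of_nonneg (hoff j i hij) (hg0 i)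
    have h4 : 0 ≤ g j - ∑ i, A j i * g i := by rw [hgj]; linarith
    exact mul_nonpos_of_nonpos_of_nonneg (not_lt.1 hx) h4

section
variable {R : ℕ → ℕ → ℝ} (hR : GoodR R)
include hR

private lemma good_mul (n : ℕ) : secM R n * (secM R n)⁻¹ = 1 := by
  have h := (hR.2 n).1
  rw [Matrix.isUnit_iff_isUnit_det] at h
  exact Matrix.mul_nonsing_inv _ h

private lemma good_mul' (n : ℕ) : (secM R n)⁻¹ * secM R n = 1 := by
  have h := (hR.2 n).1
  rw [Matrix.isUnit_iff_isUnit_det] at h
  exact Matrix.nonsing_inv_mul _ h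

private lemma row_sum_le (n i : ℕ) : ∑ j ∈ Finset.range n, R i j ≤ 1 := by
  have key : ∀ m, i < m → ∑ j ∈ Finset.range m, R i j ≤ 1 := by
    intro m hm
    have h1 := congrFun (congrFun (good_mul hR m) ⟨i, hm⟩)
    have h2 : ∑ j : Fin m, R i j * ∑ l, (secM R m)⁻¹ j l = 1 := by
      have h3 : ∑ j : Fin m, R i j * ∑ l, (secM R m)⁻¹ j l =
          ∑ l, (secM R m * (secM R m)⁻¹) ⟨i, hm⟩ l := by
        simp only [Matrix.mul_apply, Finset.mul_sum]
        rw [Finset.sum_comm]
        rfl
      rw [h3, good_mul hR m]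
      simp [Matrix.one_apply]
    rw [Finset.sum_range, ← h2]
    refine Finset.sum_le_sum fun j _ => ?_
    have := (hR.2 m).2.2 j
    have h4 := hR.1 i j
    nlinarith
  calc ∑ j ∈ Finset.range n, R i j ≤ ∑ j ∈ Finset.range (max n (i + 1)), R i j :=
        Finset.sum_le_sum_of_subset_of_nonneg (Finset.range_subset_range.2 (le_max_left _ _))
          fun j _ _ => hR.1 i j
    _ ≤ 1 := key _ (lt_of_lt_of_le (Nat.lt_succ_self i) (le_max_right _ _))

private lemma row_summable (i : ℕ) : Summable fun j => R i j :=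
  summable_of_sum_range_le (hR.1 i) fun n => row_sum_le hR n i

/-- the rows as vectors of `ℓ¹` -/
private noncomputable def rowV (i : ℕ) : E1 ℕ :=
  ⟨fun j => R i j, by
    have h : Memℓp (fun j : ℕ => R i j) 1 := by
      rw [memℓp_gen_iff (by simp)]
      simpa [abs_of_nonneg (hR.1 i _)] using row_summable hR i
    exact h⟩

private lemma rowV_apply (i j : ℕ) : rowV hR i j = R i j := rfl

private lemma rowV_norm (i : ℕ) : ‖rowV hR i‖ ≤ 1 := by
  rw [norm_eq_tsum]
  simp only [rowV_apply, abs_of_nonneg (hR.1 i _)]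
  exact Real.tsum_le_of_sum_range_le (hR.1 i) fun n => row_sum_le hR n i

private lemma op_summable (x : E1 ℕ) : Summable fun i => x i • rowV hR i :=
  Summable.of_norm_bounded (summable_abs x) fun i => by
    rw [norm_smul, Real.norm_eq_abs]
    exact mul_le_of_le_one_right (abs_nonneg _) (rowV_norm hR i)

/-- the operator -/
private noncomputable def opG : E1 ℕ →L[ℝ] E1 ℕ :=
  LinearMap.mkContinuous
    { toFun := fun x => ∑' i, x i • rowV hR i
      map_add' := by
        intro x y
        rw [← (op_summable hR x).tsum_add (op_summable hR y)]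
        refine tsum_congr fun i => ?_
        rw [lp.coeFn_add, Pi.add_apply, add_smul]
      map_smul' := by
        intro c x
        rw [RingHom.id_apply, ← (op_summable hR x).tsum_const_smul]
        refine tsum_congr fun i => ?_
        rw [lp.coeFn_smul, Pi.smul_apply, smul_eq_mul, mul_smul] } 1 (by
    intro x
    simp only [LinearMap.coe_mk, AddHom.coe_mk, one_mul]
    have hs : Summable fun i => ‖x i • rowV hR i‖ :=
      Summable.of_nonneg_of_le (fun _ => norm_nonneg _) (fun i => by
        rw [norm_smul, Real.norm_eq_abs]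
        exact mul_le_of_le_one_right (abs_nonneg _) (rowV_norm hR i)) (summable_abs x)
    refine (norm_tsum_le_tsum_norm hs).trans ?_
    rw [norm_eq_tsum]
    refine hs.tsum_le_tsum (fun i => ?_) (summable_abs x)
    rw [norm_smul, Real.norm_eq_abs]
    exact mul_le_of_le_one_right (abs_nonneg _) (rowV_norm hR i))

private lemma opG_ee (i j : ℕ) : opG hR (ee i) j = R i j := by
  have h1 : opG hR (ee i) = rowV hR i := by
    change ∑' k, (ee i : E1 ℕ) k • rowV hR k = _
    rw [tsum_eq_single i]
    · rw [ee_apply, if_pos rfl, one_smul]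
    · intro k hk
      rw [ee_apply, if_neg (Ne.symm hk), zero_smul]
  rw [h1, rowV_apply]

/-- coordinates of the image of a finitely supported vector -/
private lemma opG_fin (z : E1 ℕ) (n : ℕ) (hz : ∀ i, n ≤ i → z i = 0) (j : ℕ) :
    opG hR z j = ∑ k : Fin n, z k * R k j := by
  have h1 : opG hR z = ∑ k ∈ Finset.range n, z k • rowV hR k := by
    change ∑' k, z k • rowV hR k = _
    refine tsum_eq_sum fun k hk => ?_
    rw [hz k (by simpa using hk), zero_smul]
  rw [h1, ← coordF_apply, map_sum, Finset.sum_range]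
  refine Finset.sum_congr rfl fun k _ => ?_
  rw [map_smul, coordF_apply, rowV_apply, smul_eq_mul]

private lemma partial_sum (z : E1 ℕ) (n : ℕ) (hz : ∀ i, n ≤ i → z i = 0) (g : ℕ → ℝ)
    (hg : ∀ i, g i = if 0 < opG hR z i then 1 else 0) :
    ∑ i ∈ Finset.range n, g i * (opG hR z i - z i) ≤ 0 := by
  have h1 : Matrix.vecMul (fun k : Fin n => z k) (secM R n) = fun j : Fin n => opG hR z j := by
    funext j
    rw [opG_fin hR z n hz]
    rfl
  have h2 : Matrix.vecMul (fun j : Fin n => opG hR z j) (secM R n)⁻¹ = fun k : Fin n => z k := by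
    rw [← h1, Matrix.vecMul_vecMul, good_mul hR n, Matrix.vecMul_one]
  have h3 := key_fin (secM R n)⁻¹ (hR.2 n).2.1 (hR.2 n).2.2 (fun j : Fin n => opG hR z j)
    (fun j : Fin n => g j) (fun i => hg i)
  rw [h2] at h3
  rw [Finset.sum_range]
  exact h3

private lemma gf_nonpos (z : E1 ℕ) (n : ℕ) (hz : ∀ i, n ≤ i → z i = 0) (g : ℕ → ℝ)
    (hg1 : ∀ i, |g i| ≤ 1) (hg : ∀ i, g i = if 0 < opG hR z i then 1 else 0) :
    Gf g hg1 (opG hR z - z) ≤ 0 := by
  rw [Gf_apply]
  have hs : Summable fun i => g i * (opG hR z - z) i :=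
    Summable.of_norm_bounded (summable_abs (opG hR z - z)) fun i => by
      rw [Real.norm_eq_abs, abs_mul]
      exact mul_le_of_le_one_left (abs_nonneg _) (hg1 i)
  refine le_of_tendsto hs.hasSum.tendsto_sum_nat ?_
  filter_upwards [eventually_ge_atTop n] with m hm
  have := partial_sum hR z m (fun i hi => hz i (hm.trans hi)) g hg
  simpa [lp.coeFn_sub] using this

private lemma fin_ineq (z : E1 ℕ) (n : ℕ) (hz : ∀ i, n ≤ i → z i = 0) (l : ℝ) :
    l * pos (opG hR z) ≤ pos (l • opG hR z - (opG hR z - z)) :=
  pos_le_of (opG hR z) _ (opG hR z - z) l rfl fun g hg1 hg => gf_nonpos hR z n hz g hg1 hg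

/-- domination principle -/
private lemma domin (z : E1 ℕ) (n : ℕ) (hz : ∀ i, n ≤ i → z i = 0)
    (h : ∀ i < n, 0 ≤ opG hR z i) (i : ℕ) : 0 ≤ opG hR z i := by
  classical
  set g : ℕ → ℝ := fun i => if 0 < opG hR (-z) i then 1 else 0 with hgdef
  have hg1 : ∀ i, |g i| ≤ 1 := by
    intro i
    simp only [hgdef]
    split_ifs <;> simp
  have h1 := gf_nonpos hR (-z) n (fun i hi => by
    rw [lp.coeFn_neg, Pi.neg_apply, hz i hi, neg_zero]) g hg1 (fun i => rfl)
  have hcoe : ∀ i, opG hR (-z) i = - opG hR z i := by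
    intro i
    rw [map_neg, lp.coeFn_neg, Pi.neg_apply]
  have h2 : Gf g hg1 (opG hR (-z) - (-z)) = pos (opG hR (-z)) := by
    rw [Gf_apply, pos]
    refine tsum_congr fun i => ?_
    rw [lp.coeFn_sub, Pi.sub_apply, lp.coeFn_neg, Pi.neg_apply]
    simp only [hgdef]
    by_cases hi : 0 < opG hR (-z) i
    · rw [if_pos hi, max_eq_left hi.le]
      have hin : n ≤ i := by
        by_contra hcon
        push Not at hcon
        have h3 := h i hcon
        rw [hcoe] at hi
        linarith
      rw [hz i hin]
      ring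
    · rw [if_neg hi, max_eq_right (not_lt.1 hi), zero_mul]
  rw [h2] at h1
  have h3 := le_pos (opG hR (-z)) i
  rw [hcoe] at h3
  linarith

end

private lemma pos_cont : Continuous (pos : E1 ℕ → ℝ) := by
  have h1 : ∀ x y : E1 ℕ, pos x - pos y ≤ ‖x - y‖ := by
    intro x y
    rw [pos, pos, ← (summable_pos x).tsum_sub (summable_pos y), norm_eq_tsum]
    refine Summable.tsum_le_tsum (fun i => ?_) ((summable_pos x).sub (summable_pos y))
      (summable_abs (x - y))
    rw [lp.coeFn_sub, Pi.sub_apply]
    have h2 : max (x i) 0 ≤ max (y i) 0 + |x i - y i| := by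
      apply max_le
      · have := le_abs_self (x i - y i)
        have := le_max_left (y i) 0
        linarith
      · have := abs_nonneg (x i - y i)
        have := le_max_right (y i) 0
        linarith
    linarith
  refine LipschitzWith.continuous (K := 1) (LipschitzWith.of_dist_le_mul fun x y => ?_)
  rw [Real.dist_eq, dist_eq_norm, NNReal.coe_one, one_mul, abs_le]
  have h2 := h1 x y
  have h3 := h1 y x
  rw [norm_sub_rev] at h3
  constructor <;> linarith

theorem back_op (R : ℕ → ℕ → ℝ) (hR : GoodR R) :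
    ∃ G : E1 ℕ →L[ℝ] E1 ℕ, (∀ i j, G (ee i) j = R i j) ∧
      (∀ (l : ℝ), 0 < l → ∀ z : E1 ℕ, l * pos (G z) ≤ pos (l • G z - (G z - z))) ∧
      DenseRange G := by
  refine ⟨opG hR, opG_ee hR, ?_, ?_⟩
  · intro l _ z
    have h1 := (hasSum_ee z).tendsto_sum_nat
    have h2 : ∀ n, l * pos (opG hR (∑ i ∈ Finset.range n, z i • (ee i : E1 ℕ))) ≤
        pos (l • opG hR (∑ i ∈ Finset.range n, z i • (ee i : E1 ℕ)) -
          (opG hR (∑ i ∈ Finset.range n, z i • (ee i : E1 ℕ)) -
            ∑ i ∈ Finset.range n, z i • (ee i : E1 ℕ))) := by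
      intro n
      refine fin_ineq hR _ n (fun j hj => ?_) l
      rw [← coordF_apply, map_sum]
      refine Finset.sum_eq_zero fun i hi => ?_
      rw [Finset.mem_range] at hi
      rw [map_smul, coordF_apply, ee_apply, if_neg (by omega), smul_zero]
    have hG := (opG hR).continuous
    have hc1 : Continuous fun z : E1 ℕ => l * pos (opG hR z) :=
      continuous_const.mul (pos_cont.comp hG)
    have hc2 : Continuous fun z : E1 ℕ => pos (l • opG hR z - (opG hR z - z)) :=
      pos_cont.comp ((hG.const_smul l).sub (hG.sub continuous_id))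
    exact le_of_tendsto_of_tendsto' ((hc1.tendsto z).comp h1) ((hc2.tendsto z).comp h1) h2
  · -- dense range
    have hee : ∀ i, (ee i : E1 ℕ) ∈ closure (Set.range (opG hR)) := by
      intro i
      classical
      -- the vectors `z n`
      set zf : ℕ → ℕ → ℝ := fun n k => invEntry R n i k with hzf
      set zv : ℕ → E1 ℕ := fun n => ∑ k ∈ Finset.range n, zf n k • (ee k : E1 ℕ) with hzv
      have hzc : ∀ n k, k < n → zv n k = zf n k := by
        intro n k hk
        rw [hzv, ← coordF_apply, map_sum, Finset.sum_eq_single k]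
        · rw [map_smul, coordF_apply, ee_apply, if_pos rfl, smul_eq_mul, mul_one]
        · intro j _ hj
          rw [map_smul, coordF_apply, ee_apply, if_neg hj, smul_zero]
        · intro h
          exact absurd (Finset.mem_range.2 hk) h
      have hz0 : ∀ n k, n ≤ k → zv n k = 0 := by
        intro n k hk
        rw [hzv, ← coordF_apply, map_sum]
        refine Finset.sum_eq_zero fun j hj => ?_
        rw [Finset.mem_range] at hj
        rw [map_smul, coordF_apply, ee_apply, if_neg (by omega), smul_zero]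
      have hx : ∀ n j, i < n → j < n → opG hR (zv n) j = if i = j then 1 else 0 := by
        intro n j hi hj
        rw [opG_fin hR (zv n) n (hz0 n)]
        have h1 := congrFun (congrFun (good_mul' hR n) ⟨i, hi⟩) ⟨j, hj⟩
        rw [Matrix.mul_apply, Matrix.one_apply] at h1
        simp only [Fin.mk.injEq] at h1
        rw [← h1]
        refine Finset.sum_congr rfl fun k _ => ?_
        rw [hzc n k k.2]
        simp only [hzf, invEntry, secM]
        rw [dif_pos ⟨hi, k.2⟩]
      have hxpos : ∀ n, i < n → ∀ j, 0 ≤ opG hR (zv n) j := by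
        intro n hi
        refine domin hR (zv n) n (hz0 n) fun j hj => ?_
        rw [hx n j hi hj]
        split_ifs <;> norm_num
      have hxle : ∀ n, i < n → ∀ j, opG hR (zv n) j ≤ opG hR (zv (i + 1)) j := by
        intro n hi j
        have h1 := domin hR (zv (i + 1) - zv n) n (fun k hk => by
          rw [lp.coeFn_sub, Pi.sub_apply, hz0 n k hk, hz0 (i + 1) k (by omega), sub_zero])
          (fun k hk => by
            rw [map_sub, lp.coeFn_sub, Pi.sub_apply, hx n k hi hk]
            by_cases hki : k < i + 1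
            · rw [hx (i + 1) k (by omega) hki, sub_self]
            · rw [if_neg (by omega), sub_zero]
              exact hxpos (i + 1) (by omega) k) j
        rw [map_sub, lp.coeFn_sub, Pi.sub_apply] at h1
        linarith
      have hnorm : ∀ n, i < n → ‖opG hR (zv n) - ee i‖ ≤ ∑' k, opG hR (zv (i + 1)) (k + n) := by
        intro n hi
        rw [norm_eq_tsum, ← (summable_abs (opG hR (zv n) - ee i)).sum_add_tsum_nat_add n]
        have h1 : ∑ k ∈ Finset.range n, |(opG hR (zv n) - ee i : E1 ℕ) k| = 0 := by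
          refine Finset.sum_eq_zero fun k hk => ?_
          rw [Finset.mem_range] at hk
          rw [lp.coeFn_sub, Pi.sub_apply, hx n k hi hk, ee_apply, sub_self, abs_zero]
        rw [h1, zero_add]
        refine Summable.tsum_le_tsum (fun k => ?_)
          ((summable_nat_add_iff n).2 (summable_abs (opG hR (zv n) - ee i)))
          ((summable_nat_add_iff n).2 (summable_coe (opG hR (zv (i + 1)))))
        rw [lp.coeFn_sub, Pi.sub_apply, ee_apply, if_neg (by omega), sub_zero,
          abs_of_nonneg (hxpos n hi _)]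
        exact hxle n hi _
      have htail : Tendsto (fun n => ∑' k, opG hR (zv (i + 1)) (k + n)) atTop (𝓝 0) :=
        tendsto_sum_nat_add fun k => opG hR (zv (i + 1)) k
      refine mem_closure_of_tendsto (f := fun n => opG hR (zv n)) (b := atTop) ?_
        (Eventually.of_forall fun n => ⟨zv n, rfl⟩)
      rw [tendsto_iff_norm_sub_tendsto_zero]
      refine squeeze_zero' (Eventually.of_forall fun n => norm_nonneg _) ?_ htail
      filter_upwards [eventually_gt_atTop i] with n hn
      exact hnorm n hn
    have hcl : closure (Set.range (opG hR)) =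
        ((LinearMap.range (opG hR).toLinearMap).topologicalClosure : Set (E1 ℕ)) := by
      rw [Submodule.topologicalClosure_coe]
      rfl
    rw [hcl] at hee
    intro x
    rw [hcl]
    refine (Submodule.isClosed_topologicalClosure _).mem_of_tendsto
      (hasSum_ee x).tendsto_sum_nat (Eventually.of_forall fun n => ?_)
    exact Submodule.sum_mem _ fun k _ => Submodule.smul_mem _ _ (hee k)

end Pool.Agent.Work.MP_b687c6_pr
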