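import Pool.Agent.Work.MP_b687c6_pr.Defs2

/-! Module DENS: for dissipative operators, dense range of `1 - A` implies dense range of
`l - A` for all `l > 0`. -/

namespace Pool.Agent.Work.MP_b687c6_pr

open Filter Topology

private lemma dens_step {E : Type*} [NormedAddCommGroup E] [NormedSpace ℝ E] [CompleteSpace E]
    {V : Type*} [AddCommGroup V] [Module ℝ V] (J B : V →ₗ[ℝ] E)
    (hdiss : ∀ l : ℝ, 0 < l → ∀ v, l * ‖J v‖ ≤ ‖l • J v - B v‖) (l0 l : ℝ) (h0 : 0 < l0)
    (hl : 0 < l) (hl2 : l < 2 * l0) (h : DenseRange (l0 • J - B)) : DenseRange (l • J - B) := by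
  have hnorm : ∀ v, ‖J v‖ ≤ (1 / l0) * ‖(l0 • J - B) v‖ := by
    intro v
    have h1 := hdiss l0 h0 v
    rw [LinearMap.sub_apply, LinearMap.smul_apply, one_div, ← div_eq_inv_mul, le_div_iff₀ h0,
      mul_comm]
    exact h1
  set R0 : E →L[ℝ] E := J.extendOfNorm (l0 • J - B) with hR0
  have hR1 : ∀ v, R0 ((l0 • J - B) v) = J v := fun v =>
    LinearMap.extendOfNorm_eq h ⟨1 / l0, hnorm⟩ v
  have hR2 : ∀ x, ‖R0 x‖ ≤ (1 / l0) * ‖x‖ := fun x =>
    LinearMap.norm_extendOfNorm_apply_le h (1 / l0) hnorm x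
  have hR3 : ‖R0‖ ≤ 1 / l0 := ContinuousLinearMap.opNorm_le_bound _ (by positivity) hR2
  set T : E →L[ℝ] E := 1 - (l0 - l) • R0 with hT
  have hlt : ‖(l0 - l) • R0‖ < 1 := by
    rw [norm_smul, Real.norm_eq_abs]
    have h2 : |l0 - l| < l0 := by
      rw [abs_lt]; constructor <;> linarith
    calc |l0 - l| * ‖R0‖ ≤ |l0 - l| * (1 / l0) := mul_le_mul_of_nonneg_left hR3 (abs_nonneg _)
      _ < l0 * (1 / l0) := mul_lt_mul_of_pos_right h2 (by positivity)
      _ = 1 := by field_simp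
  have hunit : IsUnit T := isUnit_one_sub_of_norm_lt_one hlt
  have hsurj : Function.Surjective T := by
    obtain ⟨u, hu⟩ := hunit
    intro y
    refine ⟨(↑u⁻¹ : E →L[ℝ] E) y, ?_⟩
    rw [← hu]
    exact congrArg (fun f : E →L[ℝ] E => f y) u.mul_inv
  have hcomp : (fun v => (l • J - B) v) = T ∘ (fun v => (l0 • J - B) v) := by
    funext v
    have h2 : T ((l0 • J - B) v) = (l0 • J - B) v - (l0 - l) • R0 ((l0 • J - B) v) := rfl
    rw [Function.comp_apply, h2, hR1]
    simp only [LinearMap.sub_apply, LinearMap.smul_apply]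
    module
  change DenseRange (fun v => (l • J - B) v)
  rw [hcomp]
  exact hsurj.denseRange.comp h T.continuous

theorem denseRange_all {E : Type*} [NormedAddCommGroup E] [NormedSpace ℝ E] [CompleteSpace E]
    {V : Type*} [AddCommGroup V] [Module ℝ V] (J B : V →ₗ[ℝ] E)
    (hdiss : ∀ l : ℝ, 0 < l → ∀ v, l * ‖J v‖ ≤ ‖l • J v - B v‖)
    (h1 : DenseRange (J - B)) (l : ℝ) (hl : 0 < l) : DenseRange (l • J - B) := by
  have h1' : DenseRange ((1 : ℝ) • J - B) := by rw [one_smul]; exact h1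
  have key : ∀ n : ℕ, ∀ l : ℝ, 0 < l → l ≤ (3 / 2 : ℝ) ^ n → DenseRange (l • J - B) := by
    intro n
    induction n with
    | zero =>
      intro l hl hl2
      rw [pow_zero] at hl2
      exact dens_step J B hdiss 1 l one_pos hl (by linarith) h1'
    | succ n ih =>
      intro l hl hl2
      rw [pow_succ] at hl2
      have h2 := ih (l * (2 / 3)) (by positivity) (by linarith)
      exact dens_step J B hdiss (l * (2 / 3)) l (by positivity) hl (by linarith) h2
  obtain ⟨n, hn⟩ := pow_unbounded_of_one_lt l (show (1 : ℝ) < 3 / 2 by norm_num)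
  exact key n l hl hn.le

end Pool.Agent.Work.MP_b687c6_pr
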