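import Pool.Agent.Work.MP_b687c6_pr.Defs

/-! Module YOSIDA: Lumer-Phillips / Hille-Yosida in an abstract Banach space. -/

namespace Pool.Agent.Work.MP_b687c6_pr

open Filter Topology NormedSpace
open scoped Nat

section YosGen

variable {E : Type*} [NormedAddCommGroup E] [NormedSpace ℝ E] [CompleteSpace E]

theorem yos_exp_add {A D : E →L[ℝ] E} (h : Commute A D) : exp (A + D) = exp A * exp D := by
  let _ : NormedAlgebra ℚ (E →L[ℝ] E) := NormedAlgebra.restrictScalars ℚ ℝ (E →L[ℝ] E)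
  exact exp_add_of_commute h

theorem yos_hasSum (A : E →L[ℝ] E) (x : E) :
    HasSum (fun n : ℕ => ((n ! : ℝ)⁻¹) • (A ^ n) x) (exp A x) := by
  have h := exp_series_hasSum_exp' (𝕂 := ℝ) A
  have h2 := h.mapL (ContinuousLinearMap.apply ℝ E x)
  simpa using h2

theorem yos_exp_deriv (A : E →L[ℝ] E) (x : E) (t : ℝ) :
    HasDerivAt (fun u : ℝ => exp (u • A) x) (exp (t • A) (A x)) t := by
  have h := hasDerivAt_exp_smul_const (𝕂 := ℝ) A t
  have h2 := h.clm_apply (hasDerivAt_const t x)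
  simpa using h2

/-- Contractive exponentials. -/
def YosCon (A : E →L[ℝ] E) : Prop := ∀ s : ℝ, 0 ≤ s → ∀ x, ‖exp (s • A) x‖ ≤ ‖x‖

omit [CompleteSpace E] in
theorem yos_con_zero : YosCon (0 : E →L[ℝ] E) := by
  intro s _ x
  simp

theorem yos_comp {A D : E →L[ℝ] E} (hc : Commute A D) (hA : YosCon A) (hD : YosCon D) {t : ℝ}
    (ht : 0 ≤ t) (x : E) : ‖exp (t • A) x - exp (t • D) x‖ ≤ t * ‖A x - D x‖ := by
  have hc1 : Commute (A - D) D := (hc.sub_left (Commute.refl D))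
  have key : ∀ s : ℝ, ∀ y : E, exp (t • D) (exp (s • (A - D)) y)
      = exp (s • A) (exp ((t - s) • D) y) := by
    intro s y
    have h1 : exp (t • D + s • (A - D)) = exp (t • D) * exp (s • (A - D)) :=
      yos_exp_add ((hc1.symm.smul_left t).smul_right s)
    have h2 : exp (s • A + (t - s) • D) = exp (s • A) * exp ((t - s) • D) :=
      yos_exp_add ((hc.smul_left s).smul_right (t - s))
    have h3 : t • D + s • (A - D) = s • A + (t - s) • D := by
      rw [smul_sub, sub_smul]; abel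
    have h4 : exp (t • D) * exp (s • (A - D)) = exp (s • A) * exp ((t - s) • D) := by
      rw [← h1, ← h2, h3]
    have h5 := congrArg (fun L : E →L[ℝ] E => L y) h4
    simpa using h5
  have hf : ∀ s ∈ Set.Icc (0 : ℝ) t, HasDerivWithinAt
      (fun s : ℝ => exp (t • D) (exp (s • (A - D)) x))
      (exp (t • D) (exp (s • (A - D)) ((A - D) x))) (Set.Icc 0 t) s := by
    intro s _
    have h := yos_exp_deriv (A - D) x s
    have h2 := (exp (t • D) : E →L[ℝ] E).hasFDerivAt.comp_hasDerivAt s h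
    exact h2.hasDerivWithinAt
  have hb : ∀ s ∈ Set.Ico (0 : ℝ) t, ‖exp (t • D) (exp (s • (A - D)) ((A - D) x))‖
      ≤ ‖A x - D x‖ := by
    intro s hs
    rw [key]
    refine (hA s hs.1 _).trans ?_
    refine (hD (t - s) (by linarith [hs.2]) _).trans ?_
    simp
  have h := norm_image_sub_le_of_norm_deriv_le_segment' hf hb t ⟨ht, le_refl t⟩
  simp only [sub_zero] at h
  have h0 : exp (t • D) (exp ((0 : ℝ) • (A - D)) x) = exp (t • D) x := by simp
  have h1 : exp (t • D) (exp (t • (A - D)) x) = exp (t • A) x := by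
    rw [key]; simp
  rw [h0, h1] at h
  linarith [h, mul_comm t ‖A x - D x‖]

theorem yos_taylor {A : E →L[ℝ] E} {t : ℝ} (ht : 0 ≤ t) (x : E) (M : ℝ)
    (hM : ∀ s, 0 ≤ s → s ≤ t → ‖exp (s • A) (A x) - A x‖ ≤ M) :
    ‖exp (t • A) x - x - t • A x‖ ≤ M * t := by
  have hf : ∀ s ∈ Set.Icc (0 : ℝ) t, HasDerivWithinAt
      (fun s : ℝ => exp (s • A) x - x - s • A x)
      (exp (s • A) (A x) - A x) (Set.Icc 0 t) s := by
    intro s _
    have h := yos_exp_deriv A x s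
    have h2 : HasDerivAt (fun s : ℝ => s • A x) ((1 : ℝ) • A x) s :=
      (hasDerivAt_id s).smul_const (A x)
    have h3 := (h.sub_const x).sub h2
    rw [one_smul] at h3
    exact h3.hasDerivWithinAt
  have hb : ∀ s ∈ Set.Ico (0 : ℝ) t, ‖exp (s • A) (A x) - A x‖ ≤ M :=
    fun s hs => hM s hs.1 hs.2.le
  have h := norm_image_sub_le_of_norm_deriv_le_segment' hf hb t ⟨ht, le_refl t⟩
  simpa using h

omit [CompleteSpace E] in
theorem yos_tendsto_zero {ι V : Type*} {l : Filter ι} {L : ι → E →L[ℝ] E} {J : V → E} {c : ℝ}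
    (hc : 0 < c)
    (hL : ∀ᶠ k in l, ∀ x, ‖L k x‖ ≤ c * ‖x‖) (hJ : DenseRange J)
    (h : ∀ v, Tendsto (fun k => L k (J v)) l (𝓝 0)) (x : E) :
    Tendsto (fun k => L k x) l (𝓝 0) := by
  rw [Metric.tendsto_nhds]
  intro e he
  obtain ⟨v, hv⟩ := Metric.denseRange_iff.1 hJ x (e / (2 * c)) (by positivity)
  have h1 := (Metric.tendsto_nhds.1 (h v)) (e / 2) (by positivity)
  filter_upwards [hL, h1] with k hk hk1
  rw [dist_zero_right] at hk1 ⊢
  have h2 : L k x = L k (x - J v) + L k (J v) := by rw [← map_add, sub_add_cancel]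
  rw [h2]
  refine (norm_add_le _ _).trans_lt ?_
  have h3 := hk (x - J v)
  rw [dist_eq_norm] at hv
  have h4 : c * ‖x - J v‖ < c * (e / (2 * c)) := by
    exact (mul_lt_mul_iff_right₀ hc).2 hv
  have h5 : c * (e / (2 * c)) = e / 2 := by field_simp
  linarith

theorem yos_exp_smul_bound {R : E →L[ℝ] E} {r a : ℝ} (hr : 0 ≤ r) (ha : 0 ≤ a)
    (hR : ∀ x, ‖R x‖ ≤ r * ‖x‖) (x : E) : ‖exp (a • R) x‖ ≤ Real.exp (a * r) * ‖x‖ := by
  have h1 := yos_hasSum (a • R) x
  have h2 : HasSum (fun n : ℕ => ((n ! : ℝ)⁻¹) * (a * r) ^ n * ‖x‖) (Real.exp (a * r) * ‖x‖) := by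
    have h3 : HasSum (fun n : ℕ => (a * r) ^ n / (n ! : ℝ)) (Real.exp (a * r)) := by
      rw [Real.exp_eq_exp_ℝ]
      exact expSeries_div_hasSum_exp (a * r)
    have h4 := h3.mul_right ‖x‖
    refine h4.congr_fun ?_
    intro n
    rw [div_eq_inv_mul]
  have hpow : ∀ n : ℕ, ∀ y, ‖(R ^ n) y‖ ≤ r ^ n * ‖y‖ := by
    intro n
    induction n with
    | zero => intro y; simp
    | succ n ih =>
      intro y
      rw [pow_succ', mul_apply_eq_comp]
      refine (hR _).trans ?_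
      rw [pow_succ']
      calc r * ‖(R ^ n) y‖ ≤ r * (r ^ n * ‖y‖) := mul_le_mul_of_nonneg_left (ih y) hr
        _ = r * r ^ n * ‖y‖ := by ring
  rw [← h1.tsum_eq, ← h2.tsum_eq]
  refine (tsum_of_norm_bounded h2 ?_).trans (le_of_eq h2.tsum_eq.symm)
  intro n
  rw [smul_pow, smul_apply, norm_smul, norm_smul]
  have h5 := hpow n x
  have h6 : ‖((n ! : ℝ)⁻¹)‖ = (n ! : ℝ)⁻¹ := by
    rw [Real.norm_of_nonneg]; positivity
  have h7 : ‖a ^ n‖ = a ^ n := by
    rw [Real.norm_of_nonneg]; positivity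
  rw [h6, h7, mul_pow]
  calc (n ! : ℝ)⁻¹ * (a ^ n * ‖(R ^ n) x‖) ≤ (n ! : ℝ)⁻¹ * (a ^ n * (r ^ n * ‖x‖)) := by
        gcongr
    _ = (n ! : ℝ)⁻¹ * (a ^ n * r ^ n) * ‖x‖ := by ring

end YosGen

section YosMain

variable {E : Type*} [NormedAddCommGroup E] [NormedSpace ℝ E] [CompleteSpace E]
    {V : Type*} [AddCommGroup V] [Module ℝ V]

/-- The resolvent. -/
noncomputable def yosR (J B : V →ₗ[ℝ] E) (l : ℝ) : E →L[ℝ] E := J.extendOfNorm (l • J - B)

variable {J B : V →ₗ[ℝ] E}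

omit [CompleteSpace E] in
theorem yosR_bd (hdiss : ∀ l : ℝ, 0 < l → ∀ v, l * ‖J v‖ ≤ ‖l • J v - B v‖) {l : ℝ} (hl : 0 < l)
    (v : V) : ‖J v‖ ≤ l⁻¹ * ‖(l • J - B) v‖ := by
  have h := hdiss l hl v
  rw [inv_mul_eq_div, le_div_iff₀ hl, mul_comm]
  simpa using h

theorem yosR_eq (hdiss : ∀ l : ℝ, 0 < l → ∀ v, l * ‖J v‖ ≤ ‖l • J v - B v‖)
    (hR : ∀ l : ℝ, 0 < l → DenseRange (l • J - B)) {l : ℝ} (hl : 0 < l) (v : V) :
    yosR J B l (l • J v - B v) = J v :=
  LinearMap.extendOfNorm_eq (hR l hl) ⟨l⁻¹, yosR_bd hdiss hl⟩ v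

theorem yosR_norm (hdiss : ∀ l : ℝ, 0 < l → ∀ v, l * ‖J v‖ ≤ ‖l • J v - B v‖)
    (hR : ∀ l : ℝ, 0 < l → DenseRange (l • J - B)) {l : ℝ} (hl : 0 < l) (x : E) :
    ‖yosR J B l x‖ ≤ l⁻¹ * ‖x‖ :=
  LinearMap.norm_extendOfNorm_apply_le (hR l hl) _ (yosR_bd hdiss hl) x

theorem yosR_res (hdiss : ∀ l : ℝ, 0 < l → ∀ v, l * ‖J v‖ ≤ ‖l • J v - B v‖)
    (hR : ∀ l : ℝ, 0 < l → DenseRange (l • J - B)) {l m : ℝ} (hl : 0 < l) (hm : 0 < m) (z : E) :
    yosR J B l z - yosR J B m z = (m - l) • yosR J B m (yosR J B l z) := by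
  refine (hR l hl).induction_on z ?_ ?_
  · exact isClosed_eq (by fun_prop) (by fun_prop)
  · intro v
    have h1 : (l • J - B) v = l • J v - B v := by simp
    have h2 : l • J v - B v = (m • J v - B v) + (l - m) • J v := by
      rw [sub_smul]; abel
    rw [h1, yosR_eq hdiss hR hl, h2, map_add, yosR_eq hdiss hR hm, map_smul, sub_add_cancel_left,
      ← neg_smul, neg_sub]

theorem yosR_comm (hdiss : ∀ l : ℝ, 0 < l → ∀ v, l * ‖J v‖ ≤ ‖l • J v - B v‖)
    (hR : ∀ l : ℝ, 0 < l → DenseRange (l • J - B)) {l m : ℝ} (hl : 0 < l) (hm : 0 < m) :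
    Commute (yosR J B l) (yosR J B m) := by
  by_cases h : l = m
  · rw [h]
  · have hne : m - l ≠ 0 := sub_ne_zero.2 (Ne.symm h)
    ext z
    have h1 := yosR_res hdiss hR hl hm z
    have h2 := yosR_res hdiss hR hm hl z
    have h3 : (m - l) • yosR J B l (yosR J B m z) = (m - l) • yosR J B m (yosR J B l z) := by
      rw [← h1, ← neg_sub l m, neg_smul, ← h2, neg_sub]
    exact smul_right_injective E hne h3

/-- The Yosida approximation. -/
noncomputable def yosA (J B : V →ₗ[ℝ] E) (k : ℝ) : E →L[ℝ] E :=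
  (k ^ 2) • yosR J B k - k • (1 : E →L[ℝ] E)

theorem yosA_comm (hdiss : ∀ l : ℝ, 0 < l → ∀ v, l * ‖J v‖ ≤ ‖l • J v - B v‖)
    (hR : ∀ l : ℝ, 0 < l → DenseRange (l • J - B)) {l m : ℝ} (hl : 0 < l) (hm : 0 < m) :
    Commute (yosA J B l) (yosA J B m) := by
  have h := yosR_comm hdiss hR hl hm
  unfold yosA
  refine Commute.sub_left ?_ ?_
  · refine Commute.sub_right ?_ ?_
    · exact (h.smul_left _).smul_right _
    · exact ((Commute.one_right _).smul_left _).smul_right _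
  · exact (Commute.one_left _).smul_left _

theorem yosA_exp (k s : ℝ) (x : E) :
    exp (s • yosA J B k) x = Real.exp (-(s * k)) • exp ((s * k ^ 2) • yosR J B k) x := by
  have h1 : s • yosA J B k = (-(s * k)) • (1 : E →L[ℝ] E) + (s * k ^ 2) • yosR J B k := by
    unfold yosA
    rw [smul_sub, smul_smul, smul_smul, neg_smul]; abel
  have h2 : exp ((-(s * k)) • (1 : E →L[ℝ] E)) = Real.exp (-(s * k)) • (1 : E →L[ℝ] E) := by
    rw [← Algebra.algebraMap_eq_smul_one, ← Algebra.algebraMap_eq_smul_one, Real.exp_eq_exp_ℝ]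
    exact (algebraMap_exp_comm (𝕂 := ℝ) (𝔸 := E →L[ℝ] E) (-(s * k))).symm
  rw [h1, yos_exp_add ((Commute.one_left _).smul_left _), h2]
  simp

theorem yosA_con (hdiss : ∀ l : ℝ, 0 < l → ∀ v, l * ‖J v‖ ≤ ‖l • J v - B v‖)
    (hR : ∀ l : ℝ, 0 < l → DenseRange (l • J - B)) {k : ℝ} (hk : 0 < k) :
    YosCon (yosA J B k) := by
  intro s hs x
  rw [yosA_exp, norm_smul]
  have h1 := yos_exp_smul_bound (R := yosR J B k) (r := k⁻¹) (a := s * k ^ 2)
    (by positivity) (by positivity) (yosR_norm hdiss hR hk) x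
  have h2 : s * k ^ 2 * k⁻¹ = s * k := by field_simp
  rw [h2] at h1
  rw [Real.norm_of_nonneg (Real.exp_pos _).le]
  calc Real.exp (-(s * k)) * ‖exp ((s * k ^ 2) • yosR J B k) x‖
      ≤ Real.exp (-(s * k)) * (Real.exp (s * k) * ‖x‖) :=
        mul_le_mul_of_nonneg_left h1 (Real.exp_pos _).le
    _ = ‖x‖ := by
        rw [← mul_assoc, ← Real.exp_add, neg_add_cancel, Real.exp_zero, one_mul]

theorem yosR_J (hdiss : ∀ l : ℝ, 0 < l → ∀ v, l * ‖J v‖ ≤ ‖l • J v - B v‖)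
    (hR : ∀ l : ℝ, 0 < l → DenseRange (l • J - B)) {k : ℝ} (hk : 0 < k) (v : V) :
    k • yosR J B k (J v) - J v = yosR J B k (B v) := by
  have h := yosR_eq hdiss hR hk v
  rw [map_sub, map_smul] at h
  rw [sub_eq_iff_eq_add, ← sub_eq_iff_eq_add']
  exact h

theorem yosR_tendsto (hdiss : ∀ l : ℝ, 0 < l → ∀ v, l * ‖J v‖ ≤ ‖l • J v - B v‖)
    (hJ : DenseRange J) (hR : ∀ l : ℝ, 0 < l → DenseRange (l • J - B)) (x : E) :
    Tendsto (fun n : ℕ => ((n : ℝ) + 1) • yosR J B ((n : ℝ) + 1) x) atTop (𝓝 x) := by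
  have hpos : ∀ n : ℕ, (0 : ℝ) < (n : ℝ) + 1 := fun n => by positivity
  have h := yos_tendsto_zero (l := atTop) (J := J) (c := 2)
    (L := fun n : ℕ => ((n : ℝ) + 1) • yosR J B ((n : ℝ) + 1) - (1 : E →L[ℝ] E)) (by norm_num)
    (Eventually.of_forall ?_) hJ ?_ x
  · have h2 := h.add_const x
    rw [zero_add] at h2
    refine h2.congr ?_
    intro n
    simp
  · intro n y
    have h1 := yosR_norm hdiss hR (hpos n) y
    have h2 : ‖(((n : ℝ) + 1) • yosR J B ((n : ℝ) + 1)) y‖ ≤ ‖y‖ := by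
      rw [smul_apply, norm_smul, Real.norm_of_nonneg (hpos n).le]
      calc ((n : ℝ) + 1) * ‖yosR J B ((n : ℝ) + 1) y‖
          ≤ ((n : ℝ) + 1) * (((n : ℝ) + 1)⁻¹ * ‖y‖) := mul_le_mul_of_nonneg_left h1 (hpos n).le
        _ = ‖y‖ := by rw [← mul_assoc, mul_inv_cancel₀ (hpos n).ne', one_mul]
    calc ‖(((n : ℝ) + 1) • yosR J B ((n : ℝ) + 1) - (1 : E →L[ℝ] E)) y‖
        ≤ ‖(((n : ℝ) + 1) • yosR J B ((n : ℝ) + 1)) y‖ + ‖y‖ := by
          rw [sub_apply, one_apply_eq_self]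
          exact norm_sub_le _ _
      _ ≤ 2 * ‖y‖ := by linarith
  · intro v
    have h1 : ∀ n : ℕ, (((n : ℝ) + 1) • yosR J B ((n : ℝ) + 1) - (1 : E →L[ℝ] E)) (J v)
        = yosR J B ((n : ℝ) + 1) (B v) := by
      intro n
      rw [← yosR_J hdiss hR (hpos n) v]
      simp
    simp_rw [h1]
    have h2 : Tendsto (fun n : ℕ => ((n : ℝ) + 1)⁻¹ * ‖B v‖) atTop (𝓝 0) := by
      have h3 : Tendsto (fun n : ℕ => ((n : ℝ) + 1)⁻¹) atTop (𝓝 0) :=
        tendsto_inv_atTop_zero.comp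
          (tendsto_atTop_add_const_right _ _ tendsto_natCast_atTop_atTop)
      simpa using h3.mul_const ‖B v‖
    exact squeeze_zero_norm (fun n => yosR_norm hdiss hR (hpos n) (B v)) h2

theorem yosA_J (hdiss : ∀ l : ℝ, 0 < l → ∀ v, l * ‖J v‖ ≤ ‖l • J v - B v‖)
    (hR : ∀ l : ℝ, 0 < l → DenseRange (l • J - B)) {k : ℝ} (hk : 0 < k) (v : V) :
    yosA J B k (J v) = k • yosR J B k (B v) := by
  rw [← yosR_J hdiss hR hk v]
  unfold yosA
  simp only [sub_apply, smul_apply, one_apply_eq_self]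
  rw [smul_sub, smul_smul, sq]

theorem yosA_tendsto (hdiss : ∀ l : ℝ, 0 < l → ∀ v, l * ‖J v‖ ≤ ‖l • J v - B v‖)
    (hJ : DenseRange J) (hR : ∀ l : ℝ, 0 < l → DenseRange (l • J - B)) (v : V) :
    Tendsto (fun n : ℕ => yosA J B ((n : ℝ) + 1) (J v)) atTop (𝓝 (B v)) := by
  have hpos : ∀ n : ℕ, (0 : ℝ) < (n : ℝ) + 1 := fun n => by positivity
  simp_rw [fun n : ℕ => yosA_J hdiss hR (hpos n) v]
  exact yosR_tendsto hdiss hJ hR (B v)

theorem yosP_cauchy (hdiss : ∀ l : ℝ, 0 < l → ∀ v, l * ‖J v‖ ≤ ‖l • J v - B v‖)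
    (hJ : DenseRange J) (hR : ∀ l : ℝ, 0 < l → DenseRange (l • J - B)) {t : ℝ} (ht : 0 ≤ t)
    (x : E) : CauchySeq (fun n : ℕ => exp (t • yosA J B ((n : ℝ) + 1)) x) := by
  have hpos : ∀ n : ℕ, (0 : ℝ) < (n : ℝ) + 1 := fun n => by positivity
  rw [cauchySeq_iff_tendsto_dist_atTop_0]
  have h := yos_tendsto_zero (l := (atTop : Filter (ℕ × ℕ))) (J := J) (c := 2)
    (L := fun n : ℕ × ℕ => exp (t • yosA J B ((n.1 : ℝ) + 1)) - exp (t • yosA J B ((n.2 : ℝ) + 1)))
    (by norm_num) (Eventually.of_forall ?_) hJ ?_ x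
  · have h2 := h.norm
    rw [norm_zero] at h2
    refine h2.congr ?_
    intro n
    rw [dist_eq_norm]
    simp
  · intro n y
    have h1 := yosA_con hdiss hR (hpos n.1) t ht y
    have h2 := yosA_con hdiss hR (hpos n.2) t ht y
    rw [sub_apply]
    refine (norm_sub_le _ _).trans ?_
    linarith
  · intro v
    have hc := (yosA_tendsto hdiss hJ hR v).cauchySeq
    rw [cauchySeq_iff_tendsto_dist_atTop_0] at hc
    have h3 := hc.const_mul t
    rw [mul_zero] at h3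
    refine squeeze_zero_norm (fun n => ?_) h3
    rw [sub_apply, dist_eq_norm]
    exact yos_comp (yosA_comm hdiss hR (hpos n.1) (hpos n.2)) (yosA_con hdiss hR (hpos n.1))
      (yosA_con hdiss hR (hpos n.2)) ht (J v)

theorem yosP_exists (hdiss : ∀ l : ℝ, 0 < l → ∀ v, l * ‖J v‖ ≤ ‖l • J v - B v‖)
    (hJ : DenseRange J) (hR : ∀ l : ℝ, 0 < l → DenseRange (l • J - B)) :
    ∃ P : ℝ → E →L[ℝ] E, ∀ t, 0 ≤ t → ∀ x,
      Tendsto (fun n : ℕ => exp (t • yosA J B ((n : ℝ) + 1)) x) atTop (𝓝 (P t x)) := by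
  have h : ∀ t : ℝ, ∃ Q : E →L[ℝ] E, 0 ≤ t → ∀ x,
      Tendsto (fun n : ℕ => exp (t • yosA J B ((n : ℝ) + 1)) x) atTop (𝓝 (Q x)) := by
    intro t
    by_cases ht : 0 ≤ t
    · have h1 : ∀ x, ∃ y, Tendsto (fun n : ℕ => exp (t • yosA J B ((n : ℝ) + 1)) x) atTop (𝓝 y) :=
        fun x => cauchySeq_tendsto_of_complete (yosP_cauchy hdiss hJ hR ht x)
      choose f hf using h1
      refine ⟨continuousLinearMapOfTendsto (fun n : ℕ => exp (t • yosA J B ((n : ℝ) + 1)))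
        (f := f) (tendsto_pi_nhds.2 hf), fun _ x => ?_⟩
      exact hf x
    · exact ⟨0, fun h => absurd h ht⟩
  choose P hP using h
  exact ⟨P, fun t ht x => hP t ht x⟩

theorem yosR_functional (hdiss : ∀ l : ℝ, 0 < l → ∀ v, l * ‖J v‖ ≤ ‖l • J v - B v‖)
    (hR : ∀ l : ℝ, 0 < l → DenseRange (l • J - B)) (f : E →L[ℝ] ℝ) (hf : ∀ v, f (B v) = 0)
    {l : ℝ} (hl : 0 < l) (z : E) : l * f (yosR J B l z) = f z := by
  refine (hR l hl).induction_on z ?_ ?_
  · exact isClosed_eq (by fun_prop) (by fun_prop)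
  · intro v
    have h1 : (l • J - B) v = l • J v - B v := by simp
    rw [h1, yosR_eq hdiss hR hl, map_sub, map_smul, hf v, sub_zero, smul_eq_mul]

theorem yosA_functional (hdiss : ∀ l : ℝ, 0 < l → ∀ v, l * ‖J v‖ ≤ ‖l • J v - B v‖)
    (hR : ∀ l : ℝ, 0 < l → DenseRange (l • J - B)) (f : E →L[ℝ] ℝ) (hf : ∀ v, f (B v) = 0)
    {k : ℝ} (hk : 0 < k) (z : E) : f (yosA J B k z) = 0 := by
  have h := yosR_functional hdiss hR f hf hk z
  unfold yosA
  simp only [sub_apply, smul_apply, one_apply_eq_self, map_sub, map_smul, smul_eq_mul]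
  rw [sq, mul_assoc, h, sub_self]

theorem yos_exp_functional (A : E →L[ℝ] E) (f : E →L[ℝ] ℝ) (hf : ∀ z, f (A z) = 0) (x : E) :
    f (exp A x) = f x := by
  have h := (yos_hasSum A x).mapL f
  have h2 : HasSum (fun n : ℕ => f (((n ! : ℝ)⁻¹) • (A ^ n) x)) (f x) := by
    have h3 := hasSum_single (f := fun n : ℕ => f (((n ! : ℝ)⁻¹) • (A ^ n) x)) 0 (by
      intro n hn
      obtain ⟨m, rfl⟩ := Nat.exists_eq_succ_of_ne_zero hn
      simp [pow_succ', hf])
    simpa using h3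
  exact h.unique h2

theorem yos_exp_cone {R : E →L[ℝ] E} {C : Set E} (hC : IsClosed C) (h0 : (0 : E) ∈ C)
    (hadd : ∀ x ∈ C, ∀ y ∈ C, x + y ∈ C) (hsm : ∀ c : ℝ, 0 ≤ c → ∀ x ∈ C, c • x ∈ C)
    (hR : ∀ x ∈ C, R x ∈ C) {a : ℝ} (ha : 0 ≤ a) {x : E} (hx : x ∈ C) :
    exp (a • R) x ∈ C := by
  have h := (yos_hasSum (a • R) x).tendsto_sum_nat
  refine hC.mem_of_tendsto h (Eventually.of_forall fun N => ?_)
  have hp : ∀ n : ℕ, (R ^ n) x ∈ C := by
    intro n
    induction n with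
    | zero => simpa using hx
    | succ n ih =>
      rw [pow_succ', mul_apply_eq_comp]
      exact hR _ ih
  induction N with
  | zero => simpa using h0
  | succ N ih =>
    rw [Finset.sum_range_succ]
    refine hadd _ ih _ ?_
    rw [smul_pow, smul_apply]
    exact hsm _ (by positivity) _ (hsm _ (by positivity) _ (hp N))

theorem exists_semigroup {E : Type*} [NormedAddCommGroup E] [NormedSpace ℝ E] [CompleteSpace E]
    {V : Type*} [AddCommGroup V] [Module ℝ V] (J B : V →ₗ[ℝ] E)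
    (hdiss : ∀ l : ℝ, 0 < l → ∀ v, l * ‖J v‖ ≤ ‖l • J v - B v‖)
    (hJ : DenseRange J) (hR : ∀ l : ℝ, 0 < l → DenseRange (l • J - B)) :
    ∃ (R P : ℝ → E →L[ℝ] E),
      (∀ l : ℝ, 0 < l → ∀ v, R l (l • J v - B v) = J v) ∧
      (∀ t, 0 ≤ t → ‖P t‖ ≤ 1) ∧ P 0 = 1 ∧
      (∀ s t, 0 ≤ s → 0 ≤ t → P (s + t) = (P t).comp (P s)) ∧
      (∀ x, Tendsto (fun t => P t x) (𝓝[>] 0) (𝓝 x)) ∧
      (∀ v, Tendsto (fun t : ℝ => t⁻¹ • (P t (J v) - J v)) (𝓝[>] 0) (𝓝 (B v))) ∧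
      (∀ C : Set E, IsClosed C → (0 : E) ∈ C → (∀ x ∈ C, ∀ y ∈ C, x + y ∈ C) →
        (∀ c : ℝ, 0 ≤ c → ∀ x ∈ C, c • x ∈ C) → (∀ l : ℝ, 0 < l → ∀ x ∈ C, R l x ∈ C) →
        ∀ t, 0 ≤ t → ∀ x ∈ C, P t x ∈ C) ∧
      (∀ f : E →L[ℝ] ℝ, (∀ v, f (B v) = 0) → ∀ t, 0 ≤ t → ∀ x, f (P t x) = f x) := by
  have hpos : ∀ n : ℕ, (0 : ℝ) < (n : ℝ) + 1 := fun n => by positivity
  obtain ⟨P, hP⟩ := yosP_exists hdiss hJ hR
  have hcon : ∀ n : ℕ, YosCon (yosA J B ((n : ℝ) + 1)) := fun n => yosA_con hdiss hR (hpos n)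
  have hPn : ∀ t, 0 ≤ t → ∀ x, ‖P t x‖ ≤ ‖x‖ := by
    intro t ht x
    exact le_of_tendsto (hP t ht x).norm (Eventually.of_forall fun n => hcon n t ht x)
  have hA := yosA_tendsto hdiss hJ hR
  -- the difference bound
  have hdiff : ∀ t, 0 ≤ t → ∀ v, ‖P t (J v) - J v‖ ≤ t * ‖B v‖ := by
    intro t ht v
    have h1 : Tendsto (fun n : ℕ => ‖exp (t • yosA J B ((n : ℝ) + 1)) (J v) - J v‖) atTop
        (𝓝 ‖P t (J v) - J v‖) := ((hP t ht (J v)).sub_const (J v)).norm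
    have h2 : Tendsto (fun n : ℕ => t * ‖yosA J B ((n : ℝ) + 1) (J v)‖) atTop
        (𝓝 (t * ‖B v‖)) := (hA v).norm.const_mul t
    refine le_of_tendsto_of_tendsto' h1 h2 fun n => ?_
    have h3 := yos_comp (Commute.zero_right _) (hcon n) yos_con_zero ht (J v)
    simpa using h3
  refine ⟨yosR J B, P, fun l hl v => yosR_eq hdiss hR hl v, ?_, ?_, ?_, ?_, ?_, ?_, ?_⟩
  · intro t ht
    exact ContinuousLinearMap.opNorm_le_bound _ zero_le_one fun x => by
      rw [one_mul]; exact hPn t ht x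
  · ext x
    have h := hP 0 le_rfl x
    simp only [zero_smul, exp_zero] at h
    exact tendsto_nhds_unique h tendsto_const_nhds
  · intro s t hs ht
    ext x
    have h1 := hP (s + t) (add_nonneg hs ht) x
    have h2 : Tendsto (fun n : ℕ => exp (t • yosA J B ((n : ℝ) + 1))
        (exp (s • yosA J B ((n : ℝ) + 1)) x)) atTop (𝓝 (P t (P s x))) := by
      have h3 := hP t ht (P s x)
      have h4 : Tendsto (fun n : ℕ => exp (t • yosA J B ((n : ℝ) + 1))
          (exp (s • yosA J B ((n : ℝ) + 1)) x - P s x)) atTop (𝓝 0) := by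
        have h5 : Tendsto (fun n : ℕ => ‖exp (s • yosA J B ((n : ℝ) + 1)) x - P s x‖) atTop
            (𝓝 0) := by
          have h6 := ((hP s hs x).sub_const (P s x)).norm
          simpa using h6
        exact squeeze_zero_norm (fun n => hcon n t ht _) h5
      have h7 := h4.add h3
      rw [zero_add] at h7
      refine h7.congr fun n => ?_
      rw [← map_add, sub_add_cancel]
    refine tendsto_nhds_unique h1 (h2.congr fun n => ?_)
    have h8 : exp ((s + t) • yosA J B ((n : ℝ) + 1))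
        = exp (t • yosA J B ((n : ℝ) + 1)) * exp (s • yosA J B ((n : ℝ) + 1)) := by
      rw [add_comm, add_smul]
      exact yos_exp_add (((Commute.refl _).smul_left _).smul_right _)
    rw [h8]
    rfl
  · intro x
    have h := yos_tendsto_zero (l := 𝓝[>] (0 : ℝ)) (J := J) (c := 2)
      (L := fun t : ℝ => P t - (1 : E →L[ℝ] E)) (by norm_num) ?_ hJ ?_ x
    · have h2 := h.add_const x
      rw [zero_add] at h2
      refine h2.congr ?_
      intro t
      simp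
    · filter_upwards [self_mem_nhdsWithin] with t ht y
      have h1 := hPn t (le_of_lt ht) y
      rw [sub_apply, one_apply_eq_self]
      refine (norm_sub_le _ _).trans ?_
      linarith
    · intro v
      have h3 : Tendsto (fun t : ℝ => t * ‖B v‖) (𝓝[>] 0) (𝓝 0) := by
        have h4 : Tendsto (fun t : ℝ => t * ‖B v‖) (𝓝 0) (𝓝 (0 * ‖B v‖)) :=
          (continuous_id.mul continuous_const).tendsto 0
        rw [zero_mul] at h4
        exact h4.mono_left nhdsWithin_le_nhds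
      refine squeeze_zero_norm' ?_ h3
      filter_upwards [self_mem_nhdsWithin] with t ht
      rw [sub_apply, one_apply_eq_self]
      exact hdiff t (le_of_lt ht) v
  · intro v
    rw [Metric.tendsto_nhds]
    intro e he
    obtain ⟨w, hw⟩ := Metric.denseRange_iff.1 hJ (B v) (e / 4) (by positivity)
    rw [dist_eq_norm] at hw
    have hbw : ∀ᶠ t : ℝ in 𝓝[>] 0, t * ‖B w‖ < e / 4 := by
      have h4 : Tendsto (fun t : ℝ => t * ‖B w‖) (𝓝 0) (𝓝 (0 * ‖B w‖)) :=
        (continuous_id.mul continuous_const).tendsto 0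
      rw [zero_mul] at h4
      exact (h4.mono_left nhdsWithin_le_nhds).eventually (gt_mem_nhds (by positivity))
    filter_upwards [self_mem_nhdsWithin, hbw] with t ht htw
    have ht0 : 0 < t := ht
    rw [dist_eq_norm]
    -- the Taylor bound
    have hT : ‖P t (J v) - J v - t • B v‖ ≤ (2 * (e / 4) + t * ‖B w‖) * t := by
      have h1 : Tendsto (fun n : ℕ => ‖exp (t • yosA J B ((n : ℝ) + 1)) (J v) - J v
          - t • yosA J B ((n : ℝ) + 1) (J v)‖) atTop
          (𝓝 ‖P t (J v) - J v - t • B v‖) :=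
        (((hP t ht0.le (J v)).sub_const (J v)).sub ((hA v).const_smul t)).norm
      have h2 : Tendsto (fun n : ℕ => (2 * ‖yosA J B ((n : ℝ) + 1) (J v) - J w‖
          + t * ‖yosA J B ((n : ℝ) + 1) (J w)‖) * t) atTop
          (𝓝 ((2 * ‖B v - J w‖ + t * ‖B w‖) * t)) :=
        (((((hA v).sub_const (J w)).norm.const_mul 2).add ((hA w).norm.const_mul t))).mul_const t
      have h3 : ‖P t (J v) - J v - t • B v‖ ≤ (2 * ‖B v - J w‖ + t * ‖B w‖) * t := by
        refine le_of_tendsto_of_tendsto' h1 h2 fun n => ?_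
        refine yos_taylor ht0.le (J v) _ ?_
        intro s hs hst
        set A := yosA J B ((n : ℝ) + 1) with hAdef
        have h4 : exp (s • A) (A (J v)) - A (J v)
            = exp (s • A) (A (J v) - J w) - (A (J v) - J w) + (exp (s • A) (J w) - J w) := by
          rw [map_sub]; abel
        have h5 := hcon n s hs (A (J v) - J w)
        have h6 := yos_comp (Commute.zero_right _) (hcon n) yos_con_zero hs (J w)
        simp only [smul_zero, exp_zero, one_apply_eq_self, zero_apply, sub_zero] at h6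
        rw [h4]
        refine (norm_add_le _ _).trans ?_
        have h7 := norm_sub_le (exp (s • A) (A (J v) - J w)) (A (J v) - J w)
        have h8 : s * ‖A (J w)‖ ≤ t * ‖A (J w)‖ :=
          mul_le_mul_of_nonneg_right hst (norm_nonneg _)
        linarith
      refine h3.trans ?_
      gcongr
    have h9 : t⁻¹ • (P t (J v) - J v) - B v = t⁻¹ • (P t (J v) - J v - t • B v) := by
      rw [smul_sub t⁻¹ (P t (J v) - J v), smul_smul, inv_mul_cancel₀ ht0.ne', one_smul]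
    rw [h9, norm_smul, norm_inv, Real.norm_of_nonneg ht0.le]
    calc t⁻¹ * ‖P t (J v) - J v - t • B v‖
        ≤ t⁻¹ * ((2 * (e / 4) + t * ‖B w‖) * t) :=
          mul_le_mul_of_nonneg_left hT (inv_nonneg.2 ht0.le)
      _ = 2 * (e / 4) + t * ‖B w‖ := by field_simp
      _ < e := by linarith
  · intro C hC h0 hadd hsm hRC t ht x hx
    refine hC.mem_of_tendsto (hP t ht x) (Eventually.of_forall fun n => ?_)
    rw [yosA_exp]
    exact hsm _ (Real.exp_pos _).le _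
      (yos_exp_cone hC h0 hadd hsm (hRC _ (hpos n)) (by positivity) hx)
  · intro f hf t ht x
    have h1 := (f.continuous.tendsto (P t x)).comp (hP t ht x)
    refine tendsto_nhds_unique h1 ?_
    have h2 : (f ∘ fun n : ℕ => exp (t • yosA J B ((n : ℝ) + 1)) x) = fun _ => f x := by
      funext n
      refine yos_exp_functional _ f ?_ x
      intro z
      simp [yosA_functional hdiss hR f hf (hpos n) z]
    rw [h2]
    exact tendsto_const_nhds

end YosMain

end Pool.Agent.Work.MP_b687c6_pr
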