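import Pool.Agent.Work.MP_b687c6_pr.Lim
import Pool.Agent.Work.MP_b687c6_pr.Back
import Pool.Agent.Work.MP_b687c6_pr.Dens
import Pool.Agent.Work.MP_b687c6_pr.Yosida
import Pool.Agent.Work.MP_b687c6_pr.Anal

/-! From a good matrix to a semigroup. -/

namespace Pool.Agent.Work.MP_b687c6_pr

open Filter Topology

lemma massF_ext {S : Type*} [DecidableEq S] (f : E1 S →L[ℝ] ℝ)
    (h : ∀ i, f (ee i) = 1) (x : E1 S) : f x = massF x := by
  have h1 := (hasSum_ee x).mapL f
  have h2 := (hasSum_ee x).mapL (massF (S := S))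
  refine h1.unique ?_
  convert h2 using 2 with i
  rw [map_smul, map_smul, h, massF_ee]

/-- The kernel of a semigroup on `ℓ¹` is a standard semigroup. -/
theorem op_standard {S : Type*} [DecidableEq S] {P : ℝ → E1 S →L[ℝ] E1 S} (hP : Semi P) :
    IsStandard (fun i j t => P t (ee i) j) := by
  have hee : ∀ i j : S, (0 : ℝ) ≤ (ee i : E1 S) j := by
    intro i j
    rw [ee_apply]
    split_ifs <;> norm_num
  refine ⟨fun i j t ht => hP.pos t ht _ (hee i) j, fun i t _ => summable_coe _, ?_, ?_, ?_⟩
  · intro i t ht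
    have h1 := massF_of_nonneg (hP.pos t ht _ (hee i))
    rw [massF_apply] at h1
    rw [h1]
    exact (hP.contr t ht _).trans (norm_ee i).le
  · intro i j s t hs ht
    have h1 := hP.add s t hs ht (ee i)
    change P (s + t) (ee i) j = _
    rw [h1]
    have h2 := ((hasSum_ee (P s (ee i))).mapL (P t)).mapL (coordF j)
    rw [coordF_apply] at h2
    rw [← h2.tsum_eq]
    refine tsum_congr fun k => ?_
    rw [map_smul, map_smul, coordF_apply, smul_eq_mul]
  · intro i j
    have h1 := ((coordF j).continuous.tendsto _).comp (hP.cont (ee i))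
    rw [coordF_apply, ee_apply] at h1
    exact h1

lemma cont_of_standard {S : Type} [DecidableEq S] {p : S → S → ℝ → ℝ} (hp : IsStandard p)
    (i j : S) : ContinuousOn (fun t => p i j t) (Set.Ioi 0) := by
  have h1 := p_cont hp i j
  rw [continuousOn_iff_continuous_restrict]
  have h2 : Continuous fun t : Set.Ioi (0 : ℝ) => (⟨(t : ℝ), le_of_lt t.2⟩ : NNReal) := by
    fun_prop
  exact h1.comp h2

theorem build (R : ℕ → ℕ → ℝ) (hR : GoodR R) :
    ∃ (P : ℝ → E1 ℕ →L[ℝ] E1 ℕ) (G : E1 ℕ →L[ℝ] E1 ℕ), Semi P ∧ IsRes P 1 G ∧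
      (∀ i j, G (ee i) j = R i j) ∧
      ((∀ i, ∑' j, R i j = 1) → ∀ t, 0 ≤ t → ∀ x, massF (P t x) = massF x) := by
  obtain ⟨G, hG, hpos, hdense⟩ := back_op R hR
  set J : E1 ℕ →ₗ[ℝ] E1 ℕ := G.toLinearMap with hJ
  set B : E1 ℕ →ₗ[ℝ] E1 ℕ := G.toLinearMap - LinearMap.id with hB
  have hBz : ∀ z, B z = G z - z := fun z => rfl
  have hdiss : ∀ l : ℝ, 0 < l → ∀ v, l * ‖J v‖ ≤ ‖l • J v - B v‖ := by
    intro l hl v
    have h1 := hpos l hl v
    have h2 := hpos l hl (-v)
    have h3 : l • G (-v) - (G (-v) - -v) = -(l • G v - (G v - v)) := by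
      rw [map_neg, smul_neg]; abel
    rw [h3, map_neg] at h2
    change l * ‖G v‖ ≤ ‖l • G v - (G v - v)‖
    rw [norm_eq_pos, norm_eq_pos (l • G v - (G v - v))]
    linarith
  have hJB : J - B = LinearMap.id := by
    rw [hJ, hB, sub_sub_cancel]
  have h1 : DenseRange (J - B) := by
    rw [hJB]
    exact Function.Surjective.denseRange fun x => ⟨x, rfl⟩
  have hRd : ∀ l : ℝ, 0 < l → DenseRange (l • J - B) := fun l hl =>
    denseRange_all J B hdiss h1 l hl
  obtain ⟨Rl, P, hRJ, hP1, hP0, hPadd, hPcont, hPder, hPcone, hPmass⟩ :=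
    exists_semigroup J B hdiss hdense hRd
  have hPpos : ∀ t, 0 ≤ t → ∀ x : E1 ℕ, (∀ i, 0 ≤ x i) → ∀ i, 0 ≤ P t x i := by
    intro t ht x hx
    refine hPcone {x : E1 ℕ | ∀ i, 0 ≤ x i} ?_ ?_ ?_ ?_ ?_ t ht x hx
    · have : {x : E1 ℕ | ∀ i, 0 ≤ x i} = ⋂ i, {x : E1 ℕ | 0 ≤ coordF i x} := by
        ext x
        simp [coordF_apply]
      rw [this]
      exact isClosed_iInter fun i => isClosed_le continuous_const (coordF i).continuous
    · intro i
      simp
    · intro x hx y hy i
      rw [lp.coeFn_add, Pi.add_apply]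
      exact add_nonneg (hx i) (hy i)
    · intro c hc x hx i
      rw [lp.coeFn_smul, Pi.smul_apply, smul_eq_mul]
      exact mul_nonneg hc (hx i)
    · intro l hl x hx i
      have key : ∀ z : E1 ℕ, -(l⁻¹ * ‖z - x‖) ≤ coordF i (Rl l z) := by
        intro z
        refine (hRd l hl).induction_on
          (p := fun z => -(l⁻¹ * ‖z - x‖) ≤ coordF i (Rl l z)) z ?_ ?_
        · refine isClosed_le ?_ ?_
          · fun_prop
          · exact (coordF i).continuous.comp (Rl l).continuous
        · intro v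
          have h1 : (l • J - B) v = l • J v - B v := rfl
          rw [h1, hRJ l hl v, coordF_apply]
          have h2 := hpos l hl (-v)
          have h3 : l • G (-v) - (G (-v) - -v) = -(l • J v - B v) := by
            change l • G (-v) - (G (-v) - -v) = -(l • G v - (G v - v))
            rw [map_neg, smul_neg]; abel
          rw [h3, map_neg] at h2
          have h4 : pos (-(l • J v - B v)) ≤ ‖l • J v - B v - x‖ := by
            rw [norm_eq_tsum, pos]
            refine (summable_pos _).tsum_le_tsum (fun j => ?_) (summable_abs _)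
            rw [lp.coeFn_neg, Pi.neg_apply, lp.coeFn_sub _ x, Pi.sub_apply]
            refine max_le ?_ (abs_nonneg _)
            rw [abs_sub_comm]
            exact (by linarith [hx j] : _ ≤ x j - (l • J v - B v) j).trans (le_abs_self _)
          have h5 := le_pos (-G v) i
          rw [lp.coeFn_neg, Pi.neg_apply] at h5
          have h6 : pos (-G v) ≤ l⁻¹ * ‖l • J v - B v - x‖ := by
            rw [inv_mul_eq_div, le_div_iff₀ hl, mul_comm]
            exact h2.trans h4
          change -(l⁻¹ * ‖l • J v - B v - x‖) ≤ G v i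
          linarith
      have := key x
      rw [sub_self, norm_zero, mul_zero, neg_zero] at this
      exact this
  refine ⟨P, G, ⟨fun t ht x => ?_, hPpos, fun x => by rw [hP0]; rfl, fun s t hs ht x => ?_,
    hPcont⟩, fun z => ?_, hG, fun hsum t ht x => ?_⟩
  · refine ((P t).le_opNorm x).trans ?_
    exact mul_le_of_le_one_left (norm_nonneg _) (hP1 t ht)
  · rw [hPadd s t hs ht]
    rfl
  · have := hPder z
    rw [one_smul]
    exact this
  · refine hPmass massF (fun v => ?_) t ht x
    rw [hBz, map_sub]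
    have h2 : ∀ z, (massF.comp G) z = massF z := by
      refine massF_ext _ fun i => ?_
      rw [ContinuousLinearMap.comp_apply, massF_apply, ← hsum i]
      exact tsum_congr fun j => hG i j
    have h3 := h2 v
    rw [ContinuousLinearMap.comp_apply] at h3
    rw [h3, sub_self]

end Pool.Agent.Work.MP_b687c6_pr
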