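import Pool.Agent.Work.MP_b687c6_pr.Prin

/-! Potential calculus for the resolvent of a positive contraction semigroup on `ℓ¹`. -/

namespace Pool.Agent.Work.MP_b687c6_pr

open Filter Topology

variable {S : Type*} [DecidableEq S]

/-- `z` is supported in `K`. -/
def Supp (K : Finset S) (z : E1 S) : Prop := ∀ i, i ∉ K → z i = 0

/-- `R` is the resolvent at `l`. -/
def IsRes (P : ℝ → E1 S →L[ℝ] E1 S) (l : ℝ) (R : E1 S →L[ℝ] E1 S) : Prop :=
  ∀ z, IsGen P (R z) (l • R z - z)

section
variable {P : ℝ → E1 S →L[ℝ] E1 S} (hP : Semi P) {l : ℝ} (hl : 0 < l) {R : E1 S →L[ℝ] E1 S}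
  (hR : IsRes P l R)

include hP hl hR

/-- Domination principle: if the charge is nonnegative off `K` and the potential is nonnegative
on `K`, the potential is nonnegative. -/
theorem calc_dom {K : Finset S} {z : E1 S} (hz : ∀ i, i ∉ K → 0 ≤ z i)
    (h : ∀ k ∈ K, 0 ≤ R z k) (i : S) : 0 ≤ R z i := by
  classical
  by_contra hi
  push Not at hi
  let g : S → ℝ := fun i => if 0 < (R (-z)) i then 1 else 0
  have hg : ∀ i, |g i| ≤ 1 := by
    intro i
    simp only [g]
    split_ifs <;> simp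
  have h1 := prin_neg hP (hR (-z)) g hg fun i => rfl
  have hneg : ∀ j, (R (-z)) j = -(R z j) := by
    intro j
    rw [map_neg, lp.coeFn_neg, Pi.neg_apply]
  have h2 : ∀ j, 0 ≤ g j * (l • R (-z) - (-z)) j := by
    intro j
    simp only [g]
    split_ifs with hj
    · rw [one_mul, lp.coeFn_sub, Pi.sub_apply, lp.coeFn_smul, Pi.smul_apply, lp.coeFn_neg,
        Pi.neg_apply, smul_eq_mul]
      have hjK : j ∉ K := by
        intro hk
        have := h j hk
        rw [hneg] at hj
        linarith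
      have := hz j hjK
      have := mul_pos hl hj
      linarith
    · rw [zero_mul]
  have h3 : 0 < g i * (l • R (-z) - (-z)) i := by
    have hi' : 0 < (R (-z)) i := by rw [hneg]; linarith
    have hiK : i ∉ K := fun hk => absurd (h i hk) (not_le.2 hi)
    simp only [g]
    rw [if_pos hi', one_mul, lp.coeFn_sub, Pi.sub_apply, lp.coeFn_smul, Pi.smul_apply,
      lp.coeFn_neg, Pi.neg_apply, smul_eq_mul]
    have := hz i hiK
    have := mul_pos hl hi'
    linarith
  have hsum : Summable fun j => g j * (l • R (-z) - (-z)) j :=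
    Summable.of_norm_bounded (summable_abs (l • R (-z) - (-z))) fun j => by
      rw [Real.norm_eq_abs, abs_mul]
      exact mul_le_of_le_one_left (abs_nonneg _) (hg j)
  have h4 := hsum.tsum_pos h2 i h3
  rw [Gf_apply] at h1
  linarith

theorem calc_inj {K : Finset S} {z : E1 S} (hz : Supp K z) (h : ∀ k ∈ K, R z k = 0) :
    z = 0 := by
  have h1 : ∀ i, 0 ≤ R z i :=
    calc_dom hP hl hR (fun i hi => (hz i hi).ge) fun k hk => (h k hk).ge
  have h2 : ∀ i, 0 ≤ R (-z) i := by
    refine calc_dom hP hl hR (K := K) (fun i hi => ?_) fun k hk => ?_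
    · rw [lp.coeFn_neg, Pi.neg_apply, hz i hi, neg_zero]
    · rw [map_neg, lp.coeFn_neg, Pi.neg_apply, h k hk, neg_zero]
  have h3 : R z = 0 := by
    ext i
    have := h2 i
    rw [map_neg, lp.coeFn_neg, Pi.neg_apply] at this
    have h0 : (0 : E1 S) i = 0 := rfl
    rw [h0]
    exact le_antisymm (by linarith) (h1 i)
  have h4 := hR z
  rw [h3] at h4
  have h5 : Tendsto (fun t : ℝ => t⁻¹ • (P t (0 : E1 S) - 0)) (𝓝[>] 0) (𝓝 0) := by
    refine tendsto_const_nhds.congr fun t => ?_
    simp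
  have h6 := tendsto_nhds_unique h4 h5
  simpa using h6

/-- Any values on `K` are the values of the potential of a charge supported in `K`. -/
theorem calc_exists (K : Finset S) (f : S → ℝ) :
    ∃ z : E1 S, Supp K z ∧ ∀ k ∈ K, R z k = f k := by
  classical
  let emb : (K → ℝ) →ₗ[ℝ] E1 S :=
    { toFun := fun c => ∑ k : K, c k • (ee (k : S) : E1 S)
      map_add' := fun c d => by simp [add_smul, Finset.sum_add_distrib]
      map_smul' := fun a c => by simp [mul_smul, Finset.smul_sum] }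
  have hemb : ∀ c, ∀ i, emb c i = if h : i ∈ K then c ⟨i, h⟩ else 0 := by
    intro c i
    change (∑ k : K, c k • (ee (k : S) : E1 S) : E1 S) i = _
    rw [← coordF_apply, map_sum]
    simp only [map_smul, coordF_apply, ee_apply, smul_eq_mul, mul_ite, mul_one, mul_zero]
    by_cases h : i ∈ K
    · rw [dif_pos h, Finset.sum_eq_single ⟨i, h⟩]
      · simp
      · intro k _ hk
        rw [if_neg]
        intro h'
        exact hk (Subtype.ext h')
      · intro h'
        exact absurd (Finset.mem_univ _) h'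
    · rw [dif_neg h]
      refine Finset.sum_eq_zero fun k _ => ?_
      rw [if_neg]
      intro h'
      exact h (h' ▸ k.2)
  have hsupp : ∀ c, Supp K (emb c) := fun c i hi => by rw [hemb, dif_neg hi]
  let L : (K → ℝ) →ₗ[ℝ] (K → ℝ) :=
    { toFun := fun c k => R (emb c) k
      map_add' := fun c d => by
        ext k
        simp only [map_add, Pi.add_apply, lp.coeFn_add]
      map_smul' := fun a c => by
        ext k
        simp only [map_smul, Pi.smul_apply, lp.coeFn_smul, RingHom.id_apply] }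
  have hinj : Function.Injective L := by
    rw [injective_iff_map_eq_zero]
    intro c hc
    have h1 : emb c = 0 := by
      refine calc_inj hP hl hR (hsupp c) fun k hk => ?_
      exact congrFun hc ⟨k, hk⟩
    ext k
    have := hemb c k
    rw [h1, dif_pos k.2] at this
    simpa using this.symm
  have hsurj : Function.Surjective L := LinearMap.injective_iff_surjective.1 hinj
  obtain ⟨c, hc⟩ := hsurj fun k => f k
  exact ⟨emb c, hsupp c, fun k hk => congrFun hc ⟨k, hk⟩⟩

/-- Signs of the equilibrium charges. -/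
theorem calc_sign {K : Finset S} {z : E1 S} (hz : Supp K z) {i : S} (hi : i ∈ K)
    (h : ∀ k ∈ K, R z k = if i = k then 1 else 0) :
    (∀ j, j ≠ i → z j ≤ 0) ∧ l ≤ massF z := by
  have hpos : ∀ j, 0 ≤ R z j := by
    refine calc_dom hP hl hR (fun i hi => (hz i hi).ge) fun k hk => ?_
    rw [h k hk]
    split_ifs <;> norm_num
  constructor
  · intro j hj
    by_cases hjK : j ∈ K
    · have h1 : R z j = 0 := by rw [h j hjK, if_neg (Ne.symm hj)]
      have h2 := prin_min hP (hR z) hpos h1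
      rw [lp.coeFn_sub, Pi.sub_apply, lp.coeFn_smul, Pi.smul_apply, h1, smul_zero, zero_sub] at h2
      linarith
    · exact (hz j hjK).le
  · have h1 := prin_mass hP (hR z) hpos
    rw [map_sub, map_smul, smul_eq_mul] at h1
    have h2 : 1 ≤ massF (R z) := by
      rw [massF_of_nonneg hpos]
      have h3 := lp.norm_apply_le_norm (p := 1) (by norm_num) (R z) i
      rw [h i hi, if_pos rfl] at h3
      simpa using h3
    nlinarith

/-- Monotonicity in the finite set. -/
theorem calc_mono {K₀ K : Finset S} (hK : K₀ ⊆ K) {z₀ z : E1 S} (hz₀ : Supp K₀ z₀)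
    (hz : Supp K z) {i : S} (h₀ : ∀ k ∈ K₀, R z₀ k = if i = k then 1 else 0)
    (h : ∀ k ∈ K, R z k = if i = k then 1 else 0) (hi : i ∈ K₀) :
    (∀ j, R z j ≤ R z₀ j) ∧ ∀ j ∈ K₀, z₀ j ≤ z j := by
  have hpos₀ : ∀ j, 0 ≤ R z₀ j := by
    refine calc_dom hP hl hR (fun i hi => (hz₀ i hi).ge) fun k hk => ?_
    rw [h₀ k hk]
    split_ifs <;> norm_num
  have hD : ∀ j, 0 ≤ R (z₀ - z) j := by
    refine calc_dom hP hl hR (K := K) (fun j hj => ?_) fun k hk => ?_
    · rw [lp.coeFn_sub, Pi.sub_apply, hz j hj, hz₀ j fun h' => hj (hK h'), sub_zero]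
    · rw [map_sub, lp.coeFn_sub, Pi.sub_apply, h k hk]
      by_cases hik : i = k
      · subst hik
        rw [h₀ i hi]
        simp
      · rw [if_neg hik, sub_zero]
        exact hpos₀ k
  refine ⟨fun j => ?_, fun j hj => ?_⟩
  · have := hD j
    rw [map_sub, lp.coeFn_sub, Pi.sub_apply] at this
    linarith
  · have h1 : R (z₀ - z) j = 0 := by
      rw [map_sub, lp.coeFn_sub, Pi.sub_apply, h j (hK hj), h₀ j hj, sub_self]
    have h2 := prin_min hP (hR (z₀ - z)) hD h1
    rw [lp.coeFn_sub, Pi.sub_apply, lp.coeFn_smul, Pi.smul_apply, h1, smul_zero, zero_sub,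
      lp.coeFn_sub, Pi.sub_apply] at h2
    linarith

/-- Sweeping a nonnegative vector vanishing on `K` onto `K`. -/
theorem calc_sweep (K : Finset S) {v : E1 S} (hv : ∀ i, 0 ≤ v i) (hvK : ∀ k ∈ K, v k = 0) :
    ∃ H : E1 S, Supp K H ∧ (∀ k, 0 ≤ H k) ∧ massF H ≤ massF v ∧ ∀ k ∈ K, R H k = R v k := by
  obtain ⟨H, hH, hHv⟩ := calc_exists hP hl hR K fun k => R v k
  have hu : ∀ i, 0 ≤ R (v - H) i := by
    refine calc_dom hP hl hR (K := K) (fun i hi => ?_) fun k hk => ?_
    · rw [lp.coeFn_sub, Pi.sub_apply, hH i hi, sub_zero]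
      exact hv i
    · rw [map_sub, lp.coeFn_sub, Pi.sub_apply, hHv k hk, sub_self]
  refine ⟨H, hH, fun k => ?_, ?_, hHv⟩
  · by_cases hk : k ∈ K
    · have h1 : R (v - H) k = 0 := by
        rw [map_sub, lp.coeFn_sub, Pi.sub_apply, hHv k hk, sub_self]
      have h2 := prin_min hP (hR (v - H)) hu h1
      rw [lp.coeFn_sub, Pi.sub_apply, lp.coeFn_smul, Pi.smul_apply, h1, smul_zero, zero_sub,
        lp.coeFn_sub, Pi.sub_apply, hvK k hk] at h2
      linarith
    · exact (hH k hk).ge
  · have h1 := prin_mass hP (hR (v - H)) hu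
    rw [map_sub massF, map_smul massF, map_sub massF v H, smul_eq_mul] at h1
    have h2 : 0 ≤ massF (R (v - H)) := by
      rw [massF_of_nonneg hu]
      exact norm_nonneg _
    nlinarith

end

/-- Comparison of the equilibrium charges for two resolvents. -/
theorem calc_comp {P : ℝ → E1 S →L[ℝ] E1 S} (hP : Semi P) {m l : ℝ} (hm : 0 < m) (hml : m ≤ l)
    {R₁ R : E1 S →L[ℝ] E1 S} (hR₁ : IsRes P m R₁) (hR : IsRes P l R)
    (hres : ∀ z, R₁ z = R (z + (l - m) • R₁ z)) {K : Finset S} {z₁ z : E1 S} (hz₁ : Supp K z₁)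
    (hz : Supp K z) {i : S} (hi : i ∈ K) (h₁ : ∀ k ∈ K, R₁ z₁ k = if i = k then 1 else 0)
    (h : ∀ k ∈ K, R z k = if i = k then 1 else 0) (j : S) :
    z j ≤ z₁ j + (l - m) * (if i = j then 1 else 0) + (l - m) * ‖R₁ z₁ - ee i‖ := by
  have hl : 0 < l := lt_of_lt_of_le hm hml
  set v : E1 S := R₁ z₁ - ee i with hv
  have hpos : ∀ j, 0 ≤ R₁ z₁ j := by
    refine calc_dom hP hm hR₁ (fun i hi => (hz₁ i hi).ge) fun k hk => ?_
    rw [h₁ k hk]
    split_ifs <;> norm_num
  have hvK : ∀ k ∈ K, v k = 0 := by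
    intro k hk
    rw [hv, lp.coeFn_sub, Pi.sub_apply, ee_apply, h₁ k hk, sub_self]
  have hv0 : ∀ j, 0 ≤ v j := by
    intro j
    by_cases hj : j ∈ K
    · exact (hvK j hj).ge
    · rw [hv, lp.coeFn_sub, Pi.sub_apply, ee_apply, if_neg, sub_zero]
      · exact hpos j
      · intro h'
        exact hj (h' ▸ hi)
  obtain ⟨H, hH, hH0, hHm, hHR⟩ := calc_sweep hP hl hR K hv0 hvK
  have key : z - (z₁ + (l - m) • (ee i : E1 S) + (l - m) • H) = 0 := by
    refine calc_inj hP hl hR (K := K) (fun k hk => ?_) fun k hk => ?_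
    · rw [lp.coeFn_sub, Pi.sub_apply, lp.coeFn_add, Pi.add_apply, lp.coeFn_add, Pi.add_apply,
        lp.coeFn_smul, Pi.smul_apply, lp.coeFn_smul, Pi.smul_apply, hz k hk, hz₁ k hk, hH k hk,
        ee_apply, if_neg (fun h' : i = k => hk (h' ▸ hi))]
      simp
    · have e1 : R (z₁ + (l - m) • (ee i : E1 S) + (l - m) • H) k = R₁ z₁ k := by
        rw [hres z₁]
        have e2 : z₁ + (l - m) • R₁ z₁ = z₁ + (l - m) • (ee i : E1 S) + (l - m) • v := by
          rw [hv, smul_sub]
          abel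
        rw [e2, map_add, map_add R _ ((l - m) • v), lp.coeFn_add, Pi.add_apply, lp.coeFn_add,
          Pi.add_apply, map_smul R _ H, map_smul R _ v, lp.coeFn_smul, Pi.smul_apply,
          lp.coeFn_smul, Pi.smul_apply, hHR k hk]
      rw [map_sub, lp.coeFn_sub, Pi.sub_apply, e1, h k hk, h₁ k hk, sub_self]
  have h3 := congrArg (fun w : E1 S => w j) (sub_eq_zero.1 key)
  simp only [lp.coeFn_add, Pi.add_apply, lp.coeFn_smul, Pi.smul_apply, smul_eq_mul,
    ee_apply] at h3
  have h4 : H j ≤ ‖v‖ := by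
    have h5 : H j ≤ ‖H‖ := by
      have := lp.norm_apply_le_norm (p := 1) (by norm_num) H j
      exact (le_abs_self _).trans this
    rw [← massF_of_nonneg hH0] at h5
    rw [← massF_of_nonneg hv0]
    exact h5.trans hHm
  rw [h3]
  have := mul_le_mul_of_nonneg_left h4 (sub_nonneg.2 hml)
  linarith

end Pool.Agent.Work.MP_b687c6_pr
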