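import Pool.Agent.Work.MP_b687c6_pr.L1

/-! The generator of the chain attached to a branch: the invariant measure, the two linear maps
`J`, `B` and the dispersive inequality. -/

namespace Pool.Agent.Work.MP_b687c6_pr

open Filter Topology

lemma bl_length (y : ℕ → ℕ) (n : ℕ) : (bl y n).length = n := by
  induction n with
  | zero => rfl
  | succ n ih => simp [bl, ih]

lemma rate_pos (k : ℕ × List ℕ) : 0 < rate k := by unfold rate; positivity

open Classical in
/-- The invariant measure. -/
noncomputable def piFun (y : ℕ → ℕ) : St → ℝ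
  | none => 1
  | some k => if k.2 = bl y k.2.length then (rate k)⁻¹ else 0

lemma piFun_nonneg (y : ℕ → ℕ) (i : St) : 0 ≤ piFun y i := by
  rcases i with _ | k
  · simp [piFun]
  · simp only [piFun]
    split_ifs
    · exact (inv_pos.2 (rate_pos k)).le
    · exact le_rfl

lemma piFun_bl (y : ℕ → ℕ) (n j : ℕ) : piFun y (some (n, bl y j)) = (2 ^ (n + j) : ℝ)⁻¹ := by
  simp [piFun, rate, bl_length]

lemma summable_piFun (y : ℕ → ℕ) : Summable (piFun y) := by
  have h1 : Summable fun a : ℕ × ℕ => piFun y (some (a.1, bl y a.2)) := by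
    have h := (summable_geometric_two).mul_of_nonneg summable_geometric_two
      (fun _ => by positivity) (fun _ => by positivity)
    refine h.congr fun a => ?_
    rw [piFun_bl, pow_add, mul_inv, one_div, inv_pow, inv_pow]
  have h2 : Summable fun k : ℕ × List ℕ => piFun y (some k) := by
    have hinj : Function.Injective fun a : ℕ × ℕ => (a.1, bl y a.2) := by
      rintro ⟨n, i⟩ ⟨m, j⟩ h
      simp only [Prod.mk.injEq] at h
      obtain ⟨rfl, h⟩ := h
      have := congrArg List.length h
      rw [bl_length, bl_length] at this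
      rw [this]
    refine (hinj.summable_iff ?_).1 h1
    rintro ⟨n, s⟩ hs
    simp only [piFun]
    rw [if_neg]
    intro h
    exact hs ⟨(n, s.length), by
      change (n, bl y s.length) = (n, s)
      rw [← h]⟩
  have h3 : Summable fun i : St => if i = none then (1 : ℝ) else 0 :=
    summable_of_ne_finset_zero (s := {none}) (by
      intro i hi
      rw [if_neg (by simpa using hi)])
  have h4 : Summable fun i : St => if i = none then (0 : ℝ) else piFun y i := by
    refine ((Option.some_injective _).summable_iff ?_).1 ?_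
    · intro i hi
      rcases i with _ | k
      · simp
      · exact absurd ⟨k, rfl⟩ hi
    · simpa [Function.comp_def] using h2
  refine (h3.add h4).congr fun i => ?_
  rcases i with _ | k <;> simp [piFun]

/-- The invariant measure as a vector of `ℓ¹`. -/
noncomputable def pv (y : ℕ → ℕ) : E1 St :=
  ⟨piFun y, by
    refine memℓp_gen ?_
    simpa using (summable_piFun y).abs⟩

lemma pv_apply (y : ℕ → ℕ) (i : St) : pv y i = piFun y i := rfl

/-- Parameter space. -/
abbrev VV := ℝ × ((ℕ × List ℕ) →₀ ℝ)

open Classical in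
/-- The generator on unit vectors. -/
noncomputable def bb (T : Set (List ℕ)) (k : ℕ × List ℕ) : E1 St :=
  if k.2 ∈ T then rate k • (ee (nxt k) - ee (some k)) else 0

/-- `(α, u) ↦ α π + u`. -/
noncomputable def JJ (y : ℕ → ℕ) : VV →ₗ[ℝ] E1 St :=
  (LinearMap.toSpanSingleton ℝ (E1 St) (pv y)).comp (LinearMap.fst ℝ ℝ _) +
    (Finsupp.linearCombination ℝ (fun k : ℕ × List ℕ => (ee (some k) : E1 St))).comp
      (LinearMap.snd ℝ ℝ _)

/-- The generator. -/
noncomputable def BB (T : Set (List ℕ)) : VV →ₗ[ℝ] E1 St :=
  (Finsupp.linearCombination ℝ (bb T)).comp (LinearMap.snd ℝ ℝ _)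

lemma JJ_apply (y : ℕ → ℕ) (a : ℝ) (u : (ℕ × List ℕ) →₀ ℝ) :
    JJ y (a, u) = a • pv y + u.sum fun k c => c • (ee (some k) : E1 St) := by
  simp [JJ, Finsupp.linearCombination_apply]

lemma BB_apply (T : Set (List ℕ)) (a : ℝ) (u : (ℕ × List ℕ) →₀ ℝ) :
    BB T (a, u) = u.sum fun k c => c • bb T k := by
  simp [BB, Finsupp.linearCombination_apply]

lemma JJ_none (y : ℕ → ℕ) (a : ℝ) (u : (ℕ × List ℕ) →₀ ℝ) : JJ y (a, u) none = a := by
  rw [← coordF_apply, JJ_apply, map_add, map_smul, Finsupp.sum, map_sum, coordF_apply, pv_apply]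
  simp only [map_smul, coordF_apply, ee_apply]
  simp [piFun]

lemma JJ_some (y : ℕ → ℕ) (a : ℝ) (u : (ℕ × List ℕ) →₀ ℝ) (k : ℕ × List ℕ) :
    JJ y (a, u) (some k) = a * piFun y (some k) + u k := by
  rw [← coordF_apply, JJ_apply, map_add, map_smul, Finsupp.sum, map_sum, coordF_apply, pv_apply]
  simp only [map_smul, coordF_apply, ee_apply, smul_eq_mul, Option.some.injEq]
  congr 1
  rw [Finset.sum_eq_single k]
  · simp
  · intro j _ hj
    simp [hj]
  · intro hk
    simp [Finsupp.notMem_support_iff.1 hk]

/-- The dispersive inequality. -/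
lemma disp (T : Set (List ℕ)) (y : ℕ → ℕ) (hy : ∀ n, bl y n ∈ T) (v : VV)
    (g : St → ℝ) (hg : ∀ i, |g i| ≤ 1) (hgx : ∀ i, g i = if 0 < JJ y v i then 1 else 0) :
    Gf g hg (BB T v) ≤ 0 := by
  classical
  obtain ⟨a, u⟩ := v
  -- rates
  let t : ℕ × List ℕ → ℝ := fun k => if k.2 ∈ T then rate k else 0
  have ht : ∀ k, 0 ≤ t k := by
    intro k
    simp only [t]
    split_ifs
    · exact (rate_pos k).le
    · exact le_rfl
  let d : ℕ × List ℕ → ℝ := fun k => g (nxt k) - g (some k)
  have hbb : ∀ k, Gf g hg (bb T k) = t k * d k := by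
    intro k
    simp only [bb, t, d]
    split_ifs
    · rw [map_smul, map_sub, Gf_ee, Gf_ee, smul_eq_mul]
    · simp
  -- a large grid of branch nodes
  obtain ⟨N, hN⟩ : ∃ N, ∀ k ∈ u.support, k.1 < N := by
    refine ⟨(u.support.sup fun k => k.1) + 1, fun k hk => ?_⟩
    exact Nat.lt_succ_of_le (Finset.le_sup (f := fun k : ℕ × List ℕ => k.1) hk)
  obtain ⟨M, hM⟩ : ∃ M, ∀ k ∈ u.support, k.2.length < M := by
    refine ⟨(u.support.sup fun k => k.2.length) + 1, fun k hk => ?_⟩
    exact Nat.lt_succ_of_le (Finset.le_sup (f := fun k : ℕ × List ℕ => k.2.length) hk)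
  let br : ℕ × ℕ → ℕ × List ℕ := fun a => (a.1, bl y a.2)
  have hbr : Function.Injective br := by
    rintro ⟨n, i⟩ ⟨m, j⟩ h
    simp only [br, Prod.mk.injEq] at h
    obtain ⟨rfl, h⟩ := h
    have := congrArg List.length h
    rw [bl_length, bl_length] at this
    rw [this]
  let G : Finset (ℕ × List ℕ) := (Finset.range N ×ˢ Finset.range (M + 1)).image br
  let K : Finset (ℕ × List ℕ) := u.support ∪ G
  have h1 : Gf g hg (BB T (a, u)) = ∑ k ∈ K, u k * (t k * d k) := by
    rw [BB_apply, Finsupp.sum, map_sum]
    refine (Finset.sum_congr rfl fun k _ => ?_).trans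
      (Finset.sum_subset Finset.subset_union_left ?_)
    · rw [map_smul, hbb, smul_eq_mul]
    · intro k _ hk
      rw [Finsupp.notMem_support_iff.1 hk, zero_mul]
  have h2 : ∀ k, u k * (t k * d k) =
      JJ y (a, u) (some k) * (t k * d k) - a * (piFun y (some k) * t k * d k) := by
    intro k
    rw [JJ_some]
    ring
  have h3 : ∀ k, JJ y (a, u) (some k) * (t k * d k) ≤ 0 := by
    intro k
    have hgk := hgx (some k)
    have hgn := hgx (nxt k)
    by_cases h : 0 < JJ y (a, u) (some k)
    · rw [if_pos h] at hgk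
      have : d k ≤ 0 := by
        simp only [d]
        rw [hgk, hgn]
        split_ifs <;> norm_num
      exact mul_nonpos_of_nonneg_of_nonpos h.le (mul_nonpos_of_nonneg_of_nonpos (ht k) this)
    · rw [if_neg h] at hgk
      have : 0 ≤ d k := by
        simp only [d]
        rw [hgk, hgn]
        split_ifs <;> norm_num
      exact mul_nonpos_of_nonpos_of_nonneg (not_lt.1 h) (mul_nonneg (ht k) this)
  have h4 : a * ∑ k ∈ K, piFun y (some k) * t k * d k = 0 := by
    have h5 : ∑ k ∈ K, piFun y (some k) * t k * d k = ∑ k ∈ G, d k := by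
      rw [← Finset.sum_subset (Finset.subset_union_right : G ⊆ K)]
      · refine Finset.sum_congr rfl fun k hk => ?_
        obtain ⟨⟨n, j⟩, _, rfl⟩ := Finset.mem_image.1 hk
        have h6 : piFun y (some (br (n, j))) * t (br (n, j)) = 1 := by
          simp only [br, t, if_pos (hy j), piFun, bl_length, if_true]
          exact inv_mul_cancel₀ (rate_pos _).ne'
        rw [h6, one_mul]
      · intro k hk hkG
        have hks : k ∈ u.support := by
          rcases Finset.mem_union.1 hk with h | h
          · exact h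
          · exact absurd h hkG
        have : piFun y (some k) = 0 := by
          simp only [piFun]
          rw [if_neg]
          intro hb
          refine hkG (Finset.mem_image.2 ⟨(k.1, k.2.length), ?_, ?_⟩)
          · simp only [Finset.mem_product, Finset.mem_range]
            exact ⟨hN k hks, Nat.lt_succ_of_lt (hM k hks)⟩
          · simp only [br]
            rw [← hb]
        rw [this, zero_mul, zero_mul]
    have h7 : ∑ k ∈ G, d k = ∑ n ∈ Finset.range N, (g none - g (some (n, bl y M))) := by
      rw [Finset.sum_image fun _ _ _ _ h => hbr h, Finset.sum_product]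
      refine Finset.sum_congr rfl fun n _ => ?_
      have h8 : ∀ m, ∑ j ∈ Finset.range (m + 1), d (br (n, j)) =
          g none - g (some (n, bl y m)) := by
        intro m
        induction m with
        | zero => simp [d, br, bl, nxt]
        | succ m ih =>
          rw [Finset.sum_range_succ, ih]
          simp [d, br, bl, nxt]
      exact h8 M
    rw [h5, h7]
    by_cases ha : a = 0
    · rw [ha, zero_mul]
    · rw [Finset.sum_eq_zero, mul_zero]
      intro n hn
      have hu : u (n, bl y M) = 0 := by
        by_contra hne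
        have := hM _ (Finsupp.mem_support_iff.2 hne)
        simp only [bl_length] at this
        exact lt_irrefl _ this
      rw [hgx none, hgx (some (n, bl y M)), JJ_none, JJ_some, hu, add_zero, piFun_bl]
      have hp : (0 : ℝ) < (2 ^ (n + M) : ℝ)⁻¹ := by positivity
      by_cases h0 : 0 < a
      · rw [if_pos h0, if_pos (mul_pos h0 hp), sub_self]
      · rw [if_neg h0, if_neg, sub_self]
        intro h
        exact h0 ((pos_iff_pos_of_mul_pos h).2 hp)
  rw [h1, Finset.sum_congr rfl fun k _ => h2 k, Finset.sum_sub_distrib, ← Finset.mul_sum, h4,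
    sub_zero]
  exact Finset.sum_nonpos fun k _ => h3 k

end Pool.Agent.Work.MP_b687c6_pr
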