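import Pool.Agent.Work.MP_b687c6_pr.Chain1

/-! The generator of the chain attached to a branch: dissipativity and density. -/

namespace Pool.Agent.Work.MP_b687c6_pr

open Filter Topology

lemma pos_ineq (T : Set (List ℕ)) (y : ℕ → ℕ) (hy : ∀ n, bl y n ∈ T) (l : ℝ) (v : VV) :
    l * pos (JJ y v) ≤ pos (l • JJ y v - BB T v) :=
  pos_le_of _ _ _ l rfl fun g hg hgx => disp T y hy v g hg hgx

lemma norm_ineq (T : Set (List ℕ)) (y : ℕ → ℕ) (hy : ∀ n, bl y n ∈ T) (l : ℝ) (v : VV) :
    l * ‖JJ y v‖ ≤ ‖l • JJ y v - BB T v‖ := by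
  have h1 := pos_ineq T y hy l v
  have h2 := pos_ineq T y hy l (-v)
  rw [map_neg, map_neg] at h2
  have h3 : l • -JJ y v - -BB T v = -(l • JJ y v - BB T v) := by
    rw [smul_neg]; abel
  rw [h3] at h2
  rw [norm_eq_pos, norm_eq_pos (l • JJ y v - BB T v)]
  linarith

lemma JJ_single (y : ℕ → ℕ) (k : ℕ × List ℕ) :
    JJ y (0, Finsupp.single k 1) = (ee (some k) : E1 St) := by
  rw [JJ_apply, zero_smul, zero_add, Finsupp.sum_single_index (by simp), one_smul]

lemma JJ_one (y : ℕ → ℕ) : JJ y (1, 0) = pv y := by
  rw [JJ_apply, one_smul, Finsupp.sum_zero_index, add_zero]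

lemma BB_single (T : Set (List ℕ)) (k : ℕ × List ℕ) :
    BB T (0, Finsupp.single k 1) = bb T k := by
  rw [BB_apply, Finsupp.sum_single_index (by simp), one_smul]

lemma BB_one (T : Set (List ℕ)) : BB T (1, 0) = 0 := by
  rw [BB_apply, Finsupp.sum_zero_index]

/-- A closed subspace containing all unit vectors is everything. -/
lemma closed_top (W : Submodule ℝ (E1 St)) (hW : IsClosed (W : Set (E1 St)))
    (h : ∀ i, (ee i : E1 St) ∈ W) (x : E1 St) : x ∈ W := by
  have hs := hasSum_ee x
  exact hW.mem_of_tendsto hs (Eventually.of_forall fun s =>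
    W.sum_mem fun i _ => W.smul_mem _ (h i))

lemma denseRange_of (f : VV →ₗ[ℝ] E1 St)
    (h : ∀ i, (ee i : E1 St) ∈ (LinearMap.range f).topologicalClosure) : DenseRange f := by
  intro x
  have := closed_top _ (LinearMap.range f).isClosed_topologicalClosure h x
  rw [← SetLike.mem_coe, Submodule.topologicalClosure_coe] at this
  simpa [LinearMap.coe_range] using this

lemma denseRange_JJ (y : ℕ → ℕ) : DenseRange (JJ y) := by
  refine denseRange_of _ ?_
  set W := (LinearMap.range (JJ y)).topologicalClosure with hW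
  have hle : LinearMap.range (JJ y) ≤ W := Submodule.le_topologicalClosure _
  have hsome : ∀ k, (ee (some k) : E1 St) ∈ W := fun k => hle ⟨_, JJ_single y k⟩
  intro i
  rcases i with _ | k
  · have hpi : pv y ∈ W := hle ⟨_, JJ_one y⟩
    have h1 : HasSum (fun i : St => pv y i • (ee i : E1 St) - if i = none then (ee none : E1 St) else 0)
        (pv y - ee none) :=
      (hasSum_ee (pv y)).sub (hasSum_ite_eq none (ee none : E1 St))
    have h2 : pv y - ee none ∈ W := by
      refine (Submodule.isClosed_topologicalClosure _).mem_of_tendsto h1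
        (Eventually.of_forall fun s => W.sum_mem fun i _ => ?_)
      rcases i with _ | k
      · simp [pv_apply, piFun]
      · simpa using W.smul_mem _ (hsome k)
    have h3 := W.sub_mem hpi h2
    simpa using h3
  · exact hsome k

lemma denseRange_resolvent (T : Set (List ℕ)) (y : ℕ → ℕ) (l : ℝ) (hl : 0 < l) :
    DenseRange (l • JJ y - BB T) := by
  refine denseRange_of _ ?_
  set W := (LinearMap.range (l • JJ y - BB T)).topologicalClosure with hW
  have hle : LinearMap.range (l • JJ y - BB T) ≤ W := Submodule.le_topologicalClosure _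
  have hWc : IsClosed (W : Set (E1 St)) := Submodule.isClosed_topologicalClosure _
  -- every unit vector is congruent to a nonnegative multiple of `ee none`
  have key : ∀ (s : List ℕ) (n : ℕ), ∃ c : ℝ, 0 ≤ c ∧ c ≤ 1 ∧
      (ee (some (n, s)) : E1 St) - c • ee none ∈ W := by
    have step : ∀ k : ℕ × List ℕ, l • (ee (some k) : E1 St) - bb T k ∈ W := by
      intro k
      refine hle ⟨(0, Finsupp.single k 1), ?_⟩
      rw [LinearMap.sub_apply, LinearMap.smul_apply, JJ_single, BB_single]
    have step2 : ∀ k : ℕ × List ℕ, (∃ c : ℝ, 0 ≤ c ∧ c ≤ 1 ∧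
        (ee (nxt k) : E1 St) - c • ee none ∈ W) → ∃ c : ℝ, 0 ≤ c ∧ c ≤ 1 ∧
        (ee (some k) : E1 St) - c • ee none ∈ W := by
      rintro k ⟨c, hc0, hc1, hc⟩
      by_cases hk : k.2 ∈ T
      · have hr := rate_pos k
        have hlr : 0 < l + rate k := by linarith
        refine ⟨rate k / (l + rate k) * c, by positivity, ?_, ?_⟩
        · have : rate k / (l + rate k) ≤ 1 := by
            rw [div_le_one hlr]; linarith
          have h0 : 0 ≤ rate k / (l + rate k) := by positivity
          nlinarith
        · have h1 := step k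
          rw [bb, if_pos hk] at h1
          have h2 := W.add_mem (W.smul_mem (l + rate k)⁻¹ h1)
            (W.smul_mem (rate k / (l + rate k)) hc)
          convert h2 using 1
          have e1 : (l + rate k)⁻¹ * l = 1 - rate k / (l + rate k) := by
            field_simp
            ring
          rw [smul_sub, smul_smul, e1]
          rw [smul_sub (l + rate k)⁻¹, smul_smul, smul_smul] at *
          rw [show (l + rate k)⁻¹ * rate k = rate k / (l + rate k) by
            rw [div_eq_mul_inv, mul_comm]]
          module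
      · refine ⟨0, le_rfl, zero_le_one, ?_⟩
        have h1 := step k
        rw [bb, if_neg hk, sub_zero] at h1
        have h2 := W.smul_mem l⁻¹ h1
        rw [smul_smul, inv_mul_cancel₀ hl.ne', one_smul] at h2
        simpa using h2
    intro s n
    induction s with
    | nil => exact step2 (n, []) ⟨1, zero_le_one, le_rfl, by simp [nxt]⟩
    | cons x s ih => exact step2 (n, x :: s) ih
  have key' : ∀ i : St, ∃ c : ℝ, 0 ≤ c ∧ c ≤ 1 ∧ (i = none → c = 1) ∧
      (ee i : E1 St) - c • ee none ∈ W := by
    intro i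
    rcases i with _ | ⟨n, s⟩
    · exact ⟨1, zero_le_one, le_rfl, fun _ => rfl, by simp⟩
    · obtain ⟨c, h0, h1, h2⟩ := key s n
      exact ⟨c, h0, h1, (fun h => by cases h), h2⟩
  choose c hc0 hc1 hcn hcW using key'
  have hpi : pv y ∈ W := by
    have h1 : l • pv y ∈ W := by
      refine hle ⟨(1, 0), ?_⟩
      rw [LinearMap.sub_apply, LinearMap.smul_apply, JJ_one, BB_one, sub_zero]
    have h2 := W.smul_mem l⁻¹ h1
    rwa [smul_smul, inv_mul_cancel₀ hl.ne', one_smul] at h2
  have hsum : Summable fun i : St => piFun y i * c i :=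
    Summable.of_nonneg_of_le (fun i => mul_nonneg (piFun_nonneg y i) (hc0 i))
      (fun i => mul_le_of_le_one_right (piFun_nonneg y i) (hc1 i)) (summable_piFun y)
  have hge : 1 ≤ ∑' i, piFun y i * c i := by
    have := hsum.le_tsum none fun i _ => mul_nonneg (piFun_nonneg y i) (hc0 i)
    rwa [hcn none rfl, mul_one] at this
  have h3 : pv y - (∑' i, piFun y i * c i) • (ee none : E1 St) ∈ W := by
    have hs : HasSum (fun i : St => pv y i • (ee i : E1 St) - (piFun y i * c i) • (ee none : E1 St))
        (pv y - (∑' i, piFun y i * c i) • (ee none : E1 St)) :=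
      (hasSum_ee (pv y)).sub (hsum.hasSum.smul_const _)
    refine hWc.mem_of_tendsto hs (Eventually.of_forall fun s => W.sum_mem fun i _ => ?_)
    have := W.smul_mem (piFun y i) (hcW i)
    rwa [smul_sub, smul_smul] at this
  have hnone : (ee none : E1 St) ∈ W := by
    have h4 := W.sub_mem hpi h3
    rw [sub_sub_cancel] at h4
    have h5 := W.smul_mem (∑' i, piFun y i * c i)⁻¹ h4
    rwa [smul_smul, inv_mul_cancel₀ (by linarith), one_smul] at h5
  intro i
  have := W.add_mem (hcW i) (W.smul_mem (c i) hnone)
  simpa using this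

end Pool.Agent.Work.MP_b687c6_pr
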