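import Pool.Agent.Work.MP_b687c6_pr.Chain2
import Pool.Agent.Work.MP_b687c6_pr.Yosida

/-! If the tree has an infinite branch, its matrix is the Q-matrix of an honest semigroup. -/

namespace Pool.Agent.Work.MP_b687c6_pr

open Filter Topology

lemma nxt_ne (k : ℕ × List ℕ) : nxt k ≠ some k := by
  obtain ⟨n, s⟩ := k
  cases s with
  | nil => simp [nxt]
  | cons x s =>
    simp only [nxt, ne_eq, Option.some.injEq, Prod.mk.injEq, true_and]
    intro h
    have := congrArg List.length h
    simp at this

lemma bb_apply_real (T : Set (List ℕ)) (k : ℕ × List ℕ) (j : St) [Decidable (k.2 ∈ T)] :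
    (bb T k : E1 St) j = if k.2 ∈ T then (if j = some k then -rate k
      else if j = nxt k then rate k else 0) else 0 := by
  classical
  by_cases hk : k.2 ∈ T
  · have h0 : bb T k = rate k • ((ee (nxt k) : E1 St) - ee (some k)) := by
      rw [bb, if_pos hk]
    rw [h0, if_pos hk, lp.coeFn_smul, Pi.smul_apply, lp.coeFn_sub, Pi.sub_apply, ee_apply,
      ee_apply, smul_eq_mul]
    by_cases h1 : j = some k
    · subst h1
      rw [if_neg (nxt_ne k), if_pos rfl, if_pos rfl]
      simp
    · rw [if_neg (Ne.symm h1), if_neg h1]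
      by_cases h2 : j = nxt k
      · rw [if_pos h2.symm, if_pos h2]
        simp
      · rw [if_neg (Ne.symm h2), if_neg h2]
        simp
  · have h0 : bb T k = 0 := by rw [bb, if_neg hk]
    rw [h0, if_neg hk]
    simp

lemma bb_apply (T : Set (List ℕ)) (k : ℕ × List ℕ) (j : St) :
    (((bb T k : E1 St) j : ℝ) : EReal) = treeQ T (some k) j := by
  classical
  rw [bb_apply_real]
  simp only [treeQ]
  split_ifs <;> simp

lemma mass_bb (T : Set (List ℕ)) (k : ℕ × List ℕ) : massF (bb T k) = 0 := by
  unfold bb
  split_ifs
  · rw [map_smul, map_sub, massF_ee, massF_ee, sub_self, smul_zero]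
  · simp

lemma mass_BB (T : Set (List ℕ)) (v : VV) : massF (BB T v) = 0 := by
  obtain ⟨a, u⟩ := v
  rw [BB_apply, Finsupp.sum, map_sum]
  exact Finset.sum_eq_zero fun k _ => by rw [map_smul, mass_bb, smul_zero]

/-- The grid vector subtracted from the invariant measure. -/
noncomputable def gridU (y : ℕ → ℕ) (N M : ℕ) : (ℕ × List ℕ) →₀ ℝ :=
  -∑ a ∈ Finset.range N ×ˢ Finset.range M,
    Finsupp.single (a.1, bl y a.2) (piFun y (some (a.1, bl y a.2)))

lemma gridU_apply (y : ℕ → ℕ) (N M : ℕ) (k : ℕ × List ℕ) :
    gridU y N M k = if k.1 < N ∧ k.2.length < M then -piFun y (some k) else 0 := by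
  classical
  unfold gridU
  rw [Finsupp.neg_apply, Finsupp.finsetSum_apply]
  simp only [Finsupp.single_apply]
  have hlen : ∀ a : ℕ × ℕ, (a.1, bl y a.2) = k → a.1 = k.1 ∧ a.2 = k.2.length := by
    rintro ⟨n, j⟩ h
    rw [← h]
    exact ⟨rfl, (bl_length y j).symm⟩
  by_cases h : k.1 < N ∧ k.2.length < M
  · rw [if_pos h, Finset.sum_eq_single (k.1, k.2.length)]
    · by_cases hb : k.2 = bl y k.2.length
      · have : ((k.1, k.2.length).1, bl y (k.1, k.2.length).2) = k := by
          change (k.1, bl y k.2.length) = k
          rw [← hb]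
        rw [if_pos this, this]
      · have h1 : piFun y (some k) = 0 := by
          simp only [piFun]
          rw [if_neg hb]
        rw [if_neg, h1]
        intro h2
        apply hb
        have := congrArg Prod.snd h2
        exact this.symm
    · intro a _ ha
      rw [if_neg]
      intro h2
      obtain ⟨h3, h4⟩ := hlen a h2
      exact ha (Prod.ext h3 h4)
    · intro h2
      exact absurd (show (k.1, k.2.length) ∈ Finset.range N ×ˢ Finset.range M from
        Finset.mem_product.2 ⟨Finset.mem_range.2 h.1, Finset.mem_range.2 h.2⟩) h2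
  · rw [if_neg h, Finset.sum_eq_zero, neg_zero]
    intro a ha
    rw [if_neg]
    intro h2
    obtain ⟨h3, h4⟩ := hlen a h2
    rw [Finset.mem_product, Finset.mem_range, Finset.mem_range, h3, h4] at ha
    exact h ha

lemma BB_grid (T : Set (List ℕ)) (y : ℕ → ℕ) (hy : ∀ n, bl y n ∈ T) (N m : ℕ) :
    BB T (1, gridU y N (m + 1)) =
      ∑ n ∈ Finset.range N, ((ee (some (n, bl y m)) : E1 St) - ee none) := by
  classical
  have h1 : BB T (1, gridU y N (m + 1)) =
      -∑ a ∈ Finset.range N ×ˢ Finset.range (m + 1),
        piFun y (some (a.1, bl y a.2)) • bb T (a.1, bl y a.2) := by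
    unfold BB gridU
    rw [LinearMap.comp_apply, LinearMap.snd_apply, map_neg, map_sum]
    simp only [Finsupp.linearCombination_single]
  have h2 : ∀ a : ℕ × ℕ, piFun y (some (a.1, bl y a.2)) • bb T (a.1, bl y a.2) =
      (ee (nxt (a.1, bl y a.2)) : E1 St) - ee (some (a.1, bl y a.2)) := by
    intro a
    rw [bb, if_pos (hy a.2), smul_smul, piFun, if_pos (by rw [bl_length]),
      inv_mul_cancel₀ (rate_pos _).ne', one_smul]
  rw [h1, Finset.sum_congr rfl fun a _ => h2 a, Finset.sum_product, ← Finset.sum_neg_distrib]
  refine Finset.sum_congr rfl fun n _ => ?_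
  have h3 : ∀ m, ∑ j ∈ Finset.range (m + 1),
      ((ee (nxt (n, bl y j)) : E1 St) - ee (some (n, bl y j))) = ee none - ee (some (n, bl y m)) := by
    intro m
    induction m with
    | zero => simp [bl, nxt]
    | succ m ih =>
      rw [Finset.sum_range_succ, ih]
      simp [bl, nxt]
  rw [h3 m]
  abel

/-- If `T` has an infinite branch, its matrix is the Q-matrix of an honest semigroup. -/
theorem exists_of_branch (T : Set (List ℕ)) (hT : HasBranch T) :
    ∃ p : St → St → ℝ → ℝ, IsStandard p ∧ IsHonest p ∧ HasQ p (treeQ T) := by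
  classical
  obtain ⟨y, hy⟩ := hT
  obtain ⟨R, P, hRJ, hP1, hP0, hPadd, hPcont, hPder, hPcone, hPmass⟩ :=
    exists_semigroup (JJ y) (BB T) (fun l _ v => norm_ineq T y hy l v) (denseRange_JJ y)
      (fun l hl => denseRange_resolvent T y l hl)
  -- positivity
  have hpos : ∀ t, 0 ≤ t → ∀ x : E1 St, (∀ i, 0 ≤ x i) → ∀ i, 0 ≤ P t x i := by
    intro t ht x hx
    refine hPcone {x : E1 St | ∀ i, 0 ≤ x i} ?_ ?_ ?_ ?_ ?_ t ht x hx
    · have : {x : E1 St | ∀ i, 0 ≤ x i} = ⋂ i, {x : E1 St | 0 ≤ coordF i x} := by
        ext x
        simp [coordF_apply]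
      rw [this]
      exact isClosed_iInter fun i => isClosed_le continuous_const (coordF i).continuous
    · intro i
      simp
    · intro x hx y hy i
      rw [lp.coeFn_add, Pi.add_apply]
      exact add_nonneg (hx i) (hy i)
    · intro c hc x hx i
      rw [lp.coeFn_smul, Pi.smul_apply, smul_eq_mul]
      exact mul_nonneg hc (hx i)
    · intro l hl x hx i
      have key : ∀ z : E1 St, -(l⁻¹ * ‖z - x‖) ≤ coordF i (R l z) := by
        intro z
        refine (denseRange_resolvent T y l hl).induction_on
          (p := fun z => -(l⁻¹ * ‖z - x‖) ≤ coordF i (R l z)) z ?_ ?_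
        · refine isClosed_le ?_ ?_
          · fun_prop
          · exact (coordF i).continuous.comp (R l).continuous
        · intro v
          have h1 : (l • JJ y - BB T) v = l • JJ y v - BB T v := rfl
          rw [h1, hRJ l hl v, coordF_apply]
          have h2 := pos_ineq T y hy l (-v)
          have h3 : l • JJ y (-v) - BB T (-v) = -(l • JJ y v - BB T v) := by
            rw [map_neg, map_neg, smul_neg]; abel
          rw [h3, map_neg] at h2
          have h4 : pos (-(l • JJ y v - BB T v)) ≤ ‖l • JJ y v - BB T v - x‖ := by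
            rw [norm_eq_tsum, pos]
            refine (summable_pos _).tsum_le_tsum (fun j => ?_) (summable_abs _)
            rw [lp.coeFn_neg, Pi.neg_apply, lp.coeFn_sub _ x, Pi.sub_apply]
            refine max_le ?_ (abs_nonneg _)
            rw [abs_sub_comm]
            exact (by linarith [hx j] : _ ≤ x j - (l • JJ y v - BB T v) j).trans (le_abs_self _)
          have h5 := le_pos (-JJ y v) i
          rw [lp.coeFn_neg, Pi.neg_apply] at h5
          have h6 : pos (-JJ y v) ≤ l⁻¹ * ‖l • JJ y v - BB T v - x‖ := by
            rw [inv_mul_eq_div, le_div_iff₀ hl, mul_comm]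
            exact h2.trans h4
          linarith
      have := key x
      rw [sub_self, norm_zero, mul_zero, neg_zero] at this
      exact this
  have hee : ∀ i j : St, (0 : ℝ) ≤ (ee i : E1 St) j := by
    intro i j
    rw [ee_apply]
    split_ifs <;> norm_num
  let p : St → St → ℝ → ℝ := fun i j t => P t (ee i) j
  have hmass : ∀ i t, 0 ≤ t → ∑' j, p i j t = 1 := by
    intro i t ht
    have := hPmass massF (mass_BB T) t ht (ee i)
    rwa [massF_apply, massF_ee] at this
  have hst : IsStandard p := by
    refine ⟨fun i j t ht => hpos t ht _ (hee i) j, fun i t _ => summable_coe _,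
      fun i t ht => (hmass i t ht).le, ?_, ?_⟩
    · intro i j s t hs ht
      have h1 := hPadd s t hs ht
      change P (s + t) (ee i) j = _
      rw [h1, ContinuousLinearMap.comp_apply]
      have h2 := ((hasSum_ee (P s (ee i))).mapL (P t)).mapL (coordF j)
      rw [coordF_apply] at h2
      rw [← h2.tsum_eq]
      refine tsum_congr fun k => ?_
      rw [map_smul, map_smul, coordF_apply, smul_eq_mul]
    · intro i j
      have h1 := ((coordF j).continuous.tendsto _).comp (hPcont (ee i))
      rw [coordF_apply, ee_apply] at h1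
      exact h1
  -- comparison of the row of `none`
  have hcomp : ∀ (N m : ℕ) (t : ℝ), 0 ≤ t → ∀ j, p none j t ≤
      P t (JJ y (1, gridU y N (m + 1))) j := by
    intro N m t ht j
    have h1 : ∀ i, 0 ≤ (JJ y (1, gridU y N (m + 1)) - (ee none : E1 St)) i := by
      intro i
      rw [lp.coeFn_sub, Pi.sub_apply, ee_apply]
      rcases i with _ | k
      · rw [JJ_none]
        simp
      · rw [JJ_some, gridU_apply, if_neg (show ¬ (none : St) = some k by simp), sub_zero, one_mul]
        have := piFun_nonneg y (some k)
        split_ifs <;> linarith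
    have h2 := hpos t ht _ h1 j
    rw [map_sub, lp.coeFn_sub, Pi.sub_apply] at h2
    linarith
  have hder : ∀ (v : VV) (j : St), Tendsto (fun t : ℝ => (P t (JJ y v) j - JJ y v j) / t)
      (𝓝[>] 0) (𝓝 (BB T v j)) := by
    intro v j
    have h1 := ((coordF j).continuous.tendsto _).comp (hPder v)
    rw [coordF_apply] at h1
    refine h1.congr fun t => ?_
    rw [Function.comp_apply, map_smul, map_sub, coordF_apply, coordF_apply, smul_eq_mul,
      div_eq_inv_mul]
  refine ⟨p, hst, hmass, ?_⟩
  intro i j
  rcases i with _ | k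
  · rcases j with _ | k
    · -- the instantaneous state
      simp only [treeQ, if_true]
      rw [EReal.tendsto_nhds_bot_iff_real]
      intro b
      obtain ⟨N, hN⟩ := exists_nat_gt (-b)
      have h1 := hder (1, gridU y N (0 + 1)) none
      have h2 : BB T (1, gridU y N (0 + 1)) none = -N := by
        rw [BB_grid T y hy, ← coordF_apply, map_sum]
        simp only [map_sub, coordF_apply, ee_apply]
        simp
      rw [h2, JJ_none] at h1
      have h3 : ∀ᶠ t : ℝ in 𝓝[>] 0, (P t (JJ y (1, gridU y N (0 + 1))) none - 1) / t < b :=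
        h1.eventually_lt_const (by linarith)
      filter_upwards [h3, self_mem_nhdsWithin] with t ht ht0
      have ht0' : (0 : ℝ) < t := ht0
      rw [EReal.coe_lt_coe_iff]
      refine lt_of_le_of_lt ?_ ht
      have := hcomp N 0 t ht0'.le none
      gcongr
    · -- other entries of the row of the instantaneous state
      simp only [treeQ, reduceCtorEq, if_false, sub_zero]
      have h1 := hder (1, gridU y (k.1 + 1) (k.2.length + 1 + 1)) (some k)
      have h2 : BB T (1, gridU y (k.1 + 1) (k.2.length + 1 + 1)) (some k) = 0 := by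
        rw [BB_grid T y hy, ← coordF_apply, map_sum]
        refine Finset.sum_eq_zero fun n _ => ?_
        simp only [map_sub, coordF_apply, ee_apply]
        rw [if_neg, if_neg]
        · simp
        · simp
        · intro h
          have h3 := Option.some.inj h
          have h4 := congrArg (fun q : ℕ × List ℕ => q.2.length) h3
          simp only [bl_length] at h4
          omega
      have h5 : JJ y (1, gridU y (k.1 + 1) (k.2.length + 1 + 1)) (some k) = 0 := by
        rw [JJ_some, gridU_apply, if_pos ⟨by omega, by omega⟩]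
        ring
      rw [h2, h5] at h1
      have h6 : Tendsto (fun t : ℝ => p none (some k) t / t) (𝓝[>] 0) (𝓝 0) := by
        refine tendsto_of_tendsto_of_tendsto_of_le_of_le' tendsto_const_nhds h1 ?_ ?_
        · filter_upwards [self_mem_nhdsWithin] with t ht
          have ht0 : (0 : ℝ) < t := ht
          exact div_nonneg (hst.nonneg _ _ t ht0.le) ht0.le
        · filter_upwards [self_mem_nhdsWithin] with t ht
          have ht0 : (0 : ℝ) < t := ht
          have := hcomp (k.1 + 1) (k.2.length + 1) t ht0.le (some k)
          rw [sub_zero]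
          gcongr
      exact (continuous_coe_real_ereal.tendsto 0).comp h6
  · rw [← bb_apply]
    have h1 := hder (0, Finsupp.single k 1) j
    rw [JJ_single, BB_single, ee_apply] at h1
    exact (continuous_coe_real_ereal.tendsto _).comp h1

end Pool.Agent.Work.MP_b687c6_pr
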