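import Mathlib

/-!
# Q-matrices of countable Markov chains (MP_b687c6_pr): definitions

`IsStandard p`   : `p` is a standard Markov transition semigroup (substochastic convention).
`HasQ p Q`       : `Q` is the derivative matrix of `p` at `0+`.
`QMat S`         : the set of Q-matrices over the state space `S`.
`QMatHonest S`   : the set of Q-matrices of honest semigroups.
`treeQ T`        : the test matrix attached to a set `T` of finite sequences.
-/

namespace Pool.Agent.Work.MP_b687c6_pr

open Filter Topology MeasureTheory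

/-- `p i j t` is the transition probability from `i` to `j` in time `t` (only `t ≥ 0` matters):
a standard Markov transition semigroup, substochastic convention. -/
structure IsStandard {S : Type*} [DecidableEq S] (p : S → S → ℝ → ℝ) : Prop where
  nonneg : ∀ i j t, 0 ≤ t → 0 ≤ p i j t
  summable : ∀ i t, 0 ≤ t → Summable fun j => p i j t
  mass : ∀ i t, 0 ≤ t → ∑' j, p i j t ≤ 1
  ck : ∀ i j s t, 0 ≤ s → 0 ≤ t → p i j (s + t) = ∑' k, p i k s * p k j t
  standard : ∀ i j, Tendsto (p i j) (𝓝[>] 0) (𝓝 (if i = j then 1 else 0))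

/-- The semigroup is honest: all row sums are `1`. -/
def IsHonest {S : Type*} (p : S → S → ℝ → ℝ) : Prop := ∀ i t, 0 ≤ t → ∑' j, p i j t = 1

/-- `Q` is the matrix of right derivatives of `p` at `0` (with value `⊥ = -∞` allowed). -/
def HasQ {S : Type*} [DecidableEq S] (p : S → S → ℝ → ℝ) (Q : S → S → EReal) : Prop :=
  ∀ i j, Tendsto (fun t : ℝ => (((p i j t - if i = j then 1 else 0) / t : ℝ) : EReal))
    (𝓝[>] 0) (𝓝 (Q i j))

/-- Diagonal entries in `[-∞, 0]`, off-diagonal entries in `[0, ∞)`. -/
def Admissible {S : Type*} (Q : S → S → EReal) : Prop :=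
  ∀ i, Q i i ≤ 0 ∧ ∀ j, j ≠ i → 0 ≤ Q i j ∧ Q i j < ⊤

/-- The set of Q-matrices over `S`. -/
def QMat (S : Type*) [DecidableEq S] : Set (S → S → EReal) :=
  {Q | Admissible Q ∧ ∃ p : S → S → ℝ → ℝ, IsStandard p ∧ HasQ p Q}

/-- The set of Q-matrices of honest semigroups over `S`. -/
def QMatHonest (S : Type*) [DecidableEq S] : Set (S → S → EReal) :=
  {Q | Admissible Q ∧ ∃ p : S → S → ℝ → ℝ, IsStandard p ∧ IsHonest p ∧ HasQ p Q}

/-! ### The test matrices -/

/-- State space of the test matrices: `none` is the instantaneous state, `some (n, s)` is the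
node `s` (a finite sequence, last entry first) of the `n`-th copy of the tree. -/
abbrev St := Option (ℕ × List ℕ)

/-- Jump rate `2 ^ (n + |s|)`. -/
def rate (k : ℕ × List ℕ) : ℝ := 2 ^ (k.1 + k.2.length)

/-- The state to which a node jumps: its parent, or `none` for the root of a copy. -/
def nxt : ℕ × List ℕ → St
  | (_, []) => none
  | (n, _ :: s) => some (n, s)

open Classical in
/-- The matrix attached to `T`: the row of `none` is `(-∞, 0, 0, ...)`; a node `(n, s)` with
`s ∈ T` jumps to `nxt (n, s)` at rate `2 ^ (n + |s|)`; a node with `s ∉ T` is absorbing. -/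
noncomputable def treeQ (T : Set (List ℕ)) : St → St → EReal
  | none, j => if j = none then ⊥ else 0
  | some k, j => if k.2 ∈ T then
      (if j = some k then ((-rate k : ℝ) : EReal)
        else if j = nxt k then ((rate k : ℝ) : EReal) else 0) else 0

/-- The `n`-th initial segment of the branch `y`, last entry first. -/
def bl (y : ℕ → ℕ) : ℕ → List ℕ
  | 0 => []
  | n + 1 => y n :: bl y n

/-- `T` has an infinite branch. -/
def HasBranch (T : Set (List ℕ)) : Prop := ∃ y : ℕ → ℕ, ∀ n, bl y n ∈ T

/-- `T` is a tree: closed under dropping the last entry. -/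
def IsTree (T : Set (List ℕ)) : Prop := ∀ x s, x :: s ∈ T → s ∈ T

end Pool.Agent.Work.MP_b687c6_pr
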