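import Pool.Agent.Work.MP_b687c6_pr.L1

/-! Definitions for the necessary and sufficient condition (MP_b687c6_pr, second part). -/

namespace Pool.Agent.Work.MP_b687c6_pr

open Filter Topology MeasureTheory

/-! ### The criterion -/

/-- The section of the infinite matrix `R` on the states `0, ..., n-1`. -/
def secM (R : ℕ → ℕ → ℝ) (n : ℕ) : Matrix (Fin n) (Fin n) ℝ := fun i j => R i j

/-- `R` is a nonnegative matrix all of whose sections are invertible, the inverse having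
nonpositive off-diagonal entries and row sums at least `1`. -/
def GoodR (R : ℕ → ℕ → ℝ) : Prop :=
  (∀ i j, 0 ≤ R i j) ∧ ∀ n, IsUnit (secM R n) ∧ (∀ i j, i ≠ j → (secM R n)⁻¹ i j ≤ 0) ∧
    ∀ i, 1 ≤ ∑ j, (secM R n)⁻¹ i j

/-- The `(i, j)` entry of the inverse of the `n`-th section (for `i, j < n`; otherwise `0`). -/
noncomputable def invEntry (R : ℕ → ℕ → ℝ) (n i j : ℕ) : ℝ :=
  if h : i < n ∧ j < n then (secM R n)⁻¹ ⟨i, h.1⟩ ⟨j, h.2⟩ else 0

/-- The inverses of the sections of `R` converge entrywise to `I - Q`. -/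
def InvLimit (R : ℕ → ℕ → ℝ) (Q : ℕ → ℕ → EReal) : Prop :=
  ∀ i j, Tendsto (fun n => ((invEntry R n i j : ℝ) : EReal)) atTop
    (𝓝 ((if i = j then 1 else 0) - Q i j))

/-! ### Semigroups on `ℓ¹` -/

section
variable {S : Type*} [DecidableEq S]

/-- Positive contraction semigroups on `ℓ¹(S)` (row vectors: `P t x` is `x P(t)`). -/
structure Semi (P : ℝ → E1 S →L[ℝ] E1 S) : Prop where
  contr : ∀ t, 0 ≤ t → ∀ x, ‖P t x‖ ≤ ‖x‖
  pos : ∀ t, 0 ≤ t → ∀ x : E1 S, (∀ i, 0 ≤ x i) → ∀ i, 0 ≤ P t x i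
  zero : ∀ x, P 0 x = x
  add : ∀ s t, 0 ≤ s → 0 ≤ t → ∀ x, P (s + t) x = P t (P s x)
  cont : ∀ x, Tendsto (fun t => P t x) (𝓝[>] 0) (𝓝 x)

omit [DecidableEq S] in
/-- `x` is in the domain of the generator of `P`, with image `y`. -/
def IsGen (P : ℝ → E1 S →L[ℝ] E1 S) (x y : E1 S) : Prop :=
  Tendsto (fun t : ℝ => t⁻¹ • (P t x - x)) (𝓝[>] 0) (𝓝 y)

end

end Pool.Agent.Work.MP_b687c6_pr
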