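import Pool.Agent.Work.MP_b687c6_pr.Defs

/-! Basic facts on `ℓ¹(S)`. -/

namespace Pool.Agent.Work.MP_b687c6_pr

open Filter Topology

/-- `ℓ¹(S)` with real coefficients. -/
abbrev E1 (S : Type*) := lp (fun _ : S => ℝ) 1

section
variable {S : Type*} [DecidableEq S]

/-- Unit vectors. -/
noncomputable def ee (i : S) : E1 S := lp.single 1 i (1 : ℝ)

lemma ee_apply (i j : S) : (ee i : E1 S) j = if i = j then 1 else 0 := by
  unfold ee
  rw [lp.single_apply, Pi.single_apply]
  simp only [eq_comm]

lemma norm_ee (i : S) : ‖(ee i : E1 S)‖ = 1 := by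
  unfold ee
  rw [lp.norm_single (by norm_num)]
  simp

lemma hasSum_abs (x : E1 S) : HasSum (fun i => |x i|) ‖x‖ := by
  have := lp.hasSum_norm (p := 1) (by simp) x
  simpa using this

lemma summable_abs (x : E1 S) : Summable fun i => |x i| := (hasSum_abs x).summable

lemma summable_coe (x : E1 S) : Summable fun i => x i := (summable_abs x).of_abs

lemma norm_eq_tsum (x : E1 S) : ‖x‖ = ∑' i, |x i| := (hasSum_abs x).tsum_eq.symm

lemma hasSum_ee (x : E1 S) : HasSum (fun i => x i • (ee i : E1 S)) x := by
  have := lp.hasSum_single (p := 1) (by simp) x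
  refine this.congr_fun ?_ |> fun h => h
  intro i
  unfold ee
  rw [← lp.single_smul]
  simp

/-- The functional `x ↦ ∑ g i * x i` for bounded `g`. -/
noncomputable def Gf (g : S → ℝ) (hg : ∀ i, |g i| ≤ 1) : E1 S →L[ℝ] ℝ :=
  LinearMap.mkContinuous
    { toFun := fun x => ∑' i, g i * x i
      map_add' := by
        intro x y
        have hs : ∀ z : E1 S, Summable fun i => g i * z i := fun z =>
          Summable.of_norm_bounded (summable_abs z) fun i => by
            rw [Real.norm_eq_abs, abs_mul]
            exact mul_le_of_le_one_left (abs_nonneg _) (hg i)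
        rw [← (hs x).tsum_add (hs y)]
        refine tsum_congr fun i => ?_
        rw [lp.coeFn_add, Pi.add_apply, mul_add]
      map_smul' := by
        intro c x
        rw [RingHom.id_apply, smul_eq_mul, ← tsum_mul_left]
        refine tsum_congr fun i => ?_
        rw [lp.coeFn_smul, Pi.smul_apply, smul_eq_mul]
        ring } 1 (by
    intro x
    simp only [LinearMap.coe_mk, AddHom.coe_mk, one_mul]
    have hs : Summable fun i => ‖g i * x i‖ :=
      Summable.of_nonneg_of_le (fun _ => norm_nonneg _) (fun i => by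
        rw [Real.norm_eq_abs, abs_mul]
        exact mul_le_of_le_one_left (abs_nonneg _) (hg i)) (summable_abs x)
    refine (norm_tsum_le_tsum_norm hs).trans ?_
    rw [norm_eq_tsum]
    refine hs.tsum_le_tsum (fun i => ?_) (summable_abs x)
    rw [Real.norm_eq_abs, abs_mul]
    exact mul_le_of_le_one_left (abs_nonneg _) (hg i))

lemma Gf_apply (g : S → ℝ) (hg : ∀ i, |g i| ≤ 1) (x : E1 S) : Gf g hg x = ∑' i, g i * x i := rfl

lemma Gf_ee (g : S → ℝ) (hg : ∀ i, |g i| ≤ 1) (i : S) : Gf g hg (ee i) = g i := by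
  rw [Gf_apply, tsum_eq_single i]
  · rw [ee_apply, if_pos rfl, mul_one]
  · intro j hj
    rw [ee_apply, if_neg (Ne.symm hj), mul_zero]

/-- The norm of the positive part. -/
noncomputable def pos (x : E1 S) : ℝ := ∑' i, max (x i) 0

lemma summable_pos (x : E1 S) : Summable fun i => max (x i) 0 :=
  Summable.of_nonneg_of_le (fun _ => le_max_right _ _)
    (fun i => max_le (le_abs_self _) (abs_nonneg _)) (summable_abs x)

lemma pos_nonneg (x : E1 S) : 0 ≤ pos x := tsum_nonneg fun _ => le_max_right _ _

lemma norm_eq_pos (x : E1 S) : ‖x‖ = pos x + pos (-x) := by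
  rw [norm_eq_tsum, pos, pos, ← (summable_pos x).tsum_add (summable_pos (-x))]
  refine tsum_congr fun i => ?_
  rw [lp.coeFn_neg, Pi.neg_apply]
  rcases le_total 0 (x i) with h | h
  · rw [abs_of_nonneg h, max_eq_left h, max_eq_right (by linarith), add_zero]
  · rw [abs_of_nonpos h, max_eq_right h, max_eq_left (by linarith), zero_add]

lemma le_pos (x : E1 S) (i : S) : x i ≤ pos x :=
  (le_max_left _ _).trans ((summable_pos x).le_tsum i fun _ _ => le_max_right _ _)

/-- The main functional inequality: if `g` is the indicator of `{x > 0}`. -/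
lemma pos_le_of (x z w : E1 S) (l : ℝ) (hz : z = l • x - w)
    (hw : ∀ (g : S → ℝ) (hg : ∀ i, |g i| ≤ 1), (∀ i, g i = if 0 < x i then 1 else 0) →
      Gf g hg w ≤ 0) : l * pos x ≤ pos z := by
  classical
  let g : S → ℝ := fun i => if 0 < x i then 1 else 0
  have hg : ∀ i, |g i| ≤ 1 := by
    intro i
    by_cases h : 0 < x i <;> simp [g, h]
  have h1 : Gf g hg z ≤ pos z := by
    rw [Gf_apply]
    refine Summable.tsum_le_tsum (fun i => ?_) ?_ (summable_pos z)
    · by_cases h : 0 < x i
      · simp [g, h]
      · simp [g, h]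
    · exact Summable.of_norm_bounded (summable_abs z) fun i => by
        rw [Real.norm_eq_abs, abs_mul]
        exact mul_le_of_le_one_left (abs_nonneg _) (hg i)
  have h2 : Gf g hg x = pos x := by
    rw [Gf_apply, pos]
    refine tsum_congr fun i => ?_
    by_cases h : 0 < x i
    · simp [g, h, h.le]
    · simp [g, h, not_lt.1 h]
  have h3 := hw g hg fun i => rfl
  have h4 : Gf g hg z = l * pos x - Gf g hg w := by
    rw [hz, map_sub, map_smul, h2, smul_eq_mul]
  linarith

/-- The total mass functional. -/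
noncomputable def massF : E1 S →L[ℝ] ℝ := Gf (fun _ => 1) (by simp)

lemma massF_apply (x : E1 S) : massF x = ∑' i, x i := by
  rw [massF, Gf_apply]
  simp

lemma massF_ee (i : S) : massF (ee i : E1 S) = 1 := Gf_ee _ _ i

/-- Coordinates. -/
noncomputable def coordF (i : S) : E1 S →L[ℝ] ℝ := lp.evalCLM ℝ (fun _ : S => ℝ) 1 i

lemma coordF_apply (i : S) (x : E1 S) : coordF i x = x i := rfl

end

end Pool.Agent.Work.MP_b687c6_pr
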