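import Pool.Agent.Work.MP_b687c6_pr.Defs2

/-! Module LAP: the resolvent (Laplace transform) of a contraction semigroup on `ℓ¹`. -/

namespace Pool.Agent.Work.MP_b687c6_pr

open Filter Topology MeasureTheory

set_option linter.unusedSectionVars false

section Lap

variable {S : Type} [DecidableEq S] {P : ℝ → E1 S →L[ℝ] E1 S}

private theorem lap_small (hP : Semi P) (z : E1 S) {ε : ℝ} (hε : 0 < ε) :
    ∃ δ : ℝ, 0 < δ ∧ ∀ h, 0 ≤ h → h < δ → ‖P h z - z‖ < ε := by
  have h1 := hP.cont z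
  rw [Metric.tendsto_nhds] at h1
  have h2 := h1 ε hε
  rw [(nhdsGT_basis (0 : ℝ)).eventually_iff] at h2
  obtain ⟨δ, hδ, h3⟩ := h2
  refine ⟨δ, hδ, fun h hh hlt => ?_⟩
  rcases hh.eq_or_lt with rfl | hpos
  · rw [hP.zero, sub_self, norm_zero]
    exact hε
  · have := h3 (Set.mem_Ioo.2 ⟨hpos, hlt⟩)
    rwa [dist_eq_norm] at this

private theorem lap_diff (hP : Semi P) (z : E1 S) {s t : ℝ} (hs : 0 ≤ s) (hst : s ≤ t) :
    ‖P t z - P s z‖ ≤ ‖P (t - s) z - z‖ := by
  have h1 : P t z = P s (P (t - s) z) := by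
    have := hP.add (t - s) s (by linarith) hs z
    rwa [sub_add_cancel] at this
  rw [h1, ← map_sub]
  exact hP.contr s hs _

private theorem lap_cont (hP : Semi P) (z : E1 S) : Continuous fun t : ℝ => P (max t 0) z := by
  rw [Metric.continuous_iff]
  intro t ε hε
  obtain ⟨δ, hδ, h1⟩ := lap_small hP z hε
  refine ⟨δ, hδ, fun s hs => ?_⟩
  rw [Real.dist_eq] at hs
  rw [dist_eq_norm]
  have h2 : |max s 0 - max t 0| < δ := lt_of_le_of_lt (abs_max_sub_max_le_abs _ _ _) hs
  rcases le_total (max t 0) (max s 0) with h | h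
  · refine lt_of_le_of_lt (lap_diff hP z (le_max_right _ _) h) (h1 _ (by linarith) ?_)
    exact lt_of_le_of_lt (le_abs_self _) h2
  · rw [norm_sub_rev]
    refine lt_of_le_of_lt (lap_diff hP z (le_max_right _ _) h) (h1 _ (by linarith) ?_)
    rw [abs_sub_comm] at h2
    exact lt_of_le_of_lt (le_abs_self _) h2

/-- the integrand -/
private noncomputable def lf (P : ℝ → E1 S →L[ℝ] E1 S) (l : ℝ) (z : E1 S) (t : ℝ) : E1 S :=
  Real.exp (-(l * t)) • P (max t 0) z

private theorem lf_cont (hP : Semi P) (l : ℝ) (z : E1 S) : Continuous (lf P l z) := by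
  unfold lf
  exact (Real.continuous_exp.comp (continuous_const.mul continuous_id).neg).smul (lap_cont hP z)

private theorem lf_norm (hP : Semi P) (l : ℝ) (z : E1 S) (t : ℝ) :
    ‖lf P l z t‖ ≤ Real.exp (-(l * t)) * ‖z‖ := by
  unfold lf
  rw [norm_smul, Real.norm_eq_abs, abs_of_pos (Real.exp_pos _)]
  exact mul_le_mul_of_nonneg_left (hP.contr _ (le_max_right _ _) _) (Real.exp_pos _).le

private theorem exp_int {l : ℝ} (hl : 0 < l) :
    IntegrableOn (fun t => Real.exp (-(l * t))) (Set.Ioi 0) := by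
  have := exp_neg_integrableOn_Ioi 0 hl
  simpa [neg_mul] using this

private theorem exp_int_val {l : ℝ} (hl : 0 < l) :
    ∫ t in Set.Ioi (0 : ℝ), Real.exp (-(l * t)) = 1 / l := by
  have := integral_exp_mul_Ioi (a := -l) (by linarith) 0
  simp only [mul_zero, Real.exp_zero] at this
  rw [show (fun t => Real.exp (-(l * t))) = fun t => Real.exp (-l * t) by
    funext t; rw [neg_mul], this]
  field_simp

private theorem lf_int (hP : Semi P) {l : ℝ} (hl : 0 < l) (z : E1 S) :
    IntegrableOn (lf P l z) (Set.Ioi 0) := by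
  refine Integrable.mono' ((exp_int hl).mul_const ‖z‖)
    (lf_cont hP l z).aestronglyMeasurable ?_
  exact Eventually.of_forall fun t => lf_norm hP l z t

private noncomputable def lapL (hP : Semi P) {l : ℝ} (hl : 0 < l) : E1 S →L[ℝ] E1 S :=
  LinearMap.mkContinuous
    { toFun := fun z => ∫ t in Set.Ioi (0 : ℝ), lf P l z t
      map_add' := by
        intro x y
        rw [← integral_add (lf_int hP hl x) (lf_int hP hl y)]
        congr 1
        funext t
        simp only [lf, map_add, smul_add]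
      map_smul' := by
        intro c x
        rw [RingHom.id_apply, ← integral_smul]
        congr 1
        funext t
        simp only [lf, map_smul]
        rw [smul_comm] } (1 / l) (by
    intro x
    simp only [LinearMap.coe_mk, AddHom.coe_mk]
    refine (norm_integral_le_of_norm_le ((exp_int hl).mul_const ‖x‖)
      (Eventually.of_forall fun t => lf_norm hP l x t)).trans ?_
    rw [integral_mul_const, exp_int_val hl])

private theorem lapL_apply (hP : Semi P) {l : ℝ} (hl : 0 < l) (z : E1 S) :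
    lapL hP hl z = ∫ t in Set.Ioi (0 : ℝ), lf P l z t := rfl

private theorem lapL_norm (hP : Semi P) {l : ℝ} (hl : 0 < l) (z : E1 S) :
    l * ‖lapL hP hl z‖ ≤ ‖z‖ := by
  have h1 : ‖lapL hP hl z‖ ≤ 1 / l * ‖z‖ := by
    refine (norm_integral_le_of_norm_le ((exp_int hl).mul_const ‖z‖)
      (Eventually.of_forall fun t => lf_norm hP l z t)).trans ?_
    rw [integral_mul_const, exp_int_val hl]
  calc l * ‖lapL hP hl z‖ ≤ l * (1 / l * ‖z‖) := mul_le_mul_of_nonneg_left h1 hl.le
    _ = ‖z‖ := by field_simp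

private theorem lapL_coord (hP : Semi P) {l : ℝ} (hl : 0 < l) (z : E1 S) (j : S) :
    lapL hP hl z j = ∫ t in Set.Ioi (0 : ℝ), Real.exp (-(l * t)) * P t z j := by
  have h1 := (coordF j : E1 S →L[ℝ] ℝ).integral_comp_comm (lf_int hP hl z)
  rw [coordF_apply] at h1
  rw [lapL_apply, ← h1]
  apply setIntegral_congr_fun measurableSet_Ioi
  intro t ht
  have ht' : max t 0 = t := max_eq_left (le_of_lt ht)
  simp only [coordF_apply, lf, ht', lp.coeFn_smul, Pi.smul_apply, smul_eq_mul]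

private theorem lf_shift (hP : Semi P) (l : ℝ) (z : E1 S) {h t : ℝ} (hh : 0 ≤ h) (ht : 0 ≤ t) :
    P h (lf P l z t) = Real.exp (l * h) • lf P l z (t + h) := by
  unfold lf
  rw [map_smul, max_eq_left ht, max_eq_left (by linarith : (0 : ℝ) ≤ t + h), hP.add t h ht hh,
    smul_smul, ← Real.exp_add]
  congr 2
  ring

private theorem lapL_semi (hP : Semi P) {l : ℝ} (hl : 0 < l) (z : E1 S) {h : ℝ} (hh : 0 ≤ h) :
    P h (lapL hP hl z) = Real.exp (l * h) • (lapL hP hl z - ∫ t in (0 : ℝ)..h, lf P l z t) := by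
  have h1 := (P h).integral_comp_comm (lf_int hP hl z)
  rw [lapL_apply, ← h1]
  have h2 : ∫ t in Set.Ioi (0 : ℝ), P h (lf P l z t) =
      ∫ t in Set.Ioi (0 : ℝ), Real.exp (l * h) • lf P l z (t + h) := by
    apply setIntegral_congr_fun measurableSet_Ioi
    intro t ht
    exact lf_shift hP l z hh (le_of_lt ht)
  rw [h2, integral_smul]
  congr 1
  have h3 : ∫ t in Set.Ioi (0 : ℝ), lf P l z (t + h) = ∫ t in Set.Ioi h, lf P l z t := by
    rw [← integral_indicator measurableSet_Ioi, ← integral_indicator measurableSet_Ioi]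
    rw [← integral_add_right_eq_self ((Set.Ioi h).indicator (lf P l z)) h]
    congr 1
    funext t
    by_cases ht : 0 < t
    · rw [Set.indicator_of_mem (Set.mem_Ioi.2 ht), Set.indicator_of_mem]
      exact Set.mem_Ioi.2 (by linarith)
    · rw [Set.indicator_of_notMem (by simpa using ht), Set.indicator_of_notMem]
      simpa using ht
  rw [h3, intervalIntegral.integral_of_le hh]
  have h4 : Set.Ioi (0 : ℝ) = Set.Ioc 0 h ∪ Set.Ioi h := (Set.Ioc_union_Ioi_eq_Ioi hh).symm
  have h5 : ∫ t in Set.Ioi (0 : ℝ), lf P l z t =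
      (∫ t in Set.Ioc 0 h, lf P l z t) + ∫ t in Set.Ioi h, lf P l z t := by
    conv_lhs => rw [h4]
    rw [setIntegral_union (Set.Ioc_disjoint_Ioi le_rfl) measurableSet_Ioi]
    · exact (lf_int hP hl z).mono_set Set.Ioc_subset_Ioi_self
    · exact (lf_int hP hl z).mono_set (Set.Ioi_subset_Ioi hh)
  rw [h5]
  abel

private theorem lapL_gen (hP : Semi P) {l : ℝ} (hl : 0 < l) (z : E1 S) :
    IsGen P (lapL hP hl z) (l • lapL hP hl z - z) := by
  unfold IsGen
  set R := lapL hP hl z with hR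
  -- derivative of the exponential
  have e1 : Tendsto (fun h : ℝ => h⁻¹ * (Real.exp (l * h) - 1)) (𝓝[>] 0) (𝓝 l) := by
    have h1 : HasDerivAt (fun h : ℝ => Real.exp (l * h)) (Real.exp (l * 0) * (l * 1)) 0 :=
      (((hasDerivAt_id (0 : ℝ)).const_mul l)).exp
    have h2 := (hasDerivAt_iff_tendsto_slope_zero.1 h1).mono_left
      (nhdsWithin_mono (0 : ℝ)
        (show Set.Ioi (0 : ℝ) ⊆ {0}ᶜ from fun x hx => ne_of_gt (Set.mem_Ioi.1 hx)))
    simpa using h2
  have e2 : Tendsto (fun h : ℝ => Real.exp (l * h)) (𝓝[>] 0) (𝓝 1) := by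
    have h1 : Continuous fun h : ℝ => Real.exp (l * h) := by fun_prop
    have h2 := (h1.tendsto 0).mono_left (nhdsWithin_le_nhds (s := Set.Ioi (0 : ℝ)))
    simpa using h2
  have e3 : Tendsto (fun h : ℝ => h⁻¹ • ∫ t in (0 : ℝ)..h, lf P l z t) (𝓝[>] 0) (𝓝 z) := by
    have h1 : HasDerivAt (fun h : ℝ => ∫ t in (0 : ℝ)..h, lf P l z t) (lf P l z 0) 0 :=
      (lf_cont hP l z).integral_hasStrictDerivAt 0 0 |>.hasDerivAt
    have h2 := (hasDerivAt_iff_tendsto_slope_zero.1 h1).mono_left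
      (nhdsWithin_mono (0 : ℝ)
        (show Set.Ioi (0 : ℝ) ⊆ {0}ᶜ from fun x hx => ne_of_gt (Set.mem_Ioi.1 hx)))
    have h3 : lf P l z 0 = z := by
      unfold lf
      simp [hP.zero]
    rw [h3] at h2
    simpa using h2
  have e4 : Tendsto (fun h : ℝ => (h⁻¹ * (Real.exp (l * h) - 1)) • R -
      Real.exp (l * h) • (h⁻¹ • ∫ t in (0 : ℝ)..h, lf P l z t)) (𝓝[>] 0)
      (𝓝 (l • R - (1 : ℝ) • z)) := (e1.smul_const R).sub (e2.smul e3)
  rw [one_smul] at e4
  refine e4.congr' ?_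
  filter_upwards [self_mem_nhdsWithin] with h hh
  rw [hR, lapL_semi hP hl z (le_of_lt hh), ← hR]
  module

private theorem lapL_comm (hP : Semi P) {l : ℝ} (hl : 0 < l) (z : E1 S) {h : ℝ} (hh : 0 ≤ h) :
    lapL hP hl (P h z) = P h (lapL hP hl z) := by
  have h1 := (P h).integral_comp_comm (lf_int hP hl z)
  rw [lapL_apply, lapL_apply, ← h1]
  apply setIntegral_congr_fun measurableSet_Ioi
  intro t ht
  have ht' : (0 : ℝ) ≤ t := le_of_lt ht
  simp only [lf, map_smul, max_eq_left ht']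
  rw [← hP.add h t hh ht', ← hP.add t h ht' hh, add_comm]

private theorem lapL_left (hP : Semi P) {l : ℝ} (hl : 0 < l) {x y : E1 S} (hxy : IsGen P x y) :
    lapL hP hl (l • x - y) = x := by
  have h1 : Tendsto (fun t : ℝ => lapL hP hl (t⁻¹ • (P t x - x))) (𝓝[>] 0)
      (𝓝 (lapL hP hl y)) := ((lapL hP hl).continuous.tendsto y).comp hxy
  have h2 := lapL_gen hP hl x
  have h3 : lapL hP hl y = l • lapL hP hl x - x := by
    refine tendsto_nhds_unique h1 ?_
    refine h2.congr' ?_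
    filter_upwards [self_mem_nhdsWithin] with t ht
    rw [map_smul, map_sub, lapL_comm hP hl x (le_of_lt ht)]
  rw [map_sub, map_smul, h3]
  abel

end Lap

theorem exists_lap {S : Type} [DecidableEq S] [Countable S] {P : ℝ → E1 S →L[ℝ] E1 S}
    (hP : Semi P) :
    ∃ Rl : ℝ → E1 S →L[ℝ] E1 S, ∀ l : ℝ, 0 < l →
      (∀ z, IsGen P (Rl l z) (l • Rl l z - z)) ∧
      (∀ x y, IsGen P x y → Rl l (l • x - y) = x) ∧
      (∀ z, l * ‖Rl l z‖ ≤ ‖z‖) ∧
      (∀ z : E1 S, (∀ i, 0 ≤ z i) → ∀ i, 0 ≤ Rl l z i) ∧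
      (∀ z j, Rl l z j = ∫ t in Set.Ioi (0 : ℝ), Real.exp (-(l * t)) * P t z j) := by
  refine ⟨fun l => if hl : 0 < l then lapL hP hl else 0, fun l hl => ?_⟩
  simp only [dif_pos hl]
  refine ⟨lapL_gen hP hl, fun x y h => lapL_left hP hl h, lapL_norm hP hl, fun z hz i => ?_,
    lapL_coord hP hl⟩
  rw [lapL_coord hP hl]
  apply setIntegral_nonneg measurableSet_Ioi
  intro t ht
  exact mul_nonneg (Real.exp_pos _).le (hP.pos t (le_of_lt ht) z hz i)

end Pool.Agent.Work.MP_b687c6_pr
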