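import Pool.Agent.Work.MP_b687c6_pr.Calc
import Pool.Agent.Work.MP_b687c6_pr.Lap
import Pool.Agent.Work.MP_b687c6_pr.Abel

/-! The inverses of the finite sections of the `1`-resolvent converge to `I - Q`. -/

namespace Pool.Agent.Work.MP_b687c6_pr

open Filter Topology MeasureTheory

section
variable {P : ℝ → E1 ℕ →L[ℝ] E1 ℕ} (hP : Semi P) {R₁ : E1 ℕ →L[ℝ] E1 ℕ}
  (hR₁ : IsRes P 1 R₁)

include hP hR₁

/-- The equilibrium charges of `{0, ..., n-1}`. -/
lemma exists_charges : ∃ z : ℕ → ℕ → E1 ℕ, ∀ n i, Supp (Finset.range n) (z n i) ∧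
    ∀ k ∈ Finset.range n, R₁ (z n i) k = if i = k then 1 else 0 := by
  have h := fun n i => calc_exists hP one_pos hR₁ (Finset.range n) fun k => if i = k then 1 else 0
  choose z hz using h
  exact ⟨z, hz⟩

omit hR₁ hP in
lemma coord_sum (R : E1 ℕ →L[ℝ] E1 ℕ) {n : ℕ} {z : E1 ℕ} (hz : Supp (Finset.range n) z) (k : ℕ) :
    R z k = ∑ j : Fin n, z j * R (ee (j : ℕ)) k := by
  have h1 : z = ∑ j ∈ Finset.range n, z j • (ee j : E1 ℕ) := by
    have h2 := hasSum_ee z
    refine h2.unique (hasSum_sum_of_ne_finset_zero fun j hj => ?_)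
    rw [hz j hj, zero_smul]
  have h3 : R z k = ∑ j ∈ Finset.range n, z j * R (ee j) k := by
    conv_lhs => rw [h1]
    rw [map_sum, ← coordF_apply, map_sum]
    refine Finset.sum_congr rfl fun j _ => ?_
    rw [map_smul, map_smul, coordF_apply, smul_eq_mul]
  rw [h3, Finset.sum_range]

lemma sec_inv {z : ℕ → ℕ → E1 ℕ} (hz : ∀ n i, Supp (Finset.range n) (z n i) ∧
    ∀ k ∈ Finset.range n, R₁ (z n i) k = if i = k then 1 else 0) (n : ℕ) :
    IsUnit (secM (fun i j => R₁ (ee i) j) n) ∧
      (secM (fun i j => R₁ (ee i) j) n)⁻¹ = fun i j : Fin n => z n i j := by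
  classical
  set Z : Matrix (Fin n) (Fin n) ℝ := fun i j : Fin n => z n i j with hZ
  have h1 : Z * secM (fun i j => R₁ (ee i) j) n = 1 := by
    ext i k
    rw [Matrix.mul_apply, Matrix.one_apply]
    have h2 := coord_sum R₁ (hz n i).1 (k : ℕ)
    rw [(hz n i).2 k (Finset.mem_range.2 k.2)] at h2
    simp only [Z, secM]
    rw [← h2]
    simp only [Fin.ext_iff]
  refine ⟨?_, Matrix.inv_eq_left_inv h1⟩
  exact (Matrix.isUnit_iff_isUnit_det _).2 (Matrix.isUnit_det_of_left_inverse h1)

/-- The equilibrium potentials converge to the unit vector. -/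
lemma pot_tendsto {z : ℕ → ℕ → E1 ℕ} (hz : ∀ n i, Supp (Finset.range n) (z n i) ∧
    ∀ k ∈ Finset.range n, R₁ (z n i) k = if i = k then 1 else 0) (i : ℕ) :
    Tendsto (fun n => ‖R₁ (z n i) - ee i‖) atTop (𝓝 0) := by
  set w : E1 ℕ := R₁ (z (i + 1) i) with hw
  have htail : Tendsto (fun n => ∑' l, |w (l + n)|) atTop (𝓝 0) :=
    tendsto_sum_nat_add fun l => |w l|
  refine squeeze_zero' (Eventually.of_forall fun n => norm_nonneg _) ?_ htail
  filter_upwards [eventually_ge_atTop (i + 1)] with n hn
  have hposn : ∀ l, 0 ≤ R₁ (z n i) l := by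
    refine calc_dom hP one_pos hR₁ (fun j hj => ((hz n i).1 j hj).ge) fun k hk => ?_
    rw [(hz n i).2 k hk]
    split_ifs <;> norm_num
  have hmono := (calc_mono hP one_pos hR₁ (K₀ := Finset.range (i + 1)) (K := Finset.range n)
    (Finset.range_subset_range.2 hn) (hz (i + 1) i).1 (hz n i).1 (hz (i + 1) i).2 (hz n i).2
    (Finset.mem_range.2 (Nat.lt_succ_self i))).1
  have h1 : ∀ l, l < n → (R₁ (z n i) - ee i) l = 0 := by
    intro l hl
    rw [lp.coeFn_sub, Pi.sub_apply, ee_apply, (hz n i).2 l (Finset.mem_range.2 hl), sub_self]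
  rw [norm_eq_tsum, ← (summable_abs (R₁ (z n i) - ee i)).sum_add_tsum_nat_add n,
    Finset.sum_eq_zero, zero_add]
  · refine Summable.tsum_le_tsum (fun l => ?_) ?_ ?_
    · rw [lp.coeFn_sub, Pi.sub_apply, ee_apply, if_neg (by omega), sub_zero,
        abs_of_nonneg (hposn _)]
      exact (hmono _).trans (le_abs_self _)
    · exact (summable_nat_add_iff n).2 (summable_abs _)
    · exact (summable_nat_add_iff n).2 (summable_abs w)
  · intro l hl
    rw [h1 l (Finset.mem_range.1 hl), abs_zero]

/-- Upper bound: `Q i j ≤ δ i j - z n i j`. -/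
lemma q_le {Q : ℕ → ℕ → EReal} (hQ : HasQ (fun i j t => P t (ee i) j) Q)
    {z : ℕ → ℕ → E1 ℕ} (hz : ∀ n i, Supp (Finset.range n) (z n i) ∧
    ∀ k ∈ Finset.range n, R₁ (z n i) k = if i = k then 1 else 0) {n i j : ℕ} (hi : i < n)
    (hj : j < n) : Q i j ≤ (((if i = j then 1 else 0) - z n i j : ℝ) : EReal) := by
  set x : E1 ℕ := R₁ (z n i) with hx
  have hpos : ∀ l, 0 ≤ x l := by
    refine calc_dom hP one_pos hR₁ (fun j hj => ((hz n i).1 j hj).ge) fun k hk => ?_
    rw [(hz n i).2 k hk]
    split_ifs <;> norm_num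
  have hge : ∀ l, 0 ≤ (x - ee i) l := by
    intro l
    rw [lp.coeFn_sub, Pi.sub_apply, ee_apply]
    by_cases hl : l < n
    · rw [hx, (hz n i).2 l (Finset.mem_range.2 hl), sub_self]
    · rw [if_neg (by omega), sub_zero]
      exact hpos l
  have hxj : x j = if i = j then 1 else 0 := (hz n i).2 j (Finset.mem_range.2 hj)
  have h1 : Tendsto (fun t : ℝ => coordF j (t⁻¹ • (P t x - x))) (𝓝[>] 0)
      (𝓝 (coordF j ((1 : ℝ) • x - z n i))) :=
    ((coordF j).continuous.tendsto _).comp (hR₁ (z n i))
  have h2 : coordF j ((1 : ℝ) • x - z n i) = (if i = j then 1 else 0) - z n i j := by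
    rw [one_smul, map_sub, coordF_apply, coordF_apply, hxj]
  rw [h2] at h1
  have h3 := (continuous_coe_real_ereal.tendsto _).comp h1
  refine le_of_tendsto_of_tendsto (hQ i j) h3 ?_
  filter_upwards [self_mem_nhdsWithin] with t ht
  have ht0 : (0 : ℝ) < t := ht
  rw [Function.comp_apply, EReal.coe_le_coe_iff, map_smul, map_sub, coordF_apply, coordF_apply, hxj,
    smul_eq_mul, div_eq_inv_mul]
  have h4 := hP.pos t ht0.le _ hge j
  rw [map_sub, lp.coeFn_sub, Pi.sub_apply] at h4
  have h5 : (0 : ℝ) ≤ t⁻¹ := (inv_pos.2 ht0).le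
  gcongr
  linarith

end

/-- The limit theorem. -/
theorem lim_good {P : ℝ → E1 ℕ →L[ℝ] E1 ℕ} (hP : Semi P) {R₁ : E1 ℕ →L[ℝ] E1 ℕ}
    (hR₁ : IsRes P 1 R₁) {Q : ℕ → ℕ → EReal}
    (hcont : ∀ i j, ContinuousOn (fun t => P t (ee i) j) (Set.Ioi 0))
    (hQ : HasQ (fun i j t => P t (ee i) j) Q) :
    GoodR (fun i j => R₁ (ee i) j) ∧ InvLimit (fun i j => R₁ (ee i) j) Q := by
  classical
  obtain ⟨z, hz⟩ := exists_charges hP hR₁
  have hR0 : ∀ i j, 0 ≤ R₁ (ee i) j := by
    intro i j
    refine calc_dom hP one_pos hR₁ (K := ∅) (fun k _ => ?_) (fun k hk => ?_) j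
    · rw [ee_apply]
      split_ifs <;> norm_num
    · simp at hk
  refine ⟨⟨hR0, fun n => ?_⟩, ?_⟩
  · obtain ⟨h1, h2⟩ := sec_inv hP hR₁ hz n
    refine ⟨h1, fun i j hij => ?_, fun i => ?_⟩
    · rw [h2]
      exact (calc_sign hP one_pos hR₁ (hz n i).1 (Finset.mem_range.2 i.2) (hz n i).2).1 j
        fun h => hij (Fin.ext h.symm)
    · rw [h2]
      have h3 := (calc_sign hP one_pos hR₁ (hz n i).1 (Finset.mem_range.2 i.2) (hz n i).2).2
      refine h3.trans (le_of_eq ?_)
      rw [massF_apply, tsum_eq_sum (s := Finset.range n) fun j hj => (hz n i).1 j hj,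
        Finset.sum_range]
  -- the limit
  obtain ⟨Rl, hRl⟩ := exists_lap hP
  have hres : ∀ l : ℝ, 1 ≤ l → ∀ w, R₁ w = Rl l (w + (l - 1) • R₁ w) := by
    intro l hl w
    have h1 := (hRl l (by linarith)).2.1 (R₁ w) ((1 : ℝ) • R₁ w - w) (hR₁ w)
    rw [← h1]
    congr 1
    rw [h1, sub_smul, one_smul]
    abel
  have hIs : ∀ l : ℝ, 0 < l → IsRes P l (Rl l) := fun l hl => (hRl l hl).1
  -- `l R_l e_i → e_i`
  have hself : ∀ i, Tendsto (fun l : ℝ => l • Rl l (ee i)) atTop (𝓝 (ee i)) := by
    intro i
    rw [tendsto_iff_norm_sub_tendsto_zero, Metric.tendsto_atTop]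
    intro ε hε
    have hv := pot_tendsto hP hR₁ hz i
    obtain ⟨n, hn⟩ := ((tendsto_order.1 hv).2 (ε / 4) (by positivity)).exists
    set x : E1 ℕ := R₁ (z n i) with hx
    set y : E1 ℕ := (1 : ℝ) • x - z n i with hy
    refine ⟨max 1 (4 * (‖y‖ + 1) / ε), fun l hl => ?_⟩
    have hl1 : 1 ≤ l := (le_max_left _ _).trans hl
    have hl0 : 0 < l := by linarith
    have h1 : Rl l (l • x - y) = x := (hRl l hl0).2.1 x y (hR₁ (z n i))
    have h2 : l • Rl l x - x = Rl l y := by
      rw [map_sub, map_smul] at h1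
      rw [sub_eq_iff_eq_add.1 h1]
      abel
    have h3 : ∀ w, l * ‖Rl l w‖ ≤ ‖w‖ := (hRl l hl0).2.2.1
    have h4 : ‖Rl l y‖ ≤ ε / 4 := by
      have h5 := h3 y
      have h6 : 4 * (‖y‖ + 1) / ε ≤ l := (le_max_right _ _).trans hl
      rw [div_le_iff₀ hε] at h6
      have h7 := norm_nonneg (Rl l y)
      by_contra hcon
      push Not at hcon
      have : l * (ε / 4) < l * ‖Rl l y‖ := by gcongr
      nlinarith
    rw [Real.dist_eq, sub_zero, abs_of_nonneg (norm_nonneg _)]
    have h8 : l • Rl l (ee i) - ee i =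
        l • Rl l (ee i - x) + (l • Rl l x - x) + (x - ee i) := by
      rw [map_sub, smul_sub]
      abel
    have h9 : ‖l • Rl l (ee i - x)‖ ≤ ε / 4 := by
      rw [norm_smul, Real.norm_of_nonneg hl0.le]
      refine (h3 _).trans ?_
      rw [norm_sub_rev]
      exact hn.le
    rw [h8, h2]
    calc ‖l • Rl l (ee i - x) + Rl l y + (x - ee i)‖
        ≤ ‖l • Rl l (ee i - x)‖ + ‖Rl l y‖ + ‖x - ee i‖ :=
          (norm_add_le _ _).trans (add_le_add_left (norm_add_le _ _) _)
      _ < ε := by linarith
  have hself' : ∀ i j, Tendsto (fun l : ℝ => l * Rl l (ee i) j) atTop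
      (𝓝 (if i = j then 1 else 0)) := by
    intro i j
    have h1 := ((coordF j).continuous.tendsto _).comp (hself i)
    rw [coordF_apply, ee_apply] at h1
    refine h1.congr fun l => ?_
    rw [Function.comp_apply, map_smul, coordF_apply, smul_eq_mul]
  have hP1 : ∀ t, 0 < t → ∀ i j, 0 ≤ P t (ee i) j ∧ P t (ee i) j ≤ 1 := by
    intro t ht i j
    refine ⟨hP.pos t ht.le _ (fun k => ?_) j, ?_⟩
    · rw [ee_apply]
      split_ifs <;> norm_num
    · have h1 := lp.norm_apply_le_norm (p := 1) (by norm_num) (P t (ee i)) j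
      have h2 := hP.contr t ht.le (ee i)
      rw [norm_ee] at h2
      exact (le_abs_self _).trans (h1.trans h2)
  have habel : ∀ i j, Tendsto (fun l : ℝ =>
      ((l * (l * Rl l (ee i) j - if i = j then 1 else 0) : ℝ) : EReal)) atTop (𝓝 (Q i j)) := by
    intro i j
    have h1 := abel_lemma (fun t => P t (ee i) j - if i = j then 1 else 0)
      ((hcont i j).sub continuousOn_const) (fun t ht => ?_) (Q i j) (hQ i j)
    · refine h1.congr' ?_
      filter_upwards [eventually_gt_atTop 0] with l hl
      congr 1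
      have hexp : IntegrableOn (fun t : ℝ => Real.exp (-(l * t))) (Set.Ioi 0) := by
        have := integrableOn_exp_mul_Ioi (neg_lt_zero.2 hl) 0
        refine this.congr_fun (fun t _ => ?_) measurableSet_Ioi
        simp only [neg_mul]
      have hint : IntegrableOn (fun t : ℝ => Real.exp (-(l * t)) * P t (ee i) j) (Set.Ioi 0) := by
        refine Integrable.mono' hexp ?_ ?_
        · exact (ContinuousOn.mul (by fun_prop) (hcont i j)).aestronglyMeasurable measurableSet_Ioi
        · refine (ae_restrict_iff' measurableSet_Ioi).2 (Eventually.of_forall fun t ht => ?_)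
          have h2 := hP1 t ht i j
          rw [Real.norm_eq_abs, abs_mul, Real.abs_exp, abs_of_nonneg h2.1]
          exact mul_le_of_le_one_right (Real.exp_pos _).le h2.2
      have h3 : ∫ t in Set.Ioi (0 : ℝ), Real.exp (-(l * t)) = l⁻¹ := by
        have h4 := integral_exp_mul_Ioi (neg_lt_zero.2 hl) 0
        simp only [neg_mul, mul_zero, Real.exp_zero] at h4
        rw [h4]
        field_simp
      have h5 : ∫ t in Set.Ioi (0 : ℝ), Real.exp (-(l * t)) *
          (P t (ee i) j - if i = j then 1 else 0) =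
          Rl l (ee i) j - (if i = j then 1 else 0) * l⁻¹ := by
        rw [(hRl l hl).2.2.2.2 (ee i) j, ← h3, ← integral_const_mul, ← integral_sub hint
          (hexp.const_mul _)]
        refine setIntegral_congr_fun measurableSet_Ioi fun t _ => ?_
        simp only
        ring
      rw [h5]
      field_simp
    · have h2 := hP1 t ht i j
      by_cases hij : i = j
      · rw [if_pos hij, abs_le]
        constructor <;> linarith
      · rw [if_neg hij, abs_le]
        constructor <;> linarith
  -- values for small sets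
  have hsmall : ∀ i j, ∀ c : ℝ, (c : EReal) < (if i = j then 1 else 0) - Q i j →
      ∃ l : ℝ, 1 < l ∧ ∃ w : E1 ℕ, Supp {i, j} w ∧
        (∀ k ∈ ({i, j} : Finset ℕ), Rl l w k = if i = k then 1 else 0) ∧
        c < w j - (l - 1) * (if i = j then 1 else 0) := by
    intro i j c hc
    by_cases hij : i = j
    · subst hij
      rw [if_pos rfl] at hc
      have h1 := hself' i i
      rw [if_pos rfl] at h1
      have h2 := habel i i
      simp only [if_true] at h2
      -- `l - 1 / r → Q i i`
      have h3 : ∀ᶠ l : ℝ in atTop, c < (Rl l (ee i) i)⁻¹ - (l - 1) := by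
        have hQ0 : Q i i ≤ 0 := by
          refine le_of_tendsto h2 ?_
          filter_upwards [eventually_gt_atTop 0] with l hl
          have h4 := (hRl l hl).2.2.1 (ee i)
          rw [norm_ee] at h4
          have h5 := lp.norm_apply_le_norm (p := 1) (by norm_num) (Rl l (ee i)) i
          have h6 : Rl l (ee i) i ≤ ‖Rl l (ee i)‖ := (le_abs_self _).trans h5
          have h7 : l * Rl l (ee i) i ≤ 1 := (mul_le_mul_of_nonneg_left h6 hl.le).trans h4
          have h8 : l * (l * Rl l (ee i) i - 1) ≤ 0 :=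
            mul_nonpos_of_nonneg_of_nonpos hl.le (by linarith)
          exact_mod_cast h8
        -- `a l = l (l r - 1)`, `b l = l r`
        have hab : ∀ᶠ l : ℝ in atTop, (Rl l (ee i) i)⁻¹ - (l - 1) =
            1 - (l * (l * Rl l (ee i) i - 1)) / (l * Rl l (ee i) i) := by
          filter_upwards [eventually_gt_atTop 0, h1.eventually_const_lt one_half_lt_one]
            with l hl hlr
          have hr : Rl l (ee i) i ≠ 0 := by
            intro h
            rw [h, mul_zero] at hlr
            linarith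
          field_simp
          ring
        induction hq : Q i i with
        | bot =>
          rw [hq] at h2
          have h4 : Tendsto (fun l : ℝ => l * (l * Rl l (ee i) i - 1)) atTop atBot :=
            EReal.tendsto_coe_nhds_bot_iff.1 h2
          have h5 : Tendsto (fun l : ℝ => (l * (l * Rl l (ee i) i - 1)) / (l * Rl l (ee i) i))
              atTop atBot := by
            simp only [div_eq_mul_inv]
            exact h4.atBot_mul_pos (C := 1) one_pos (by simpa using h1.inv₀ one_ne_zero)
          filter_upwards [hab, h5.eventually_lt_atBot (1 - c)] with l h6 h7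
          rw [h6]
          linarith
        | coe q =>
          rw [hq] at h2 hc
          have h4 : Tendsto (fun l : ℝ => l * (l * Rl l (ee i) i - 1)) atTop (𝓝 q) :=
            EReal.tendsto_coe.1 h2
          have h5 := h4.div h1 one_ne_zero
          rw [div_one] at h5
          have hc' : c < 1 - q := by exact_mod_cast hc
          filter_upwards [hab, h5.eventually_lt_const (show q < 1 - c by linarith)] with l h6 h7
          rw [h6]
          simp only [Pi.div_apply] at h7
          linarith
        | top =>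
          rw [hq] at hQ0
          exact absurd hQ0 (by simp)
      obtain ⟨l, ⟨hl1, hl2⟩, hl3⟩ := ((h3.and (h1.eventually_const_lt one_half_lt_one)).and
        (eventually_gt_atTop 1)).exists
      have hr : Rl l (ee i) i ≠ 0 := by
        intro h
        rw [h, mul_zero] at hl2
        linarith
      refine ⟨l, hl3, (Rl l (ee i) i)⁻¹ • ee i, fun k hk => ?_, fun k hk => ?_, ?_⟩
      · rw [lp.coeFn_smul, Pi.smul_apply, ee_apply, if_neg, smul_zero]
        intro h
        exact hk (by simp [h])
      · have hk' : k = i := by simpa using hk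
        subst hk'
        rw [map_smul, lp.coeFn_smul, Pi.smul_apply, smul_eq_mul, inv_mul_cancel₀ hr, if_pos rfl]
      · rw [lp.coeFn_smul, Pi.smul_apply, ee_apply, if_pos rfl, smul_eq_mul, mul_one, mul_one]
        exact hl1
    · rw [if_neg hij] at hc
      have hii := hself' i i
      have hjj := hself' j j
      have hij' := hself' i j
      have hji := hself' j i
      rw [if_pos rfl] at hii hjj
      rw [if_neg hij] at hij'
      rw [if_neg (Ne.symm hij)] at hji
      have h2 := habel i j
      simp only [if_neg hij, sub_zero] at h2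
      have hD : Tendsto (fun l : ℝ => (l * Rl l (ee i) i) * (l * Rl l (ee j) j) -
          (l * Rl l (ee i) j) * (l * Rl l (ee j) i)) atTop (𝓝 1) := by
        have := (hii.mul hjj).sub (hij'.mul hji)
        simpa using this
      -- finiteness of `Q i j`
      have hfin : Q i j ≤ (((if i = j then 1 else 0) - z (max i j + 1) i j : ℝ) : EReal) :=
        q_le hP hR₁ hQ hz (by omega) (by omega)
      have hQ0 : 0 ≤ Q i j := by
        refine ge_of_tendsto h2 ?_
        filter_upwards [eventually_gt_atTop 0] with l hl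
        have h3 := (hRl l hl).2.2.2.1 (ee i) (fun k => by
          rw [ee_apply]; split_ifs <;> norm_num) j
        have h4 : (0 : ℝ) ≤ l * (l * Rl l (ee i) j) := by positivity
        exact_mod_cast h4
      obtain ⟨q, hq⟩ : ∃ q : ℝ, Q i j = q := by
        induction hq : Q i j with
        | bot => rw [hq] at hQ0; exact absurd hQ0 (by simp)
        | coe q => exact ⟨q, rfl⟩
        | top => rw [hq] at hfin; exact absurd hfin (not_le.2 (EReal.coe_lt_top _))
      rw [hq] at h2 hc
      have h4 : Tendsto (fun l : ℝ => l * (l * Rl l (ee i) j)) atTop (𝓝 q) :=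
        EReal.tendsto_coe.1 h2
      have h5 := h4.div hD one_ne_zero
      rw [div_one] at h5
      have hc' : c < -q := by
        rw [zero_sub] at hc
        exact_mod_cast hc
      obtain ⟨l, ⟨hl1, hl2⟩, hl3⟩ := ((h5.eventually_lt_const (show q < -c by linarith)).and
        (hD.eventually_const_lt one_half_lt_one)).and (eventually_gt_atTop 1) |>.exists
      have hl0 : 0 < l := by linarith
      set D : ℝ := Rl l (ee i) i * Rl l (ee j) j - Rl l (ee i) j * Rl l (ee j) i with hDdef
      have hDl : (l * Rl l (ee i) i) * (l * Rl l (ee j) j) -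
          (l * Rl l (ee i) j) * (l * Rl l (ee j) i) = l * l * D := by
        rw [hDdef]; ring
      have hD0 : D ≠ 0 := by
        intro h
        rw [hDl, h, mul_zero] at hl2
        linarith
      refine ⟨l, hl3, (Rl l (ee j) j / D) • ee i - (Rl l (ee i) j / D) • ee j,
        fun k hk => ?_, fun k hk => ?_, ?_⟩
      · have hk' : ¬ i = k ∧ ¬ j = k := by
          constructor <;> (intro h; exact hk (by simp [h]))
        rw [lp.coeFn_sub, Pi.sub_apply, lp.coeFn_smul, Pi.smul_apply, lp.coeFn_smul, Pi.smul_apply,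
          ee_apply, ee_apply, if_neg hk'.1, if_neg hk'.2]
        simp
      · rw [map_sub, map_smul, map_smul, lp.coeFn_sub, Pi.sub_apply, lp.coeFn_smul, Pi.smul_apply,
          lp.coeFn_smul, Pi.smul_apply, smul_eq_mul, smul_eq_mul]
        rcases Finset.mem_insert.1 hk with h | h
        · subst h
          rw [if_pos rfl, div_mul_eq_mul_div, div_mul_eq_mul_div, ← sub_div, div_eq_one_iff_eq hD0,
            hDdef]
          ring
        · have h' : k = j := by simpa using h
          subst h'
          rw [if_neg hij]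
          ring
      · rw [lp.coeFn_sub, Pi.sub_apply, lp.coeFn_smul, Pi.smul_apply, lp.coeFn_smul, Pi.smul_apply,
          ee_apply, ee_apply, if_neg hij, if_pos rfl, smul_eq_mul, smul_eq_mul, mul_zero, zero_sub,
          mul_one, mul_zero, sub_zero]
        simp only [Pi.div_apply] at hl1
        rw [hDl] at hl1
        have h6 : l * (l * Rl l (ee i) j) / (l * l * D) = Rl l (ee i) j / D := by
          field_simp
        rw [h6] at hl1
        linarith
  intro i j
  have hval : ∀ n, i < n → j < n →
      invEntry (fun i j => R₁ (ee i) j) n i j = z n i j := by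
    intro n hi hj
    rw [invEntry, dif_pos ⟨hi, hj⟩, (sec_inv hP hR₁ hz n).2]
  rw [tendsto_order]
  constructor
  · intro a ha
    obtain ⟨c, hc1, hc2⟩ := EReal.lt_iff_exists_real_btwn.1 ha
    obtain ⟨l, hl, w, hw1, hw2, hw3⟩ := hsmall i j c hc2
    have hl0 : 0 < l := by linarith
    have h1 : Tendsto (fun n => (l - 1) * ‖R₁ (z n i) - ee i‖) atTop (𝓝 0) := by
      have := (pot_tendsto hP hR₁ hz i).const_mul (l - 1)
      simpa using this
    filter_upwards [h1.eventually_lt_const (sub_pos.2 hw3), eventually_gt_atTop i,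
      eventually_gt_atTop j] with n hn hi hj
    rw [hval n hi hj]
    refine hc1.trans ?_
    rw [EReal.coe_lt_coe_iff]
    obtain ⟨zl, hzl1, hzl2⟩ := calc_exists hP hl0 (hIs l hl0) (Finset.range n)
      fun k => if i = k then 1 else 0
    have h2 : w j ≤ zl j := (calc_mono hP hl0 (hIs l hl0) (K₀ := {i, j}) (K := Finset.range n)
      (by
        intro k hk
        rcases Finset.mem_insert.1 hk with h | h
        · rw [h]; exact Finset.mem_range.2 hi
        · rw [Finset.mem_singleton.1 h]; exact Finset.mem_range.2 hj)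
      hw1 hzl1 hw2 hzl2 (by simp)).2 j (by simp)
    have h3 := calc_comp hP one_pos hl.le hR₁ (hIs l hl0) (hres l hl.le) (hz n i).1 hzl1
      (Finset.mem_range.2 hi) (hz n i).2 hzl2 j
    linarith
  · intro a ha
    filter_upwards [eventually_gt_atTop i, eventually_gt_atTop j] with n hi hj
    rw [hval n hi hj]
    refine lt_of_le_of_lt ?_ ha
    have h1 := q_le hP hR₁ hQ hz hi hj
    have h2 : (if i = j then 1 else 0 : EReal) = ((if i = j then 1 else 0 : ℝ) : EReal) := by
      split_ifs <;> simp
    rw [h2]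
    induction hq : Q i j with
    | bot =>
      have h3 : ((if i = j then 1 else 0 : ℝ) : EReal) - ⊥ = ⊤ := EReal.coe_sub_bot _
      rw [h3]
      exact le_top
    | coe q =>
      rw [hq] at h1
      have h3 : q ≤ (if i = j then 1 else 0) - z n i j := by exact_mod_cast h1
      have h4 : z n i j ≤ (if i = j then 1 else 0) - q := by linarith
      rw [← EReal.coe_sub]
      exact EReal.coe_le_coe_iff.2 h4
    | top => rw [hq] at h1; exact absurd h1 (not_le.2 (EReal.coe_lt_top _))

end Pool.Agent.Work.MP_b687c6_pr
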