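import Pool.Agent.Work.MP_b687c6_pr.Defs2

/-! Three principles for the generator of a positive contraction semigroup on `ℓ¹`. -/

namespace Pool.Agent.Work.MP_b687c6_pr

open Filter Topology

variable {S : Type*} [DecidableEq S]

/-- Positive part as a vector. -/
noncomputable def posv (x : E1 S) : E1 S :=
  ⟨fun i => max (x i) 0, by
    refine memℓp_gen ?_
    simpa using (summable_pos x).abs⟩

lemma posv_apply (x : E1 S) (i : S) : posv x i = max (x i) 0 := rfl

lemma norm_posv (x : E1 S) : ‖posv x‖ = pos x := by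
  rw [norm_eq_tsum, pos]
  refine tsum_congr fun i => ?_
  rw [posv_apply, abs_of_nonneg (le_max_right _ _)]

lemma massF_of_nonneg {x : E1 S} (hx : ∀ i, 0 ≤ x i) : massF x = ‖x‖ := by
  rw [massF_apply, norm_eq_tsum]
  exact tsum_congr fun i => (abs_of_nonneg (hx i)).symm

lemma pos_P_le {P : ℝ → E1 S →L[ℝ] E1 S} (hP : Semi P) (x : E1 S) {t : ℝ} (ht : 0 ≤ t) :
    pos (P t x) ≤ pos x := by
  have h1 : ∀ i, 0 ≤ (posv x - x) i := by
    intro i
    rw [lp.coeFn_sub, Pi.sub_apply, posv_apply, sub_nonneg]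
    exact le_max_left _ _
  have h2 : ∀ i, P t x i ≤ P t (posv x) i := by
    intro i
    have := hP.pos t ht _ h1 i
    rw [map_sub, lp.coeFn_sub, Pi.sub_apply] at this
    linarith
  have h3 : ∀ i, 0 ≤ P t (posv x) i := hP.pos t ht _ fun i => le_max_right _ _
  calc pos (P t x) ≤ ‖P t (posv x)‖ := by
        rw [norm_eq_tsum, pos]
        refine (summable_pos _).tsum_le_tsum (fun i => ?_) (summable_abs _)
        exact max_le ((h2 i).trans (le_abs_self _)) (abs_nonneg _)
    _ ≤ ‖posv x‖ := hP.contr t ht _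
    _ = pos x := norm_posv x

/-- Dispersivity. -/
theorem prin_neg {P : ℝ → E1 S →L[ℝ] E1 S} (hP : Semi P) {x y : E1 S} (h : IsGen P x y)
    (g : S → ℝ) (hg : ∀ i, |g i| ≤ 1) (hgx : ∀ i, g i = if 0 < x i then 1 else 0) :
    Gf g hg y ≤ 0 := by
  have h1 : Tendsto (fun t : ℝ => Gf g hg (t⁻¹ • (P t x - x))) (𝓝[>] 0) (𝓝 (Gf g hg y)) :=
    ((Gf g hg).continuous.tendsto _).comp h
  refine le_of_tendsto h1 ?_
  filter_upwards [self_mem_nhdsWithin] with t ht
  have ht0 : (0 : ℝ) < t := ht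
  rw [map_smul, map_sub, smul_eq_mul]
  refine mul_nonpos_of_nonneg_of_nonpos (inv_nonneg.2 ht0.le) ?_
  have h2 : Gf g hg x = pos x := by
    rw [Gf_apply, pos]
    refine tsum_congr fun i => ?_
    rw [hgx]
    by_cases hi : 0 < x i
    · rw [if_pos hi, one_mul, max_eq_left hi.le]
    · rw [if_neg hi, zero_mul, max_eq_right (not_lt.1 hi)]
  have h3 : Gf g hg (P t x) ≤ pos (P t x) := by
    rw [Gf_apply, pos]
    refine Summable.tsum_le_tsum (fun i => ?_) ?_ (summable_pos _)
    · rw [hgx]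
      split_ifs
      · rw [one_mul]; exact le_max_left _ _
      · rw [zero_mul]; exact le_max_right _ _
    · exact Summable.of_norm_bounded (summable_abs _) fun i => by
        rw [Real.norm_eq_abs, abs_mul]
        exact mul_le_of_le_one_left (abs_nonneg _) (hg i)
  have h4 := pos_P_le hP x ht0.le
  linarith

theorem prin_min {P : ℝ → E1 S →L[ℝ] E1 S} (hP : Semi P) {x y : E1 S} (h : IsGen P x y)
    (hx : ∀ i, 0 ≤ x i) {j : S} (hj : x j = 0) : 0 ≤ y j := by
  have h1 : Tendsto (fun t : ℝ => coordF j (t⁻¹ • (P t x - x))) (𝓝[>] 0) (𝓝 (coordF j y)) :=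
    ((coordF j).continuous.tendsto _).comp h
  rw [← coordF_apply]
  refine ge_of_tendsto h1 ?_
  filter_upwards [self_mem_nhdsWithin] with t ht
  have ht0 : (0 : ℝ) < t := ht
  rw [map_smul, map_sub, coordF_apply, coordF_apply, hj, sub_zero, smul_eq_mul]
  exact mul_nonneg (inv_nonneg.2 ht0.le) (hP.pos t ht0.le x hx j)

theorem prin_mass {P : ℝ → E1 S →L[ℝ] E1 S} (hP : Semi P) {x y : E1 S} (h : IsGen P x y)
    (hx : ∀ i, 0 ≤ x i) : massF y ≤ 0 := by
  have h1 : Tendsto (fun t : ℝ => massF (t⁻¹ • (P t x - x))) (𝓝[>] 0) (𝓝 (massF y)) :=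
    (massF.continuous.tendsto _).comp h
  refine le_of_tendsto h1 ?_
  filter_upwards [self_mem_nhdsWithin] with t ht
  have ht0 : (0 : ℝ) < t := ht
  rw [map_smul, map_sub, smul_eq_mul]
  refine mul_nonpos_of_nonneg_of_nonpos (inv_nonneg.2 ht0.le) ?_
  rw [massF_of_nonneg (hP.pos t ht0.le x hx), massF_of_nonneg hx, sub_nonpos]
  exact hP.contr t ht0.le x

end Pool.Agent.Work.MP_b687c6_pr
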